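import Pool.Agent.Gen.F5.X123C1Dm5.S000
import Pool.Agent.Gen.F5.X123C1Dm5.S001
import Pool.Agent.Gen.F5.X123C1Dm5.S002

set_option autoImplicit false
set_option maxRecDepth 100000

namespace Pool.Agent.Gen.F5.X123C1Dm5

open Pool.Agent.Helper72.F5

def n0 : Cl (O (nat_lit 5)) (R (nat_lit 135377))
    (p (nat_lit 0xb000c) (nat_lit 0) (p (nat_lit 0x200014) (nat_lit 1) (p (nat_lit 0x200004) (nat_lit 0) (p (nat_lit 0x109) (nat_lit 1) (p (nat_lit 0x101) (nat_lit 0) (p (nat_lit 0x81) (nat_lit 1) (p (nat_lit 0xc1) (nat_lit 1) (p (nat_lit 0x119) (nat_lit 1) (p (nat_lit 0xd1) (nat_lit 0) (p (nat_lit 0x89) (nat_lit 0) (p (nat_lit 0x41) (nat_lit 0) (p (nat_lit 0x10b0a09890a9a) (nat_lit 0) (p (nat_lit 0xa8989088a1a) (nat_lit 0) (p (nat_lit 0x10a090888079a) (nat_lit 0) (p (nat_lit 0x9888807871a) (nat_lit 0) (p (nat_lit 0x8000000000800090787088a) (nat_lit 0) (p (nat_lit 0x8000000000800088706860a)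 (nat_lit 0) (p (nat_lit 0x10706860782) (nat_lit 0) (p (nat_lit 0x686058702) (nat_lit 0) (p (nat_lit 0x10605850482) (nat_lit 0) (p (nat_lit 0x585048402) (nat_lit 0) (p (nat_lit 0x16000c) (nat_lit 0) (p (nat_lit 0x60592) (nat_lit 0) (p (nat_lit 0x48512) (nat_lit 0) (p (nat_lit 0x50392) (nat_lit 0) (p (nat_lit 0x38312) (nat_lit 0) (p (nat_lit 0x40212) (nat_lit 0) (p (nat_lit 0x28192) (nat_lit 0) (p (nat_lit 0x30092) (nat_lit 0) (p (nat_lit 0x18012) (nat_lit 0) pn)))))))))))))))))))))))))))))) :=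
  Cl.node (nat_lit 0xc9) (nat_lit 2) (by decide +kernel) (ClAll.succ (ClAll.succ ClAll.zero s17) s18)

def n1 : Cl (O (nat_lit 5)) (R (nat_lit 135377))
    (p (nat_lit 0x200014) (nat_lit 1) (p (nat_lit 0x200004) (nat_lit 0) (p (nat_lit 0x109) (nat_lit 1) (p (nat_lit 0x101) (nat_lit 0) (p (nat_lit 0x81) (nat_lit 1) (p (nat_lit 0xc1) (nat_lit 1) (p (nat_lit 0x119) (nat_lit 1) (p (nat_lit 0xd1) (nat_lit 0) (p (nat_lit 0x89) (nat_lit 0) (p (nat_lit 0x41) (nat_lit 0) (p (nat_lit 0x10b0a09890a9a) (nat_lit 0) (p (nat_lit 0xa8989088a1a) (nat_lit 0) (p (nat_lit 0x10a090888079a) (nat_lit 0) (p (nat_lit 0x9888807871a) (nat_lit 0) (p (nat_lit 0x8000000000800090787088a) (nat_lit 0) (p (nat_lit 0x8000000000800088706860a) (nat_lit 0) (p (nat_lit 0x10706860782) (nat_lit 0) (p (nat_lit 0x686058702) (nat_lit 0) (p (nat_lit 0x10605850482) (nat_lit 0) (p (nat_lit 0x585048402) (nat_lit 0) (p (nat_lit 0x16000c)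 (nat_lit 0) (p (nat_lit 0x60592) (nat_lit 0) (p (nat_lit 0x48512) (nat_lit 0) (p (nat_lit 0x50392) (nat_lit 0) (p (nat_lit 0x38312) (nat_lit 0) (p (nat_lit 0x40212) (nat_lit 0) (p (nat_lit 0x28192) (nat_lit 0) (p (nat_lit 0x30092) (nat_lit 0) (p (nat_lit 0x18012) (nat_lit 0) pn))))))))))))))))))))))))))))) :=
  Cl.node (nat_lit 0xb000c) (nat_lit 2) (by decide +kernel) (ClAll.succ (ClAll.succ ClAll.zero n0) s19)

def n2 : Cl (O (nat_lit 5)) (R (nat_lit 135377))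
    (p (nat_lit 0xb000c) (nat_lit 0) (p (nat_lit 0x200014) (nat_lit 0) (p (nat_lit 0x200004) (nat_lit 0) (p (nat_lit 0x89) (nat_lit 1) (p (nat_lit 0x101) (nat_lit 1) (p (nat_lit 0xc1) (nat_lit 1) (p (nat_lit 0x119) (nat_lit 1) (p (nat_lit 0xd1) (nat_lit 0) (p (nat_lit 0x81) (nat_lit 0) (p (nat_lit 0x41) (nat_lit 1) (p (nat_lit 0x10b0a09890a9a) (nat_lit 0) (p (nat_lit 0xa8989088a1a) (nat_lit 0) (p (nat_lit 0x10a090888079a) (nat_lit 0) (p (nat_lit 0x9888807871a) (nat_lit 0) (p (nat_lit 0x8000000000800090787088a) (nat_lit 0) (p (nat_lit 0x8000000000800088706860a) (nat_lit 0) (p (nat_lit 0x10706860782) (nat_lit 0) (p (nat_lit 0x686058702) (nat_lit 0) (p (nat_lit 0x10605850482) (nat_lit 0) (p (nat_lit 0x585048402) (nat_lit 0) (p (nat_lit 0x16000c) (nat_lit 0) (p (nat_lit 0x60592) (nat_lit 0) (p (nat_lit 0x48512) (nat_lit 0) (p (nat_lit 0x50392) (nat_lit 0) (p (nat_lit 0x38312) (nat_lit 0)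 (p (nat_lit 0x40212) (nat_lit 0) (p (nat_lit 0x28192) (nat_lit 0) (p (nat_lit 0x30092) (nat_lit 0) (p (nat_lit 0x18012) (nat_lit 0) pn))))))))))))))))))))))))))))) :=
  Cl.node (nat_lit 0xc9) (nat_lit 2) (by decide +kernel) (ClAll.succ (ClAll.succ ClAll.zero s74) s75)

def n3 : Cl (O (nat_lit 5)) (R (nat_lit 135377))
    (p (nat_lit 0x200004) (nat_lit 0) (p (nat_lit 0x109) (nat_lit 1) (p (nat_lit 0x101) (nat_lit 0) (p (nat_lit 0x81) (nat_lit 1) (p (nat_lit 0xc1) (nat_lit 1) (p (nat_lit 0x119) (nat_lit 1) (p (nat_lit 0xd1) (nat_lit 0) (p (nat_lit 0x89) (nat_lit 0) (p (nat_lit 0x41) (nat_lit 0) (p (nat_lit 0x10b0a09890a9a) (nat_lit 0) (p (nat_lit 0xa8989088a1a) (nat_lit 0) (p (nat_lit 0x10a090888079a) (nat_lit 0) (p (nat_lit 0x9888807871a) (nat_lit 0) (p (nat_lit 0x8000000000800090787088a) (nat_lit 0) (p (nat_lit 0x8000000000800088706860a) (nat_lit 0) (p (nat_lit 0x10706860782) (nat_lit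 0) (p (nat_lit 0x686058702) (nat_lit 0) (p (nat_lit 0x10605850482) (nat_lit 0) (p (nat_lit 0x585048402) (nat_lit 0) (p (nat_lit 0x16000c) (nat_lit 0) (p (nat_lit 0x60592) (nat_lit 0) (p (nat_lit 0x48512) (nat_lit 0) (p (nat_lit 0x50392) (nat_lit 0) (p (nat_lit 0x38312) (nat_lit 0) (p (nat_lit 0x40212) (nat_lit 0) (p (nat_lit 0x28192) (nat_lit 0) (p (nat_lit 0x30092) (nat_lit 0) (p (nat_lit 0x18012) (nat_lit 0) pn)))))))))))))))))))))))))))) :=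
  Cl.node (nat_lit 0x200014) (nat_lit 2) (by decide +kernel) (ClAll.succ (ClAll.succ ClAll.zero s16) n1)

def n4 : Cl (O (nat_lit 5)) (R (nat_lit 135377))
    (p (nat_lit 0x200014) (nat_lit 0) (p (nat_lit 0x200004) (nat_lit 0) (p (nat_lit 0x101) (nat_lit 1) (p (nat_lit 0x81) (nat_lit 1) (p (nat_lit 0xc1) (nat_lit 1) (p (nat_lit 0x119) (nat_lit 1) (p (nat_lit 0xd1) (nat_lit 0) (p (nat_lit 0x89) (nat_lit 0) (p (nat_lit 0x41) (nat_lit 0) (p (nat_lit 0x10b0a09890a9a) (nat_lit 0) (p (nat_lit 0xa8989088a1a) (nat_lit 0) (p (nat_lit 0x10a090888079a) (nat_lit 0) (p (nat_lit 0x9888807871a) (nat_lit 0) (p (nat_lit 0x8000000000800090787088a) (nat_lit 0) (p (nat_lit 0x8000000000800088706860a) (nat_lit 0) (p (nat_lit 0x10706860782) (nat_lit 0) (p (nat_lit 0x686058702) (nat_lit 0) (p (nat_lit 0x10605850482) (nat_lit 0) (p (nat_lit 0x585048402) (nat_lit 0) (p (nat_lit 0x16000c) (nat_lit 0) (p (nat_lit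 0x60592) (nat_lit 0) (p (nat_lit 0x48512) (nat_lit 0) (p (nat_lit 0x50392) (nat_lit 0) (p (nat_lit 0x38312) (nat_lit 0) (p (nat_lit 0x40212) (nat_lit 0) (p (nat_lit 0x28192) (nat_lit 0) (p (nat_lit 0x30092) (nat_lit 0) (p (nat_lit 0x18012) (nat_lit 0) pn)))))))))))))))))))))))))))) :=
  Cl.node (nat_lit 0xb000c) (nat_lit 2) (by decide +kernel) (ClAll.succ (ClAll.succ ClAll.zero s21) s22)

def n5 : Cl (O (nat_lit 5)) (R (nat_lit 135377))
    (p (nat_lit 0x200004) (nat_lit 0) (p (nat_lit 0x109) (nat_lit 1) (p (nat_lit 0x89) (nat_lit 1) (p (nat_lit 0xc9) (nat_lit 1) (p (nat_lit 0xc1) (nat_lit 0) (p (nat_lit 0x119) (nat_lit 1) (p (nat_lit 0xd1) (nat_lit 0) (p (nat_lit 0x81) (nat_lit 0) (p (nat_lit 0x41) (nat_lit 1) (p (nat_lit 0x10b0a09890a9a) (nat_lit 0) (p (nat_lit 0xa8989088a1a) (nat_lit 0) (p (nat_lit 0x10a090888079a) (nat_lit 0) (p (nat_lit 0x9888807871a) (nat_lit 0) (p (nat_lit 0x8000000000800090787088a)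 (nat_lit 0) (p (nat_lit 0x8000000000800088706860a) (nat_lit 0) (p (nat_lit 0x10706860782) (nat_lit 0) (p (nat_lit 0x686058702) (nat_lit 0) (p (nat_lit 0x10605850482) (nat_lit 0) (p (nat_lit 0x585048402) (nat_lit 0) (p (nat_lit 0x16000c) (nat_lit 0) (p (nat_lit 0x60592) (nat_lit 0) (p (nat_lit 0x48512) (nat_lit 0) (p (nat_lit 0x50392) (nat_lit 0) (p (nat_lit 0x38312) (nat_lit 0) (p (nat_lit 0x40212) (nat_lit 0) (p (nat_lit 0x28192) (nat_lit 0) (p (nat_lit 0x30092) (nat_lit 0) (p (nat_lit 0x18012) (nat_lit 0) pn)))))))))))))))))))))))))))) :=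
  Cl.node (nat_lit 0x200014) (nat_lit 2) (by decide +kernel) (ClAll.succ (ClAll.succ ClAll.zero s65) s66)

def n6 : Cl (O (nat_lit 5)) (R (nat_lit 135377))
    (p (nat_lit 0x200014) (nat_lit 0) (p (nat_lit 0x200004) (nat_lit 0) (p (nat_lit 0x89) (nat_lit 1) (p (nat_lit 0x101) (nat_lit 1) (p (nat_lit 0xc1) (nat_lit 1) (p (nat_lit 0x119) (nat_lit 1) (p (nat_lit 0xd1) (nat_lit 0) (p (nat_lit 0x81) (nat_lit 0) (p (nat_lit 0x41) (nat_lit 1) (p (nat_lit 0x10b0a09890a9a) (nat_lit 0) (p (nat_lit 0xa8989088a1a) (nat_lit 0) (p (nat_lit 0x10a090888079a) (nat_lit 0) (p (nat_lit 0x9888807871a) (nat_lit 0) (p (nat_lit 0x8000000000800090787088a) (nat_lit 0) (p (nat_lit 0x8000000000800088706860a) (nat_lit 0) (p (nat_lit 0x10706860782) (nat_lit 0) (p (nat_lit 0x686058702) (nat_lit 0) (p (nat_lit 0x10605850482) (nat_lit 0) (p (nat_lit 0x585048402) (nat_lit 0) (p (nat_lit 0x16000c) (nat_lit 0) (p (nat_lit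 0x60592) (nat_lit 0) (p (nat_lit 0x48512) (nat_lit 0) (p (nat_lit 0x50392) (nat_lit 0) (p (nat_lit 0x38312) (nat_lit 0) (p (nat_lit 0x40212) (nat_lit 0) (p (nat_lit 0x28192) (nat_lit 0) (p (nat_lit 0x30092) (nat_lit 0) (p (nat_lit 0x18012) (nat_lit 0) pn)))))))))))))))))))))))))))) :=
  Cl.node (nat_lit 0xb000c) (nat_lit 2) (by decide +kernel) (ClAll.succ (ClAll.succ ClAll.zero n2) s76)

def n7 : Cl (O (nat_lit 5)) (R (nat_lit 135377))
    (p (nat_lit 0x200004) (nat_lit 0) (p (nat_lit 0xc9) (nat_lit 1) (p (nat_lit 0x81) (nat_lit 0) (p (nat_lit 0x101) (nat_lit 1) (p (nat_lit 0x119) (nat_lit 0) (p (nat_lit 0xd1) (nat_lit 0) (p (nat_lit 0x89) (nat_lit 0) (p (nat_lit 0x41) (nat_lit 0) (p (nat_lit 0x10b0a09890a9a) (nat_lit 0) (p (nat_lit 0xa8989088a1a) (nat_lit 0) (p (nat_lit 0x10a090888079a) (nat_lit 0) (p (nat_lit 0x9888807871a) (nat_lit 0) (p (nat_lit 0x8000000000800090787088a) (nat_lit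 0) (p (nat_lit 0x8000000000800088706860a) (nat_lit 0) (p (nat_lit 0x10706860782) (nat_lit 0) (p (nat_lit 0x686058702) (nat_lit 0) (p (nat_lit 0x10605850482) (nat_lit 0) (p (nat_lit 0x585048402) (nat_lit 0) (p (nat_lit 0x16000c) (nat_lit 0) (p (nat_lit 0x60592) (nat_lit 0) (p (nat_lit 0x48512) (nat_lit 0) (p (nat_lit 0x50392) (nat_lit 0) (p (nat_lit 0x38312) (nat_lit 0) (p (nat_lit 0x40212) (nat_lit 0) (p (nat_lit 0x28192) (nat_lit 0) (p (nat_lit 0x30092) (nat_lit 0) (p (nat_lit 0x18012) (nat_lit 0) pn))))))))))))))))))))))))))) :=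
  Cl.node (nat_lit 0x200014) (nat_lit 2) (by decide +kernel) (ClAll.succ (ClAll.succ ClAll.zero s3) s4)

def n8 : Cl (O (nat_lit 5)) (R (nat_lit 135377))
    (p (nat_lit 0x109) (nat_lit 1) (p (nat_lit 0x101) (nat_lit 0) (p (nat_lit 0x81) (nat_lit 1) (p (nat_lit 0xc1) (nat_lit 1) (p (nat_lit 0x119) (nat_lit 1) (p (nat_lit 0xd1) (nat_lit 0) (p (nat_lit 0x89) (nat_lit 0) (p (nat_lit 0x41) (nat_lit 0) (p (nat_lit 0x10b0a09890a9a) (nat_lit 0) (p (nat_lit 0xa8989088a1a) (nat_lit 0) (p (nat_lit 0x10a090888079a) (nat_lit 0) (p (nat_lit 0x9888807871a) (nat_lit 0) (p (nat_lit 0x8000000000800090787088a) (nat_lit 0) (p (nat_lit 0x8000000000800088706860a) (nat_lit 0) (p (nat_lit 0x10706860782) (nat_lit 0) (p (nat_lit 0x686058702) (nat_lit 0) (p (nat_lit 0x10605850482) (nat_lit 0) (p (nat_lit 0x585048402) (nat_lit 0) (p (nat_lit 0x16000c) (nat_lit 0) (p (nat_lit 0x60592) (nat_lit 0) (p (nat_lit 0x48512)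 (nat_lit 0) (p (nat_lit 0x50392) (nat_lit 0) (p (nat_lit 0x38312) (nat_lit 0) (p (nat_lit 0x40212) (nat_lit 0) (p (nat_lit 0x28192) (nat_lit 0) (p (nat_lit 0x30092) (nat_lit 0) (p (nat_lit 0x18012) (nat_lit 0) pn))))))))))))))))))))))))))) :=
  Cl.node (nat_lit 0x200004) (nat_lit 2) (by decide +kernel) (ClAll.succ (ClAll.succ ClAll.zero n3) s20)

def n9 : Cl (O (nat_lit 5)) (R (nat_lit 135377))
    (p (nat_lit 0x200004) (nat_lit 0) (p (nat_lit 0x101) (nat_lit 1) (p (nat_lit 0x81) (nat_lit 1) (p (nat_lit 0xc1) (nat_lit 1) (p (nat_lit 0x119) (nat_lit 1) (p (nat_lit 0xd1) (nat_lit 0) (p (nat_lit 0x89) (nat_lit 0) (p (nat_lit 0x41) (nat_lit 0) (p (nat_lit 0x10b0a09890a9a) (nat_lit 0) (p (nat_lit 0xa8989088a1a) (nat_lit 0) (p (nat_lit 0x10a090888079a) (nat_lit 0) (p (nat_lit 0x9888807871a) (nat_lit 0) (p (nat_lit 0x8000000000800090787088a) (nat_lit 0) (p (nat_lit 0x8000000000800088706860a)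 (nat_lit 0) (p (nat_lit 0x10706860782) (nat_lit 0) (p (nat_lit 0x686058702) (nat_lit 0) (p (nat_lit 0x10605850482) (nat_lit 0) (p (nat_lit 0x585048402) (nat_lit 0) (p (nat_lit 0x16000c) (nat_lit 0) (p (nat_lit 0x60592) (nat_lit 0) (p (nat_lit 0x48512) (nat_lit 0) (p (nat_lit 0x50392) (nat_lit 0) (p (nat_lit 0x38312) (nat_lit 0) (p (nat_lit 0x40212) (nat_lit 0) (p (nat_lit 0x28192) (nat_lit 0) (p (nat_lit 0x30092) (nat_lit 0) (p (nat_lit 0x18012) (nat_lit 0) pn))))))))))))))))))))))))))) :=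
  Cl.node (nat_lit 0x200014) (nat_lit 2) (by decide +kernel) (ClAll.succ (ClAll.succ ClAll.zero n4) s23)

def n10 : Cl (O (nat_lit 5)) (R (nat_lit 135377))
    (p (nat_lit 0x200004) (nat_lit 0) (p (nat_lit 0xc1) (nat_lit 0) (p (nat_lit 0x81) (nat_lit 1) (p (nat_lit 0x101) (nat_lit 1) (p (nat_lit 0x111) (nat_lit 0) (p (nat_lit 0xd1) (nat_lit 1) (p (nat_lit 0x89) (nat_lit 0) (p (nat_lit 0x41) (nat_lit 0) (p (nat_lit 0x10b0a09890a9a) (nat_lit 0) (p (nat_lit 0xa8989088a1a) (nat_lit 0) (p (nat_lit 0x10a090888079a) (nat_lit 0) (p (nat_lit 0x9888807871a) (nat_lit 0) (p (nat_lit 0x8000000000800090787088a) (nat_lit 0) (p (nat_lit 0x8000000000800088706860a) (nat_lit 0) (p (nat_lit 0x10706860782) (nat_lit 0) (p (nat_lit 0x686058702) (nat_lit 0) (p (nat_lit 0x10605850482) (nat_lit 0) (p (nat_lit 0x585048402) (nat_lit 0) (p (nat_lit 0x16000c) (nat_lit 0) (p (nat_lit 0x60592) (nat_lit 0) (p (nat_lit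 0x48512) (nat_lit 0) (p (nat_lit 0x50392) (nat_lit 0) (p (nat_lit 0x38312) (nat_lit 0) (p (nat_lit 0x40212) (nat_lit 0) (p (nat_lit 0x28192) (nat_lit 0) (p (nat_lit 0x30092) (nat_lit 0) (p (nat_lit 0x18012) (nat_lit 0) pn))))))))))))))))))))))))))) :=
  Cl.node (nat_lit 0x200014) (nat_lit 2) (by decide +kernel) (ClAll.succ (ClAll.succ ClAll.zero s28) s29)

def n11 : Cl (O (nat_lit 5)) (R (nat_lit 135377))
    (p (nat_lit 0x200004) (nat_lit 0) (p (nat_lit 0xd1) (nat_lit 0) (p (nat_lit 0xc1) (nat_lit 0) (p (nat_lit 0x101) (nat_lit 1) (p (nat_lit 0x119) (nat_lit 0) (p (nat_lit 0xc9) (nat_lit 0) (p (nat_lit 0x89) (nat_lit 1) (p (nat_lit 0x41) (nat_lit 0) (p (nat_lit 0x10b0a09890a9a) (nat_lit 0) (p (nat_lit 0xa8989088a1a) (nat_lit 0) (p (nat_lit 0x10a090888079a) (nat_lit 0) (p (nat_lit 0x9888807871a) (nat_lit 0) (p (nat_lit 0x8000000000800090787088a) (nat_lit 0) (p (nat_lit 0x8000000000800088706860a)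 (nat_lit 0) (p (nat_lit 0x10706860782) (nat_lit 0) (p (nat_lit 0x686058702) (nat_lit 0) (p (nat_lit 0x10605850482) (nat_lit 0) (p (nat_lit 0x585048402) (nat_lit 0) (p (nat_lit 0x16000c) (nat_lit 0) (p (nat_lit 0x60592) (nat_lit 0) (p (nat_lit 0x48512) (nat_lit 0) (p (nat_lit 0x50392) (nat_lit 0) (p (nat_lit 0x38312) (nat_lit 0) (p (nat_lit 0x40212) (nat_lit 0) (p (nat_lit 0x28192) (nat_lit 0) (p (nat_lit 0x30092) (nat_lit 0) (p (nat_lit 0x18012) (nat_lit 0) pn))))))))))))))))))))))))))) :=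
  Cl.node (nat_lit 0x200014) (nat_lit 2) (by decide +kernel) (ClAll.succ (ClAll.succ ClAll.zero s37) s38)

def n12 : Cl (O (nat_lit 5)) (R (nat_lit 135377))
    (p (nat_lit 0x200004) (nat_lit 0) (p (nat_lit 0x111) (nat_lit 1) (p (nat_lit 0x101) (nat_lit 0) (p (nat_lit 0xc1) (nat_lit 1) (p (nat_lit 0x119) (nat_lit 1) (p (nat_lit 0xc9) (nat_lit 0) (p (nat_lit 0x89) (nat_lit 1) (p (nat_lit 0x41) (nat_lit 0) (p (nat_lit 0x10b0a09890a9a) (nat_lit 0) (p (nat_lit 0xa8989088a1a) (nat_lit 0) (p (nat_lit 0x10a090888079a) (nat_lit 0) (p (nat_lit 0x9888807871a) (nat_lit 0) (p (nat_lit 0x8000000000800090787088a) (nat_lit 0) (p (nat_lit 0x8000000000800088706860a) (nat_lit 0) (p (nat_lit 0x10706860782) (nat_lit 0) (p (nat_lit 0x686058702) (nat_lit 0) (p (nat_lit 0x10605850482) (nat_lit 0) (p (nat_lit 0x585048402) (nat_lit 0) (p (nat_lit 0x16000c) (nat_lit 0) (p (nat_lit 0x60592) (nat_lit 0) (p (nat_lit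 0x48512) (nat_lit 0) (p (nat_lit 0x50392) (nat_lit 0) (p (nat_lit 0x38312) (nat_lit 0) (p (nat_lit 0x40212) (nat_lit 0) (p (nat_lit 0x28192) (nat_lit 0) (p (nat_lit 0x30092) (nat_lit 0) (p (nat_lit 0x18012) (nat_lit 0) pn))))))))))))))))))))))))))) :=
  Cl.node (nat_lit 0x200014) (nat_lit 2) (by decide +kernel) (ClAll.succ (ClAll.succ ClAll.zero s46) s47)

def n13 : Cl (O (nat_lit 5)) (R (nat_lit 135377))
    (p (nat_lit 0x109) (nat_lit 1) (p (nat_lit 0x89) (nat_lit 1) (p (nat_lit 0xc9) (nat_lit 1) (p (nat_lit 0xc1) (nat_lit 0) (p (nat_lit 0x119) (nat_lit 1) (p (nat_lit 0xd1) (nat_lit 0) (p (nat_lit 0x81) (nat_lit 0) (p (nat_lit 0x41) (nat_lit 1) (p (nat_lit 0x10b0a09890a9a) (nat_lit 0) (p (nat_lit 0xa8989088a1a) (nat_lit 0) (p (nat_lit 0x10a090888079a) (nat_lit 0) (p (nat_lit 0x9888807871a) (nat_lit 0) (p (nat_lit 0x8000000000800090787088a) (nat_lit 0) (p (nat_lit 0x8000000000800088706860a)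 (nat_lit 0) (p (nat_lit 0x10706860782) (nat_lit 0) (p (nat_lit 0x686058702) (nat_lit 0) (p (nat_lit 0x10605850482) (nat_lit 0) (p (nat_lit 0x585048402) (nat_lit 0) (p (nat_lit 0x16000c) (nat_lit 0) (p (nat_lit 0x60592) (nat_lit 0) (p (nat_lit 0x48512) (nat_lit 0) (p (nat_lit 0x50392) (nat_lit 0) (p (nat_lit 0x38312) (nat_lit 0) (p (nat_lit 0x40212) (nat_lit 0) (p (nat_lit 0x28192) (nat_lit 0) (p (nat_lit 0x30092) (nat_lit 0) (p (nat_lit 0x18012) (nat_lit 0) pn))))))))))))))))))))))))))) :=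
  Cl.node (nat_lit 0x200004) (nat_lit 2) (by decide +kernel) (ClAll.succ (ClAll.succ ClAll.zero n5) s67)

def n14 : Cl (O (nat_lit 5)) (R (nat_lit 135377))
    (p (nat_lit 0x109) (nat_lit 0) (p (nat_lit 0x89) (nat_lit 1) (p (nat_lit 0x101) (nat_lit 0) (p (nat_lit 0xc1) (nat_lit 1) (p (nat_lit 0x119) (nat_lit 1) (p (nat_lit 0xd1) (nat_lit 0) (p (nat_lit 0x81) (nat_lit 0) (p (nat_lit 0x41) (nat_lit 1) (p (nat_lit 0x10b0a09890a9a) (nat_lit 0) (p (nat_lit 0xa8989088a1a) (nat_lit 0) (p (nat_lit 0x10a090888079a) (nat_lit 0) (p (nat_lit 0x9888807871a) (nat_lit 0) (p (nat_lit 0x8000000000800090787088a) (nat_lit 0) (p (nat_lit 0x8000000000800088706860a) (nat_lit 0) (p (nat_lit 0x10706860782) (nat_lit 0) (p (nat_lit 0x686058702) (nat_lit 0) (p (nat_lit 0x10605850482) (nat_lit 0) (p (nat_lit 0x585048402) (nat_lit 0) (p (nat_lit 0x16000c) (nat_lit 0) (p (nat_lit 0x60592) (nat_lit 0) (p (nat_lit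 0x48512) (nat_lit 0) (p (nat_lit 0x50392) (nat_lit 0) (p (nat_lit 0x38312) (nat_lit 0) (p (nat_lit 0x40212) (nat_lit 0) (p (nat_lit 0x28192) (nat_lit 0) (p (nat_lit 0x30092) (nat_lit 0) (p (nat_lit 0x18012) (nat_lit 0) pn))))))))))))))))))))))))))) :=
  Cl.node (nat_lit 0x200004) (nat_lit 2) (by decide +kernel) (ClAll.succ (ClAll.succ ClAll.zero s69) s70)

def n15 : Cl (O (nat_lit 5)) (R (nat_lit 135377))
    (p (nat_lit 0x109) (nat_lit 1) (p (nat_lit 0x89) (nat_lit 1) (p (nat_lit 0x101) (nat_lit 0) (p (nat_lit 0xc1) (nat_lit 1) (p (nat_lit 0x119) (nat_lit 1) (p (nat_lit 0xd1) (nat_lit 0) (p (nat_lit 0x81) (nat_lit 0) (p (nat_lit 0x41) (nat_lit 1) (p (nat_lit 0x10b0a09890a9a) (nat_lit 0) (p (nat_lit 0xa8989088a1a) (nat_lit 0) (p (nat_lit 0x10a090888079a) (nat_lit 0) (p (nat_lit 0x9888807871a) (nat_lit 0) (p (nat_lit 0x8000000000800090787088a) (nat_lit 0) (p (nat_lit 0x8000000000800088706860a)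 (nat_lit 0) (p (nat_lit 0x10706860782) (nat_lit 0) (p (nat_lit 0x686058702) (nat_lit 0) (p (nat_lit 0x10605850482) (nat_lit 0) (p (nat_lit 0x585048402) (nat_lit 0) (p (nat_lit 0x16000c) (nat_lit 0) (p (nat_lit 0x60592) (nat_lit 0) (p (nat_lit 0x48512) (nat_lit 0) (p (nat_lit 0x50392) (nat_lit 0) (p (nat_lit 0x38312) (nat_lit 0) (p (nat_lit 0x40212) (nat_lit 0) (p (nat_lit 0x28192) (nat_lit 0) (p (nat_lit 0x30092) (nat_lit 0) (p (nat_lit 0x18012) (nat_lit 0) pn))))))))))))))))))))))))))) :=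
  Cl.node (nat_lit 0x200004) (nat_lit 2) (by decide +kernel) (ClAll.succ (ClAll.succ ClAll.zero s71) s72)

def n16 : Cl (O (nat_lit 5)) (R (nat_lit 135377))
    (p (nat_lit 0x200004) (nat_lit 0) (p (nat_lit 0x89) (nat_lit 1) (p (nat_lit 0x101) (nat_lit 1) (p (nat_lit 0xc1) (nat_lit 1) (p (nat_lit 0x119) (nat_lit 1) (p (nat_lit 0xd1) (nat_lit 0) (p (nat_lit 0x81) (nat_lit 0) (p (nat_lit 0x41) (nat_lit 1) (p (nat_lit 0x10b0a09890a9a) (nat_lit 0) (p (nat_lit 0xa8989088a1a) (nat_lit 0) (p (nat_lit 0x10a090888079a) (nat_lit 0) (p (nat_lit 0x9888807871a) (nat_lit 0) (p (nat_lit 0x8000000000800090787088a) (nat_lit 0) (p (nat_lit 0x8000000000800088706860a) (nat_lit 0) (p (nat_lit 0x10706860782) (nat_lit 0) (p (nat_lit 0x686058702) (nat_lit 0) (p (nat_lit 0x10605850482) (nat_lit 0) (p (nat_lit 0x585048402) (nat_lit 0) (p (nat_lit 0x16000c) (nat_lit 0) (p (nat_lit 0x60592) (nat_lit 0) (p (nat_lit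 0x48512) (nat_lit 0) (p (nat_lit 0x50392) (nat_lit 0) (p (nat_lit 0x38312) (nat_lit 0) (p (nat_lit 0x40212) (nat_lit 0) (p (nat_lit 0x28192) (nat_lit 0) (p (nat_lit 0x30092) (nat_lit 0) (p (nat_lit 0x18012) (nat_lit 0) pn))))))))))))))))))))))))))) :=
  Cl.node (nat_lit 0x200014) (nat_lit 2) (by decide +kernel) (ClAll.succ (ClAll.succ ClAll.zero n6) s77)

def n17 : Cl (O (nat_lit 5)) (R (nat_lit 135377))
    (p (nat_lit 0xc9) (nat_lit 0) (p (nat_lit 0x89) (nat_lit 1) (p (nat_lit 0x109) (nat_lit 1) (p (nat_lit 0x101) (nat_lit 0) (p (nat_lit 0x111) (nat_lit 0) (p (nat_lit 0xd1) (nat_lit 1) (p (nat_lit 0x81) (nat_lit 0) (p (nat_lit 0x41) (nat_lit 1) (p (nat_lit 0x10b0a09890a9a) (nat_lit 0) (p (nat_lit 0xa8989088a1a) (nat_lit 0) (p (nat_lit 0x10a090888079a) (nat_lit 0) (p (nat_lit 0x9888807871a) (nat_lit 0) (p (nat_lit 0x8000000000800090787088a) (nat_lit 0) (p (nat_lit 0x8000000000800088706860a)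 (nat_lit 0) (p (nat_lit 0x10706860782) (nat_lit 0) (p (nat_lit 0x686058702) (nat_lit 0) (p (nat_lit 0x10605850482) (nat_lit 0) (p (nat_lit 0x585048402) (nat_lit 0) (p (nat_lit 0x16000c) (nat_lit 0) (p (nat_lit 0x60592) (nat_lit 0) (p (nat_lit 0x48512) (nat_lit 0) (p (nat_lit 0x50392) (nat_lit 0) (p (nat_lit 0x38312) (nat_lit 0) (p (nat_lit 0x40212) (nat_lit 0) (p (nat_lit 0x28192) (nat_lit 0) (p (nat_lit 0x30092) (nat_lit 0) (p (nat_lit 0x18012) (nat_lit 0) pn))))))))))))))))))))))))))) :=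
  Cl.node (nat_lit 0x200004) (nat_lit 2) (by decide +kernel) (ClAll.succ (ClAll.succ ClAll.zero s81) s82)

def n18 : Cl (O (nat_lit 5)) (R (nat_lit 135377))
    (p (nat_lit 0x200004) (nat_lit 0) (p (nat_lit 0x111) (nat_lit 1) (p (nat_lit 0xd1) (nat_lit 1) (p (nat_lit 0xc9) (nat_lit 0) (p (nat_lit 0x119) (nat_lit 1) (p (nat_lit 0xc1) (nat_lit 0) (p (nat_lit 0x81) (nat_lit 1) (p (nat_lit 0x41) (nat_lit 1) (p (nat_lit 0x10b0a09890a9a) (nat_lit 0) (p (nat_lit 0xa8989088a1a) (nat_lit 0) (p (nat_lit 0x10a090888079a) (nat_lit 0) (p (nat_lit 0x9888807871a) (nat_lit 0) (p (nat_lit 0x8000000000800090787088a) (nat_lit 0) (p (nat_lit 0x8000000000800088706860a) (nat_lit 0) (p (nat_lit 0x10706860782) (nat_lit 0) (p (nat_lit 0x686058702) (nat_lit 0) (p (nat_lit 0x10605850482) (nat_lit 0) (p (nat_lit 0x585048402) (nat_lit 0) (p (nat_lit 0x16000c) (nat_lit 0) (p (nat_lit 0x60592) (nat_lit 0) (p (nat_lit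 0x48512) (nat_lit 0) (p (nat_lit 0x50392) (nat_lit 0) (p (nat_lit 0x38312) (nat_lit 0) (p (nat_lit 0x40212) (nat_lit 0) (p (nat_lit 0x28192) (nat_lit 0) (p (nat_lit 0x30092) (nat_lit 0) (p (nat_lit 0x18012) (nat_lit 0) pn))))))))))))))))))))))))))) :=
  Cl.node (nat_lit 0x200014) (nat_lit 2) (by decide +kernel) (ClAll.succ (ClAll.succ ClAll.zero s101) s102)

def n19 : Cl (O (nat_lit 5)) (R (nat_lit 135377))
    (p (nat_lit 0xc9) (nat_lit 1) (p (nat_lit 0x81) (nat_lit 0) (p (nat_lit 0x101) (nat_lit 1) (p (nat_lit 0x119) (nat_lit 0) (p (nat_lit 0xd1) (nat_lit 0) (p (nat_lit 0x89) (nat_lit 0) (p (nat_lit 0x41) (nat_lit 0) (p (nat_lit 0x10b0a09890a9a) (nat_lit 0) (p (nat_lit 0xa8989088a1a) (nat_lit 0) (p (nat_lit 0x10a090888079a) (nat_lit 0) (p (nat_lit 0x9888807871a) (nat_lit 0) (p (nat_lit 0x8000000000800090787088a) (nat_lit 0) (p (nat_lit 0x8000000000800088706860a) (nat_lit 0) (p (nat_lit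 0x10706860782) (nat_lit 0) (p (nat_lit 0x686058702) (nat_lit 0) (p (nat_lit 0x10605850482) (nat_lit 0) (p (nat_lit 0x585048402) (nat_lit 0) (p (nat_lit 0x16000c) (nat_lit 0) (p (nat_lit 0x60592) (nat_lit 0) (p (nat_lit 0x48512) (nat_lit 0) (p (nat_lit 0x50392) (nat_lit 0) (p (nat_lit 0x38312) (nat_lit 0) (p (nat_lit 0x40212) (nat_lit 0) (p (nat_lit 0x28192) (nat_lit 0) (p (nat_lit 0x30092) (nat_lit 0) (p (nat_lit 0x18012) (nat_lit 0) pn)))))))))))))))))))))))))) :=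
  Cl.node (nat_lit 0x200004) (nat_lit 2) (by decide +kernel) (ClAll.succ (ClAll.succ ClAll.zero n7) s5)

def n20 : Cl (O (nat_lit 5)) (R (nat_lit 135377))
    (p (nat_lit 0xc1) (nat_lit 0) (p (nat_lit 0x81) (nat_lit 1) (p (nat_lit 0x101) (nat_lit 1) (p (nat_lit 0x119) (nat_lit 0) (p (nat_lit 0xd1) (nat_lit 0) (p (nat_lit 0x89) (nat_lit 0) (p (nat_lit 0x41) (nat_lit 0) (p (nat_lit 0x10b0a09890a9a) (nat_lit 0) (p (nat_lit 0xa8989088a1a) (nat_lit 0) (p (nat_lit 0x10a090888079a) (nat_lit 0) (p (nat_lit 0x9888807871a) (nat_lit 0) (p (nat_lit 0x8000000000800090787088a) (nat_lit 0) (p (nat_lit 0x8000000000800088706860a) (nat_lit 0) (p (nat_lit 0x10706860782) (nat_lit 0) (p (nat_lit 0x686058702) (nat_lit 0) (p (nat_lit 0x10605850482) (nat_lit 0) (p (nat_lit 0x585048402) (nat_lit 0) (p (nat_lit 0x16000c) (nat_lit 0) (p (nat_lit 0x60592) (nat_lit 0) (p (nat_lit 0x48512) (nat_lit 0) (p (nat_lit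 0x50392) (nat_lit 0) (p (nat_lit 0x38312) (nat_lit 0) (p (nat_lit 0x40212) (nat_lit 0) (p (nat_lit 0x28192) (nat_lit 0) (p (nat_lit 0x30092) (nat_lit 0) (p (nat_lit 0x18012) (nat_lit 0) pn)))))))))))))))))))))))))) :=
  Cl.node (nat_lit 0xc9) (nat_lit 2) (by decide +kernel) (ClAll.succ (ClAll.succ ClAll.zero s6) s7)

def n21 : Cl (O (nat_lit 5)) (R (nat_lit 135377))
    (p (nat_lit 0x109) (nat_lit 1) (p (nat_lit 0xc9) (nat_lit 1) (p (nat_lit 0xc1) (nat_lit 0) (p (nat_lit 0x119) (nat_lit 1) (p (nat_lit 0xd1) (nat_lit 0) (p (nat_lit 0x89) (nat_lit 0) (p (nat_lit 0x41) (nat_lit 0) (p (nat_lit 0x10b0a09890a9a) (nat_lit 0) (p (nat_lit 0xa8989088a1a) (nat_lit 0) (p (nat_lit 0x10a090888079a) (nat_lit 0) (p (nat_lit 0x9888807871a) (nat_lit 0) (p (nat_lit 0x8000000000800090787088a) (nat_lit 0) (p (nat_lit 0x8000000000800088706860a) (nat_lit 0) (p (nat_lit 0x10706860782) (nat_lit 0) (p (nat_lit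 0x686058702) (nat_lit 0) (p (nat_lit 0x10605850482) (nat_lit 0) (p (nat_lit 0x585048402) (nat_lit 0) (p (nat_lit 0x16000c) (nat_lit 0) (p (nat_lit 0x60592) (nat_lit 0) (p (nat_lit 0x48512) (nat_lit 0) (p (nat_lit 0x50392) (nat_lit 0) (p (nat_lit 0x38312) (nat_lit 0) (p (nat_lit 0x40212) (nat_lit 0) (p (nat_lit 0x28192) (nat_lit 0) (p (nat_lit 0x30092) (nat_lit 0) (p (nat_lit 0x18012) (nat_lit 0) pn)))))))))))))))))))))))))) :=
  Cl.node (nat_lit 0x200004) (nat_lit 2) (by decide +kernel) (ClAll.succ (ClAll.succ ClAll.zero s11) s12)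

def n22 : Cl (O (nat_lit 5)) (R (nat_lit 135377))
    (p (nat_lit 0x101) (nat_lit 0) (p (nat_lit 0x81) (nat_lit 1) (p (nat_lit 0xc1) (nat_lit 1) (p (nat_lit 0x119) (nat_lit 1) (p (nat_lit 0xd1) (nat_lit 0) (p (nat_lit 0x89) (nat_lit 0) (p (nat_lit 0x41) (nat_lit 0) (p (nat_lit 0x10b0a09890a9a) (nat_lit 0) (p (nat_lit 0xa8989088a1a) (nat_lit 0) (p (nat_lit 0x10a090888079a) (nat_lit 0) (p (nat_lit 0x9888807871a) (nat_lit 0) (p (nat_lit 0x8000000000800090787088a) (nat_lit 0) (p (nat_lit 0x8000000000800088706860a) (nat_lit 0) (p (nat_lit 0x10706860782) (nat_lit 0) (p (nat_lit 0x686058702) (nat_lit 0) (p (nat_lit 0x10605850482) (nat_lit 0) (p (nat_lit 0x585048402) (nat_lit 0) (p (nat_lit 0x16000c) (nat_lit 0) (p (nat_lit 0x60592) (nat_lit 0) (p (nat_lit 0x48512) (nat_lit 0) (p (nat_lit 0x50392) (nat_lit 0) (p (nat_lit 0x38312) (nat_lit 0) (p (nat_lit 0x40212) (nat_lit 0) (p (nat_lit 0x28192)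 (nat_lit 0) (p (nat_lit 0x30092) (nat_lit 0) (p (nat_lit 0x18012) (nat_lit 0) pn)))))))))))))))))))))))))) :=
  Cl.node (nat_lit 0x109) (nat_lit 2) (by decide +kernel) (ClAll.succ (ClAll.succ ClAll.zero s15) n8)

def n23 : Cl (O (nat_lit 5)) (R (nat_lit 135377))
    (p (nat_lit 0x101) (nat_lit 1) (p (nat_lit 0x81) (nat_lit 1) (p (nat_lit 0xc1) (nat_lit 1) (p (nat_lit 0x119) (nat_lit 1) (p (nat_lit 0xd1) (nat_lit 0) (p (nat_lit 0x89) (nat_lit 0) (p (nat_lit 0x41) (nat_lit 0) (p (nat_lit 0x10b0a09890a9a) (nat_lit 0) (p (nat_lit 0xa8989088a1a) (nat_lit 0) (p (nat_lit 0x10a090888079a) (nat_lit 0) (p (nat_lit 0x9888807871a) (nat_lit 0) (p (nat_lit 0x8000000000800090787088a) (nat_lit 0) (p (nat_lit 0x8000000000800088706860a) (nat_lit 0) (p (nat_lit 0x10706860782) (nat_lit 0) (p (nat_lit 0x686058702) (nat_lit 0) (p (nat_lit 0x10605850482) (nat_lit 0) (p (nat_lit 0x585048402) (nat_lit 0) (p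 (nat_lit 0x16000c) (nat_lit 0) (p (nat_lit 0x60592) (nat_lit 0) (p (nat_lit 0x48512) (nat_lit 0) (p (nat_lit 0x50392) (nat_lit 0) (p (nat_lit 0x38312) (nat_lit 0) (p (nat_lit 0x40212) (nat_lit 0) (p (nat_lit 0x28192) (nat_lit 0) (p (nat_lit 0x30092) (nat_lit 0) (p (nat_lit 0x18012) (nat_lit 0) pn)))))))))))))))))))))))))) :=
  Cl.node (nat_lit 0x200004) (nat_lit 2) (by decide +kernel) (ClAll.succ (ClAll.succ ClAll.zero n9) s24)

def n24 : Cl (O (nat_lit 5)) (R (nat_lit 135377))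
    (p (nat_lit 0xc1) (nat_lit 0) (p (nat_lit 0x81) (nat_lit 1) (p (nat_lit 0x101) (nat_lit 1) (p (nat_lit 0x111) (nat_lit 0) (p (nat_lit 0xd1) (nat_lit 1) (p (nat_lit 0x89) (nat_lit 0) (p (nat_lit 0x41) (nat_lit 0) (p (nat_lit 0x10b0a09890a9a) (nat_lit 0) (p (nat_lit 0xa8989088a1a) (nat_lit 0) (p (nat_lit 0x10a090888079a) (nat_lit 0) (p (nat_lit 0x9888807871a) (nat_lit 0) (p (nat_lit 0x8000000000800090787088a) (nat_lit 0) (p (nat_lit 0x8000000000800088706860a) (nat_lit 0) (p (nat_lit 0x10706860782) (nat_lit 0) (p (nat_lit 0x686058702) (nat_lit 0) (p (nat_lit 0x10605850482) (nat_lit 0) (p (nat_lit 0x585048402) (nat_lit 0) (p (nat_lit 0x16000c) (nat_lit 0) (p (nat_lit 0x60592) (nat_lit 0) (p (nat_lit 0x48512) (nat_lit 0) (p (nat_lit 0x50392) (nat_lit 0) (p (nat_lit 0x38312) (nat_lit 0) (p (nat_lit 0x40212) (nat_lit 0) (p (nat_lit 0x28192) (nat_lit 0) (p (nat_lit 0x30092) (nat_lit 0)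 (p (nat_lit 0x18012) (nat_lit 0) pn)))))))))))))))))))))))))) :=
  Cl.node (nat_lit 0x200004) (nat_lit 2) (by decide +kernel) (ClAll.succ (ClAll.succ ClAll.zero n10) s30)

def n25 : Cl (O (nat_lit 5)) (R (nat_lit 135377))
    (p (nat_lit 0xd1) (nat_lit 0) (p (nat_lit 0x109) (nat_lit 1) (p (nat_lit 0x101) (nat_lit 0) (p (nat_lit 0x119) (nat_lit 0) (p (nat_lit 0xc9) (nat_lit 0) (p (nat_lit 0x89) (nat_lit 1) (p (nat_lit 0x41) (nat_lit 0) (p (nat_lit 0x10b0a09890a9a) (nat_lit 0) (p (nat_lit 0xa8989088a1a) (nat_lit 0) (p (nat_lit 0x10a090888079a) (nat_lit 0) (p (nat_lit 0x9888807871a) (nat_lit 0) (p (nat_lit 0x8000000000800090787088a) (nat_lit 0) (p (nat_lit 0x8000000000800088706860a) (nat_lit 0) (p (nat_lit 0x10706860782) (nat_lit 0) (p (nat_lit 0x686058702) (nat_lit 0) (p (nat_lit 0x10605850482) (nat_lit 0) (p (nat_lit 0x585048402) (nat_lit 0) (p (nat_lit 0x16000c) (nat_lit 0) (p (nat_lit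 0x60592) (nat_lit 0) (p (nat_lit 0x48512) (nat_lit 0) (p (nat_lit 0x50392) (nat_lit 0) (p (nat_lit 0x38312) (nat_lit 0) (p (nat_lit 0x40212) (nat_lit 0) (p (nat_lit 0x28192) (nat_lit 0) (p (nat_lit 0x30092) (nat_lit 0) (p (nat_lit 0x18012) (nat_lit 0) pn)))))))))))))))))))))))))) :=
  Cl.node (nat_lit 0x200004) (nat_lit 2) (by decide +kernel) (ClAll.succ (ClAll.succ ClAll.zero s34) s35)

def n26 : Cl (O (nat_lit 5)) (R (nat_lit 135377))
    (p (nat_lit 0xd1) (nat_lit 0) (p (nat_lit 0xc1) (nat_lit 0) (p (nat_lit 0x101) (nat_lit 1) (p (nat_lit 0x119) (nat_lit 0) (p (nat_lit 0xc9) (nat_lit 0) (p (nat_lit 0x89) (nat_lit 1) (p (nat_lit 0x41) (nat_lit 0) (p (nat_lit 0x10b0a09890a9a) (nat_lit 0) (p (nat_lit 0xa8989088a1a) (nat_lit 0) (p (nat_lit 0x10a090888079a) (nat_lit 0) (p (nat_lit 0x9888807871a) (nat_lit 0) (p (nat_lit 0x8000000000800090787088a) (nat_lit 0) (p (nat_lit 0x8000000000800088706860a)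 (nat_lit 0) (p (nat_lit 0x10706860782) (nat_lit 0) (p (nat_lit 0x686058702) (nat_lit 0) (p (nat_lit 0x10605850482) (nat_lit 0) (p (nat_lit 0x585048402) (nat_lit 0) (p (nat_lit 0x16000c) (nat_lit 0) (p (nat_lit 0x60592) (nat_lit 0) (p (nat_lit 0x48512) (nat_lit 0) (p (nat_lit 0x50392) (nat_lit 0) (p (nat_lit 0x38312) (nat_lit 0) (p (nat_lit 0x40212) (nat_lit 0) (p (nat_lit 0x28192) (nat_lit 0) (p (nat_lit 0x30092) (nat_lit 0) (p (nat_lit 0x18012) (nat_lit 0) pn)))))))))))))))))))))))))) :=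
  Cl.node (nat_lit 0x200004) (nat_lit 2) (by decide +kernel) (ClAll.succ (ClAll.succ ClAll.zero n11) s39)

def n27 : Cl (O (nat_lit 5)) (R (nat_lit 135377))
    (p (nat_lit 0x111) (nat_lit 1) (p (nat_lit 0x101) (nat_lit 0) (p (nat_lit 0xc1) (nat_lit 1) (p (nat_lit 0x119) (nat_lit 1) (p (nat_lit 0xc9) (nat_lit 0) (p (nat_lit 0x89) (nat_lit 1) (p (nat_lit 0x41) (nat_lit 0) (p (nat_lit 0x10b0a09890a9a) (nat_lit 0) (p (nat_lit 0xa8989088a1a) (nat_lit 0) (p (nat_lit 0x10a090888079a) (nat_lit 0) (p (nat_lit 0x9888807871a) (nat_lit 0) (p (nat_lit 0x8000000000800090787088a) (nat_lit 0) (p (nat_lit 0x8000000000800088706860a) (nat_lit 0) (p (nat_lit 0x10706860782) (nat_lit 0) (p (nat_lit 0x686058702) (nat_lit 0) (p (nat_lit 0x10605850482) (nat_lit 0) (p (nat_lit 0x585048402) (nat_lit 0) (p (nat_lit 0x16000c) (nat_lit 0) (p (nat_lit 0x60592) (nat_lit 0) (p (nat_lit 0x48512) (nat_lit 0) (p (nat_lit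 0x50392) (nat_lit 0) (p (nat_lit 0x38312) (nat_lit 0) (p (nat_lit 0x40212) (nat_lit 0) (p (nat_lit 0x28192) (nat_lit 0) (p (nat_lit 0x30092) (nat_lit 0) (p (nat_lit 0x18012) (nat_lit 0) pn)))))))))))))))))))))))))) :=
  Cl.node (nat_lit 0x200004) (nat_lit 2) (by decide +kernel) (ClAll.succ (ClAll.succ ClAll.zero n12) s48)

def n28 : Cl (O (nat_lit 5)) (R (nat_lit 135377))
    (p (nat_lit 0x89) (nat_lit 0) (p (nat_lit 0x109) (nat_lit 1) (p (nat_lit 0x101) (nat_lit 0) (p (nat_lit 0x119) (nat_lit 0) (p (nat_lit 0xd1) (nat_lit 0) (p (nat_lit 0x81) (nat_lit 0) (p (nat_lit 0x41) (nat_lit 1) (p (nat_lit 0x10b0a09890a9a) (nat_lit 0) (p (nat_lit 0xa8989088a1a) (nat_lit 0) (p (nat_lit 0x10a090888079a) (nat_lit 0) (p (nat_lit 0x9888807871a) (nat_lit 0) (p (nat_lit 0x8000000000800090787088a) (nat_lit 0) (p (nat_lit 0x8000000000800088706860a) (nat_lit 0) (p (nat_lit 0x10706860782) (nat_lit 0) (p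 (nat_lit 0x686058702) (nat_lit 0) (p (nat_lit 0x10605850482) (nat_lit 0) (p (nat_lit 0x585048402) (nat_lit 0) (p (nat_lit 0x16000c) (nat_lit 0) (p (nat_lit 0x60592) (nat_lit 0) (p (nat_lit 0x48512) (nat_lit 0) (p (nat_lit 0x50392) (nat_lit 0) (p (nat_lit 0x38312) (nat_lit 0) (p (nat_lit 0x40212) (nat_lit 0) (p (nat_lit 0x28192) (nat_lit 0) (p (nat_lit 0x30092) (nat_lit 0) (p (nat_lit 0x18012) (nat_lit 0) pn)))))))))))))))))))))))))) :=
  Cl.node (nat_lit 0x200004) (nat_lit 2) (by decide +kernel) (ClAll.succ (ClAll.succ ClAll.zero s52) s53)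

def n29 : Cl (O (nat_lit 5)) (R (nat_lit 135377))
    (p (nat_lit 0x89) (nat_lit 1) (p (nat_lit 0x109) (nat_lit 1) (p (nat_lit 0x101) (nat_lit 0) (p (nat_lit 0x119) (nat_lit 0) (p (nat_lit 0xd1) (nat_lit 0) (p (nat_lit 0x81) (nat_lit 0) (p (nat_lit 0x41) (nat_lit 1) (p (nat_lit 0x10b0a09890a9a) (nat_lit 0) (p (nat_lit 0xa8989088a1a) (nat_lit 0) (p (nat_lit 0x10a090888079a) (nat_lit 0) (p (nat_lit 0x9888807871a) (nat_lit 0) (p (nat_lit 0x8000000000800090787088a) (nat_lit 0) (p (nat_lit 0x8000000000800088706860a) (nat_lit 0) (p (nat_lit 0x10706860782) (nat_lit 0) (p (nat_lit 0x686058702) (nat_lit 0) (p (nat_lit 0x10605850482) (nat_lit 0) (p (nat_lit 0x585048402) (nat_lit 0) (p (nat_lit 0x16000c) (nat_lit 0) (p (nat_lit 0x60592) (nat_lit 0) (p (nat_lit 0x48512) (nat_lit 0) (p (nat_lit 0x50392) (nat_lit 0) (p (nat_lit 0x38312) (nat_lit 0) (p (nat_lit 0x40212) (nat_lit 0) (p (nat_lit 0x28192)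 (nat_lit 0) (p (nat_lit 0x30092) (nat_lit 0) (p (nat_lit 0x18012) (nat_lit 0) pn)))))))))))))))))))))))))) :=
  Cl.node (nat_lit 0xc9) (nat_lit 2) (by decide +kernel) (ClAll.succ (ClAll.succ ClAll.zero s54) s55)

def n30 : Cl (O (nat_lit 5)) (R (nat_lit 135377))
    (p (nat_lit 0x89) (nat_lit 1) (p (nat_lit 0xc1) (nat_lit 0) (p (nat_lit 0x101) (nat_lit 1) (p (nat_lit 0x119) (nat_lit 0) (p (nat_lit 0xd1) (nat_lit 0) (p (nat_lit 0x81) (nat_lit 0) (p (nat_lit 0x41) (nat_lit 1) (p (nat_lit 0x10b0a09890a9a) (nat_lit 0) (p (nat_lit 0xa8989088a1a) (nat_lit 0) (p (nat_lit 0x10a090888079a) (nat_lit 0) (p (nat_lit 0x9888807871a) (nat_lit 0) (p (nat_lit 0x8000000000800090787088a) (nat_lit 0) (p (nat_lit 0x8000000000800088706860a) (nat_lit 0) (p (nat_lit 0x10706860782) (nat_lit 0) (p (nat_lit 0x686058702) (nat_lit 0) (p (nat_lit 0x10605850482) (nat_lit 0) (p (nat_lit 0x585048402) (nat_lit 0) (p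 (nat_lit 0x16000c) (nat_lit 0) (p (nat_lit 0x60592) (nat_lit 0) (p (nat_lit 0x48512) (nat_lit 0) (p (nat_lit 0x50392) (nat_lit 0) (p (nat_lit 0x38312) (nat_lit 0) (p (nat_lit 0x40212) (nat_lit 0) (p (nat_lit 0x28192) (nat_lit 0) (p (nat_lit 0x30092) (nat_lit 0) (p (nat_lit 0x18012) (nat_lit 0) pn)))))))))))))))))))))))))) :=
  Cl.node (nat_lit 0xc9) (nat_lit 2) (by decide +kernel) (ClAll.succ (ClAll.succ ClAll.zero s57) s58)

def n31 : Cl (O (nat_lit 5)) (R (nat_lit 135377))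
    (p (nat_lit 0x89) (nat_lit 1) (p (nat_lit 0xc1) (nat_lit 1) (p (nat_lit 0x101) (nat_lit 1) (p (nat_lit 0x119) (nat_lit 0) (p (nat_lit 0xd1) (nat_lit 0) (p (nat_lit 0x81) (nat_lit 0) (p (nat_lit 0x41) (nat_lit 1) (p (nat_lit 0x10b0a09890a9a) (nat_lit 0) (p (nat_lit 0xa8989088a1a) (nat_lit 0) (p (nat_lit 0x10a090888079a) (nat_lit 0) (p (nat_lit 0x9888807871a) (nat_lit 0) (p (nat_lit 0x8000000000800090787088a) (nat_lit 0) (p (nat_lit 0x8000000000800088706860a) (nat_lit 0) (p (nat_lit 0x10706860782) (nat_lit 0) (p (nat_lit 0x686058702) (nat_lit 0) (p (nat_lit 0x10605850482) (nat_lit 0) (p (nat_lit 0x585048402) (nat_lit 0) (p (nat_lit 0x16000c) (nat_lit 0) (p (nat_lit 0x60592) (nat_lit 0) (p (nat_lit 0x48512) (nat_lit 0) (p (nat_lit 0x50392) (nat_lit 0) (p (nat_lit 0x38312) (nat_lit 0) (p (nat_lit 0x40212) (nat_lit 0) (p (nat_lit 0x28192) (nat_lit 0) (p (nat_lit 0x30092) (nat_lit 0)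 (p (nat_lit 0x18012) (nat_lit 0) pn)))))))))))))))))))))))))) :=
  Cl.node (nat_lit 0x200004) (nat_lit 2) (by decide +kernel) (ClAll.succ (ClAll.succ ClAll.zero s60) s61)

def n32 : Cl (O (nat_lit 5)) (R (nat_lit 135377))
    (p (nat_lit 0x89) (nat_lit 1) (p (nat_lit 0xc9) (nat_lit 1) (p (nat_lit 0xc1) (nat_lit 0) (p (nat_lit 0x119) (nat_lit 1) (p (nat_lit 0xd1) (nat_lit 0) (p (nat_lit 0x81) (nat_lit 0) (p (nat_lit 0x41) (nat_lit 1) (p (nat_lit 0x10b0a09890a9a) (nat_lit 0) (p (nat_lit 0xa8989088a1a) (nat_lit 0) (p (nat_lit 0x10a090888079a) (nat_lit 0) (p (nat_lit 0x9888807871a) (nat_lit 0) (p (nat_lit 0x8000000000800090787088a) (nat_lit 0) (p (nat_lit 0x8000000000800088706860a) (nat_lit 0) (p (nat_lit 0x10706860782) (nat_lit 0) (p (nat_lit 0x686058702) (nat_lit 0) (p (nat_lit 0x10605850482) (nat_lit 0) (p (nat_lit 0x585048402) (nat_lit 0) (p (nat_lit 0x16000c) (nat_lit 0) (p (nat_lit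 0x60592) (nat_lit 0) (p (nat_lit 0x48512) (nat_lit 0) (p (nat_lit 0x50392) (nat_lit 0) (p (nat_lit 0x38312) (nat_lit 0) (p (nat_lit 0x40212) (nat_lit 0) (p (nat_lit 0x28192) (nat_lit 0) (p (nat_lit 0x30092) (nat_lit 0) (p (nat_lit 0x18012) (nat_lit 0) pn)))))))))))))))))))))))))) :=
  Cl.node (nat_lit 0x109) (nat_lit 2) (by decide +kernel) (ClAll.succ (ClAll.succ ClAll.zero s64) n13)

def n33 : Cl (O (nat_lit 5)) (R (nat_lit 135377))
    (p (nat_lit 0x89) (nat_lit 1) (p (nat_lit 0x101) (nat_lit 0) (p (nat_lit 0xc1) (nat_lit 1) (p (nat_lit 0x119) (nat_lit 1) (p (nat_lit 0xd1) (nat_lit 0) (p (nat_lit 0x81) (nat_lit 0) (p (nat_lit 0x41) (nat_lit 1) (p (nat_lit 0x10b0a09890a9a) (nat_lit 0) (p (nat_lit 0xa8989088a1a) (nat_lit 0) (p (nat_lit 0x10a090888079a) (nat_lit 0) (p (nat_lit 0x9888807871a) (nat_lit 0) (p (nat_lit 0x8000000000800090787088a) (nat_lit 0) (p (nat_lit 0x8000000000800088706860a)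 (nat_lit 0) (p (nat_lit 0x10706860782) (nat_lit 0) (p (nat_lit 0x686058702) (nat_lit 0) (p (nat_lit 0x10605850482) (nat_lit 0) (p (nat_lit 0x585048402) (nat_lit 0) (p (nat_lit 0x16000c) (nat_lit 0) (p (nat_lit 0x60592) (nat_lit 0) (p (nat_lit 0x48512) (nat_lit 0) (p (nat_lit 0x50392) (nat_lit 0) (p (nat_lit 0x38312) (nat_lit 0) (p (nat_lit 0x40212) (nat_lit 0) (p (nat_lit 0x28192) (nat_lit 0) (p (nat_lit 0x30092) (nat_lit 0) (p (nat_lit 0x18012) (nat_lit 0) pn)))))))))))))))))))))))))) :=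
  Cl.node (nat_lit 0x109) (nat_lit 2) (by decide +kernel) (ClAll.succ (ClAll.succ ClAll.zero n14) n15)

def n34 : Cl (O (nat_lit 5)) (R (nat_lit 135377))
    (p (nat_lit 0x89) (nat_lit 1) (p (nat_lit 0x101) (nat_lit 1) (p (nat_lit 0xc1) (nat_lit 1) (p (nat_lit 0x119) (nat_lit 1) (p (nat_lit 0xd1) (nat_lit 0) (p (nat_lit 0x81) (nat_lit 0) (p (nat_lit 0x41) (nat_lit 1) (p (nat_lit 0x10b0a09890a9a) (nat_lit 0) (p (nat_lit 0xa8989088a1a) (nat_lit 0) (p (nat_lit 0x10a090888079a) (nat_lit 0) (p (nat_lit 0x9888807871a) (nat_lit 0) (p (nat_lit 0x8000000000800090787088a) (nat_lit 0) (p (nat_lit 0x8000000000800088706860a) (nat_lit 0) (p (nat_lit 0x10706860782) (nat_lit 0) (p (nat_lit 0x686058702) (nat_lit 0) (p (nat_lit 0x10605850482) (nat_lit 0) (p (nat_lit 0x585048402) (nat_lit 0) (p (nat_lit 0x16000c) (nat_lit 0) (p (nat_lit 0x60592) (nat_lit 0) (p (nat_lit 0x48512) (nat_lit 0) (p (nat_lit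 0x50392) (nat_lit 0) (p (nat_lit 0x38312) (nat_lit 0) (p (nat_lit 0x40212) (nat_lit 0) (p (nat_lit 0x28192) (nat_lit 0) (p (nat_lit 0x30092) (nat_lit 0) (p (nat_lit 0x18012) (nat_lit 0) pn)))))))))))))))))))))))))) :=
  Cl.node (nat_lit 0x200004) (nat_lit 2) (by decide +kernel) (ClAll.succ (ClAll.succ ClAll.zero n16) s78)

def n35 : Cl (O (nat_lit 5)) (R (nat_lit 135377))
    (p (nat_lit 0x89) (nat_lit 1) (p (nat_lit 0x109) (nat_lit 1) (p (nat_lit 0x101) (nat_lit 0) (p (nat_lit 0x111) (nat_lit 0) (p (nat_lit 0xd1) (nat_lit 1) (p (nat_lit 0x81) (nat_lit 0) (p (nat_lit 0x41) (nat_lit 1) (p (nat_lit 0x10b0a09890a9a) (nat_lit 0) (p (nat_lit 0xa8989088a1a) (nat_lit 0) (p (nat_lit 0x10a090888079a) (nat_lit 0) (p (nat_lit 0x9888807871a) (nat_lit 0) (p (nat_lit 0x8000000000800090787088a) (nat_lit 0) (p (nat_lit 0x8000000000800088706860a) (nat_lit 0) (p (nat_lit 0x10706860782) (nat_lit 0) (p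 (nat_lit 0x686058702) (nat_lit 0) (p (nat_lit 0x10605850482) (nat_lit 0) (p (nat_lit 0x585048402) (nat_lit 0) (p (nat_lit 0x16000c) (nat_lit 0) (p (nat_lit 0x60592) (nat_lit 0) (p (nat_lit 0x48512) (nat_lit 0) (p (nat_lit 0x50392) (nat_lit 0) (p (nat_lit 0x38312) (nat_lit 0) (p (nat_lit 0x40212) (nat_lit 0) (p (nat_lit 0x28192) (nat_lit 0) (p (nat_lit 0x30092) (nat_lit 0) (p (nat_lit 0x18012) (nat_lit 0) pn)))))))))))))))))))))))))) :=
  Cl.node (nat_lit 0xc9) (nat_lit 2) (by decide +kernel) (ClAll.succ (ClAll.succ ClAll.zero n17) s83)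

def n36 : Cl (O (nat_lit 5)) (R (nat_lit 135377))
    (p (nat_lit 0xc9) (nat_lit 0) (p (nat_lit 0x109) (nat_lit 1) (p (nat_lit 0x101) (nat_lit 0) (p (nat_lit 0x119) (nat_lit 0) (p (nat_lit 0xc1) (nat_lit 0) (p (nat_lit 0x81) (nat_lit 1) (p (nat_lit 0x41) (nat_lit 1) (p (nat_lit 0x10b0a09890a9a) (nat_lit 0) (p (nat_lit 0xa8989088a1a) (nat_lit 0) (p (nat_lit 0x10a090888079a) (nat_lit 0) (p (nat_lit 0x9888807871a) (nat_lit 0) (p (nat_lit 0x8000000000800090787088a) (nat_lit 0) (p (nat_lit 0x8000000000800088706860a) (nat_lit 0) (p (nat_lit 0x10706860782) (nat_lit 0) (p (nat_lit 0x686058702) (nat_lit 0) (p (nat_lit 0x10605850482) (nat_lit 0) (p (nat_lit 0x585048402) (nat_lit 0) (p (nat_lit 0x16000c) (nat_lit 0) (p (nat_lit 0x60592) (nat_lit 0) (p (nat_lit 0x48512) (nat_lit 0) (p (nat_lit 0x50392) (nat_lit 0) (p (nat_lit 0x38312) (nat_lit 0) (p (nat_lit 0x40212) (nat_lit 0) (p (nat_lit 0x28192)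 (nat_lit 0) (p (nat_lit 0x30092) (nat_lit 0) (p (nat_lit 0x18012) (nat_lit 0) pn)))))))))))))))))))))))))) :=
  Cl.node (nat_lit 0xd1) (nat_lit 2) (by decide +kernel) (ClAll.succ (ClAll.succ ClAll.zero s91) s92)

def n37 : Cl (O (nat_lit 5)) (R (nat_lit 135377))
    (p (nat_lit 0xd1) (nat_lit 0) (p (nat_lit 0xc9) (nat_lit 0) (p (nat_lit 0x101) (nat_lit 1) (p (nat_lit 0x119) (nat_lit 0) (p (nat_lit 0xc1) (nat_lit 0) (p (nat_lit 0x81) (nat_lit 1) (p (nat_lit 0x41) (nat_lit 1) (p (nat_lit 0x10b0a09890a9a) (nat_lit 0) (p (nat_lit 0xa8989088a1a) (nat_lit 0) (p (nat_lit 0x10a090888079a) (nat_lit 0) (p (nat_lit 0x9888807871a) (nat_lit 0) (p (nat_lit 0x8000000000800090787088a) (nat_lit 0) (p (nat_lit 0x8000000000800088706860a) (nat_lit 0) (p (nat_lit 0x10706860782) (nat_lit 0) (p (nat_lit 0x686058702) (nat_lit 0) (p (nat_lit 0x10605850482) (nat_lit 0) (p (nat_lit 0x585048402) (nat_lit 0) (p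 (nat_lit 0x16000c) (nat_lit 0) (p (nat_lit 0x60592) (nat_lit 0) (p (nat_lit 0x48512) (nat_lit 0) (p (nat_lit 0x50392) (nat_lit 0) (p (nat_lit 0x38312) (nat_lit 0) (p (nat_lit 0x40212) (nat_lit 0) (p (nat_lit 0x28192) (nat_lit 0) (p (nat_lit 0x30092) (nat_lit 0) (p (nat_lit 0x18012) (nat_lit 0) pn)))))))))))))))))))))))))) :=
  Cl.node (nat_lit 0x200004) (nat_lit 2) (by decide +kernel) (ClAll.succ (ClAll.succ ClAll.zero s94) s95)

def n38 : Cl (O (nat_lit 5)) (R (nat_lit 135377))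
    (p (nat_lit 0xd1) (nat_lit 1) (p (nat_lit 0xc9) (nat_lit 0) (p (nat_lit 0x101) (nat_lit 1) (p (nat_lit 0x119) (nat_lit 0) (p (nat_lit 0xc1) (nat_lit 0) (p (nat_lit 0x81) (nat_lit 1) (p (nat_lit 0x41) (nat_lit 1) (p (nat_lit 0x10b0a09890a9a) (nat_lit 0) (p (nat_lit 0xa8989088a1a) (nat_lit 0) (p (nat_lit 0x10a090888079a) (nat_lit 0) (p (nat_lit 0x9888807871a) (nat_lit 0) (p (nat_lit 0x8000000000800090787088a) (nat_lit 0) (p (nat_lit 0x8000000000800088706860a) (nat_lit 0) (p (nat_lit 0x10706860782) (nat_lit 0) (p (nat_lit 0x686058702) (nat_lit 0) (p (nat_lit 0x10605850482) (nat_lit 0) (p (nat_lit 0x585048402) (nat_lit 0) (p (nat_lit 0x16000c) (nat_lit 0) (p (nat_lit 0x60592) (nat_lit 0) (p (nat_lit 0x48512) (nat_lit 0) (p (nat_lit 0x50392) (nat_lit 0) (p (nat_lit 0x38312) (nat_lit 0) (p (nat_lit 0x40212) (nat_lit 0) (p (nat_lit 0x28192) (nat_lit 0) (p (nat_lit 0x30092) (nat_lit 0)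 (p (nat_lit 0x18012) (nat_lit 0) pn)))))))))))))))))))))))))) :=
  Cl.node (nat_lit 0x200004) (nat_lit 2) (by decide +kernel) (ClAll.succ (ClAll.succ ClAll.zero s96) s97)

def n39 : Cl (O (nat_lit 5)) (R (nat_lit 135377))
    (p (nat_lit 0x111) (nat_lit 1) (p (nat_lit 0xd1) (nat_lit 1) (p (nat_lit 0xc9) (nat_lit 0) (p (nat_lit 0x119) (nat_lit 1) (p (nat_lit 0xc1) (nat_lit 0) (p (nat_lit 0x81) (nat_lit 1) (p (nat_lit 0x41) (nat_lit 1) (p (nat_lit 0x10b0a09890a9a) (nat_lit 0) (p (nat_lit 0xa8989088a1a) (nat_lit 0) (p (nat_lit 0x10a090888079a) (nat_lit 0) (p (nat_lit 0x9888807871a) (nat_lit 0) (p (nat_lit 0x8000000000800090787088a) (nat_lit 0) (p (nat_lit 0x8000000000800088706860a) (nat_lit 0) (p (nat_lit 0x10706860782) (nat_lit 0) (p (nat_lit 0x686058702) (nat_lit 0) (p (nat_lit 0x10605850482) (nat_lit 0) (p (nat_lit 0x585048402) (nat_lit 0) (p (nat_lit 0x16000c) (nat_lit 0) (p (nat_lit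 0x60592) (nat_lit 0) (p (nat_lit 0x48512) (nat_lit 0) (p (nat_lit 0x50392) (nat_lit 0) (p (nat_lit 0x38312) (nat_lit 0) (p (nat_lit 0x40212) (nat_lit 0) (p (nat_lit 0x28192) (nat_lit 0) (p (nat_lit 0x30092) (nat_lit 0) (p (nat_lit 0x18012) (nat_lit 0) pn)))))))))))))))))))))))))) :=
  Cl.node (nat_lit 0x200004) (nat_lit 2) (by decide +kernel) (ClAll.succ (ClAll.succ ClAll.zero n18) s103)

def n40 : Cl (O (nat_lit 5)) (R (nat_lit 135377))
    (p (nat_lit 0x111) (nat_lit 1) (p (nat_lit 0x109) (nat_lit 0) (p (nat_lit 0xc9) (nat_lit 1) (p (nat_lit 0x119) (nat_lit 1) (p (nat_lit 0xc1) (nat_lit 0) (p (nat_lit 0x81) (nat_lit 1) (p (nat_lit 0x41) (nat_lit 1) (p (nat_lit 0x10b0a09890a9a) (nat_lit 0) (p (nat_lit 0xa8989088a1a) (nat_lit 0) (p (nat_lit 0x10a090888079a) (nat_lit 0) (p (nat_lit 0x9888807871a) (nat_lit 0) (p (nat_lit 0x8000000000800090787088a) (nat_lit 0) (p (nat_lit 0x8000000000800088706860a)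 (nat_lit 0) (p (nat_lit 0x10706860782) (nat_lit 0) (p (nat_lit 0x686058702) (nat_lit 0) (p (nat_lit 0x10605850482) (nat_lit 0) (p (nat_lit 0x585048402) (nat_lit 0) (p (nat_lit 0x16000c) (nat_lit 0) (p (nat_lit 0x60592) (nat_lit 0) (p (nat_lit 0x48512) (nat_lit 0) (p (nat_lit 0x50392) (nat_lit 0) (p (nat_lit 0x38312) (nat_lit 0) (p (nat_lit 0x40212) (nat_lit 0) (p (nat_lit 0x28192) (nat_lit 0) (p (nat_lit 0x30092) (nat_lit 0) (p (nat_lit 0x18012) (nat_lit 0) pn)))))))))))))))))))))))))) :=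
  Cl.node (nat_lit 0x200004) (nat_lit 2) (by decide +kernel) (ClAll.succ (ClAll.succ ClAll.zero s105) s106)

def n41 : Cl (O (nat_lit 5)) (R (nat_lit 135377))
    (p (nat_lit 0x81) (nat_lit 0) (p (nat_lit 0x101) (nat_lit 1) (p (nat_lit 0x119) (nat_lit 0) (p (nat_lit 0xd1) (nat_lit 0) (p (nat_lit 0x89) (nat_lit 0) (p (nat_lit 0x41) (nat_lit 0) (p (nat_lit 0x10b0a09890a9a) (nat_lit 0) (p (nat_lit 0xa8989088a1a) (nat_lit 0) (p (nat_lit 0x10a090888079a) (nat_lit 0) (p (nat_lit 0x9888807871a) (nat_lit 0) (p (nat_lit 0x8000000000800090787088a) (nat_lit 0) (p (nat_lit 0x8000000000800088706860a) (nat_lit 0) (p (nat_lit 0x10706860782) (nat_lit 0) (p (nat_lit 0x686058702) (nat_lit 0) (p (nat_lit 0x10605850482) (nat_lit 0) (p (nat_lit 0x585048402) (nat_lit 0) (p (nat_lit 0x16000c) (nat_lit 0) (p (nat_lit 0x60592) (nat_lit 0) (p (nat_lit 0x48512) (nat_lit 0) (p (nat_lit 0x50392) (nat_lit 0) (p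 (nat_lit 0x38312) (nat_lit 0) (p (nat_lit 0x40212) (nat_lit 0) (p (nat_lit 0x28192) (nat_lit 0) (p (nat_lit 0x30092) (nat_lit 0) (p (nat_lit 0x18012) (nat_lit 0) pn))))))))))))))))))))))))) :=
  Cl.node (nat_lit 0xc9) (nat_lit 2) (by decide +kernel) (ClAll.succ (ClAll.succ ClAll.zero s2) n19)

def n42 : Cl (O (nat_lit 5)) (R (nat_lit 135377))
    (p (nat_lit 0x81) (nat_lit 1) (p (nat_lit 0x101) (nat_lit 1) (p (nat_lit 0x119) (nat_lit 0) (p (nat_lit 0xd1) (nat_lit 0) (p (nat_lit 0x89) (nat_lit 0) (p (nat_lit 0x41) (nat_lit 0) (p (nat_lit 0x10b0a09890a9a) (nat_lit 0) (p (nat_lit 0xa8989088a1a) (nat_lit 0) (p (nat_lit 0x10a090888079a) (nat_lit 0) (p (nat_lit 0x9888807871a) (nat_lit 0) (p (nat_lit 0x8000000000800090787088a) (nat_lit 0) (p (nat_lit 0x8000000000800088706860a) (nat_lit 0) (p (nat_lit 0x10706860782) (nat_lit 0) (p (nat_lit 0x686058702) (nat_lit 0) (p (nat_lit 0x10605850482)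 (nat_lit 0) (p (nat_lit 0x585048402) (nat_lit 0) (p (nat_lit 0x16000c) (nat_lit 0) (p (nat_lit 0x60592) (nat_lit 0) (p (nat_lit 0x48512) (nat_lit 0) (p (nat_lit 0x50392) (nat_lit 0) (p (nat_lit 0x38312) (nat_lit 0) (p (nat_lit 0x40212) (nat_lit 0) (p (nat_lit 0x28192) (nat_lit 0) (p (nat_lit 0x30092) (nat_lit 0) (p (nat_lit 0x18012) (nat_lit 0) pn))))))))))))))))))))))))) :=
  Cl.node (nat_lit 0xc1) (nat_lit 2) (by decide +kernel) (ClAll.succ (ClAll.succ ClAll.zero n20) s8)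

def n43 : Cl (O (nat_lit 5)) (R (nat_lit 135377))
    (p (nat_lit 0xc9) (nat_lit 1) (p (nat_lit 0xc1) (nat_lit 0) (p (nat_lit 0x119) (nat_lit 1) (p (nat_lit 0xd1) (nat_lit 0) (p (nat_lit 0x89) (nat_lit 0) (p (nat_lit 0x41) (nat_lit 0) (p (nat_lit 0x10b0a09890a9a) (nat_lit 0) (p (nat_lit 0xa8989088a1a) (nat_lit 0) (p (nat_lit 0x10a090888079a) (nat_lit 0) (p (nat_lit 0x9888807871a) (nat_lit 0) (p (nat_lit 0x8000000000800090787088a) (nat_lit 0) (p (nat_lit 0x8000000000800088706860a) (nat_lit 0) (p (nat_lit 0x10706860782) (nat_lit 0) (p (nat_lit 0x686058702) (nat_lit 0) (p (nat_lit 0x10605850482) (nat_lit 0) (p (nat_lit 0x585048402) (nat_lit 0) (p (nat_lit 0x16000c) (nat_lit 0) (p (nat_lit 0x60592) (nat_lit 0) (p (nat_lit 0x48512) (nat_lit 0) (p (nat_lit 0x50392) (nat_lit 0) (p (nat_lit 0x38312) (nat_lit 0) (p (nat_lit 0x40212) (nat_lit 0) (p (nat_lit 0x28192) (nat_lit 0) (p (nat_lit 0x30092)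 (nat_lit 0) (p (nat_lit 0x18012) (nat_lit 0) pn))))))))))))))))))))))))) :=
  Cl.node (nat_lit 0x109) (nat_lit 2) (by decide +kernel) (ClAll.succ (ClAll.succ ClAll.zero s10) n21)

def n44 : Cl (O (nat_lit 5)) (R (nat_lit 135377))
    (p (nat_lit 0x81) (nat_lit 0) (p (nat_lit 0xc1) (nat_lit 1) (p (nat_lit 0x119) (nat_lit 1) (p (nat_lit 0xd1) (nat_lit 0) (p (nat_lit 0x89) (nat_lit 0) (p (nat_lit 0x41) (nat_lit 0) (p (nat_lit 0x10b0a09890a9a) (nat_lit 0) (p (nat_lit 0xa8989088a1a) (nat_lit 0) (p (nat_lit 0x10a090888079a) (nat_lit 0) (p (nat_lit 0x9888807871a) (nat_lit 0) (p (nat_lit 0x8000000000800090787088a) (nat_lit 0) (p (nat_lit 0x8000000000800088706860a) (nat_lit 0) (p (nat_lit 0x10706860782) (nat_lit 0) (p (nat_lit 0x686058702) (nat_lit 0) (p (nat_lit 0x10605850482) (nat_lit 0) (p (nat_lit 0x585048402) (nat_lit 0) (p (nat_lit 0x16000c) (nat_lit 0) (p (nat_lit 0x60592) (nat_lit 0)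 (p (nat_lit 0x48512) (nat_lit 0) (p (nat_lit 0x50392) (nat_lit 0) (p (nat_lit 0x38312) (nat_lit 0) (p (nat_lit 0x40212) (nat_lit 0) (p (nat_lit 0x28192) (nat_lit 0) (p (nat_lit 0x30092) (nat_lit 0) (p (nat_lit 0x18012) (nat_lit 0) pn))))))))))))))))))))))))) :=
  Cl.node (nat_lit 0x109) (nat_lit 2) (by decide +kernel) (ClAll.succ (ClAll.succ ClAll.zero s13) s14)

def n45 : Cl (O (nat_lit 5)) (R (nat_lit 135377))
    (p (nat_lit 0x81) (nat_lit 1) (p (nat_lit 0xc1) (nat_lit 1) (p (nat_lit 0x119) (nat_lit 1) (p (nat_lit 0xd1) (nat_lit 0) (p (nat_lit 0x89) (nat_lit 0) (p (nat_lit 0x41) (nat_lit 0) (p (nat_lit 0x10b0a09890a9a) (nat_lit 0) (p (nat_lit 0xa8989088a1a) (nat_lit 0) (p (nat_lit 0x10a090888079a) (nat_lit 0) (p (nat_lit 0x9888807871a) (nat_lit 0) (p (nat_lit 0x8000000000800090787088a) (nat_lit 0) (p (nat_lit 0x8000000000800088706860a) (nat_lit 0) (p (nat_lit 0x10706860782) (nat_lit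 0) (p (nat_lit 0x686058702) (nat_lit 0) (p (nat_lit 0x10605850482) (nat_lit 0) (p (nat_lit 0x585048402) (nat_lit 0) (p (nat_lit 0x16000c) (nat_lit 0) (p (nat_lit 0x60592) (nat_lit 0) (p (nat_lit 0x48512) (nat_lit 0) (p (nat_lit 0x50392) (nat_lit 0) (p (nat_lit 0x38312) (nat_lit 0) (p (nat_lit 0x40212) (nat_lit 0) (p (nat_lit 0x28192) (nat_lit 0) (p (nat_lit 0x30092) (nat_lit 0) (p (nat_lit 0x18012) (nat_lit 0) pn))))))))))))))))))))))))) :=
  Cl.node (nat_lit 0x101) (nat_lit 2) (by decide +kernel) (ClAll.succ (ClAll.succ ClAll.zero n22) n23)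

def n46 : Cl (O (nat_lit 5)) (R (nat_lit 135377))
    (p (nat_lit 0x81) (nat_lit 1) (p (nat_lit 0x101) (nat_lit 1) (p (nat_lit 0x111) (nat_lit 0) (p (nat_lit 0xd1) (nat_lit 1) (p (nat_lit 0x89) (nat_lit 0) (p (nat_lit 0x41) (nat_lit 0) (p (nat_lit 0x10b0a09890a9a) (nat_lit 0) (p (nat_lit 0xa8989088a1a) (nat_lit 0) (p (nat_lit 0x10a090888079a) (nat_lit 0) (p (nat_lit 0x9888807871a) (nat_lit 0) (p (nat_lit 0x8000000000800090787088a) (nat_lit 0) (p (nat_lit 0x8000000000800088706860a) (nat_lit 0) (p (nat_lit 0x10706860782) (nat_lit 0) (p (nat_lit 0x686058702) (nat_lit 0) (p (nat_lit 0x10605850482) (nat_lit 0) (p (nat_lit 0x585048402) (nat_lit 0) (p (nat_lit 0x16000c) (nat_lit 0) (p (nat_lit 0x60592) (nat_lit 0) (p (nat_lit 0x48512) (nat_lit 0) (p (nat_lit 0x50392) (nat_lit 0) (p (nat_lit 0x38312) (nat_lit 0) (p (nat_lit 0x40212) (nat_lit 0) (p (nat_lit 0x28192) (nat_lit 0) (p (nat_lit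 0x30092) (nat_lit 0) (p (nat_lit 0x18012) (nat_lit 0) pn))))))))))))))))))))))))) :=
  Cl.node (nat_lit 0xc1) (nat_lit 2) (by decide +kernel) (ClAll.succ (ClAll.succ ClAll.zero n24) s31)

def n47 : Cl (O (nat_lit 5)) (R (nat_lit 135377))
    (p (nat_lit 0x109) (nat_lit 1) (p (nat_lit 0x101) (nat_lit 0) (p (nat_lit 0x119) (nat_lit 0) (p (nat_lit 0xc9) (nat_lit 0) (p (nat_lit 0x89) (nat_lit 1) (p (nat_lit 0x41) (nat_lit 0) (p (nat_lit 0x10b0a09890a9a) (nat_lit 0) (p (nat_lit 0xa8989088a1a) (nat_lit 0) (p (nat_lit 0x10a090888079a) (nat_lit 0) (p (nat_lit 0x9888807871a) (nat_lit 0) (p (nat_lit 0x8000000000800090787088a) (nat_lit 0) (p (nat_lit 0x8000000000800088706860a) (nat_lit 0) (p (nat_lit 0x10706860782) (nat_lit 0) (p (nat_lit 0x686058702) (nat_lit 0) (p (nat_lit 0x10605850482) (nat_lit 0) (p (nat_lit 0x585048402) (nat_lit 0) (p (nat_lit 0x16000c) (nat_lit 0) (p (nat_lit 0x60592) (nat_lit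 0) (p (nat_lit 0x48512) (nat_lit 0) (p (nat_lit 0x50392) (nat_lit 0) (p (nat_lit 0x38312) (nat_lit 0) (p (nat_lit 0x40212) (nat_lit 0) (p (nat_lit 0x28192) (nat_lit 0) (p (nat_lit 0x30092) (nat_lit 0) (p (nat_lit 0x18012) (nat_lit 0) pn))))))))))))))))))))))))) :=
  Cl.node (nat_lit 0xd1) (nat_lit 2) (by decide +kernel) (ClAll.succ (ClAll.succ ClAll.zero n25) s36)

def n48 : Cl (O (nat_lit 5)) (R (nat_lit 135377))
    (p (nat_lit 0xc1) (nat_lit 0) (p (nat_lit 0x101) (nat_lit 1) (p (nat_lit 0x119) (nat_lit 0) (p (nat_lit 0xc9) (nat_lit 0) (p (nat_lit 0x89) (nat_lit 1) (p (nat_lit 0x41) (nat_lit 0) (p (nat_lit 0x10b0a09890a9a) (nat_lit 0) (p (nat_lit 0xa8989088a1a) (nat_lit 0) (p (nat_lit 0x10a090888079a) (nat_lit 0) (p (nat_lit 0x9888807871a) (nat_lit 0) (p (nat_lit 0x8000000000800090787088a) (nat_lit 0) (p (nat_lit 0x8000000000800088706860a) (nat_lit 0) (p (nat_lit 0x10706860782) (nat_lit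 0) (p (nat_lit 0x686058702) (nat_lit 0) (p (nat_lit 0x10605850482) (nat_lit 0) (p (nat_lit 0x585048402) (nat_lit 0) (p (nat_lit 0x16000c) (nat_lit 0) (p (nat_lit 0x60592) (nat_lit 0) (p (nat_lit 0x48512) (nat_lit 0) (p (nat_lit 0x50392) (nat_lit 0) (p (nat_lit 0x38312) (nat_lit 0) (p (nat_lit 0x40212) (nat_lit 0) (p (nat_lit 0x28192) (nat_lit 0) (p (nat_lit 0x30092) (nat_lit 0) (p (nat_lit 0x18012) (nat_lit 0) pn))))))))))))))))))))))))) :=
  Cl.node (nat_lit 0xd1) (nat_lit 2) (by decide +kernel) (ClAll.succ (ClAll.succ ClAll.zero n26) s40)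

def n49 : Cl (O (nat_lit 5)) (R (nat_lit 135377))
    (p (nat_lit 0xd1) (nat_lit 1) (p (nat_lit 0xc1) (nat_lit 0) (p (nat_lit 0x119) (nat_lit 1) (p (nat_lit 0xc9) (nat_lit 0) (p (nat_lit 0x89) (nat_lit 1) (p (nat_lit 0x41) (nat_lit 0) (p (nat_lit 0x10b0a09890a9a) (nat_lit 0) (p (nat_lit 0xa8989088a1a) (nat_lit 0) (p (nat_lit 0x10a090888079a) (nat_lit 0) (p (nat_lit 0x9888807871a) (nat_lit 0) (p (nat_lit 0x8000000000800090787088a) (nat_lit 0) (p (nat_lit 0x8000000000800088706860a) (nat_lit 0) (p (nat_lit 0x10706860782) (nat_lit 0) (p (nat_lit 0x686058702) (nat_lit 0) (p (nat_lit 0x10605850482) (nat_lit 0) (p (nat_lit 0x585048402) (nat_lit 0) (p (nat_lit 0x16000c) (nat_lit 0) (p (nat_lit 0x60592) (nat_lit 0) (p (nat_lit 0x48512) (nat_lit 0) (p (nat_lit 0x50392) (nat_lit 0) (p (nat_lit 0x38312) (nat_lit 0) (p (nat_lit 0x40212) (nat_lit 0) (p (nat_lit 0x28192) (nat_lit 0) (p (nat_lit 0x30092)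 (nat_lit 0) (p (nat_lit 0x18012) (nat_lit 0) pn))))))))))))))))))))))))) :=
  Cl.node (nat_lit 0x111) (nat_lit 2) (by decide +kernel) (ClAll.succ (ClAll.succ ClAll.zero s43) s44)

def n50 : Cl (O (nat_lit 5)) (R (nat_lit 135377))
    (p (nat_lit 0x101) (nat_lit 0) (p (nat_lit 0xc1) (nat_lit 1) (p (nat_lit 0x119) (nat_lit 1) (p (nat_lit 0xc9) (nat_lit 0) (p (nat_lit 0x89) (nat_lit 1) (p (nat_lit 0x41) (nat_lit 0) (p (nat_lit 0x10b0a09890a9a) (nat_lit 0) (p (nat_lit 0xa8989088a1a) (nat_lit 0) (p (nat_lit 0x10a090888079a) (nat_lit 0) (p (nat_lit 0x9888807871a) (nat_lit 0) (p (nat_lit 0x8000000000800090787088a) (nat_lit 0) (p (nat_lit 0x8000000000800088706860a) (nat_lit 0) (p (nat_lit 0x10706860782) (nat_lit 0) (p (nat_lit 0x686058702) (nat_lit 0) (p (nat_lit 0x10605850482) (nat_lit 0) (p (nat_lit 0x585048402) (nat_lit 0) (p (nat_lit 0x16000c) (nat_lit 0) (p (nat_lit 0x60592) (nat_lit 0)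 (p (nat_lit 0x48512) (nat_lit 0) (p (nat_lit 0x50392) (nat_lit 0) (p (nat_lit 0x38312) (nat_lit 0) (p (nat_lit 0x40212) (nat_lit 0) (p (nat_lit 0x28192) (nat_lit 0) (p (nat_lit 0x30092) (nat_lit 0) (p (nat_lit 0x18012) (nat_lit 0) pn))))))))))))))))))))))))) :=
  Cl.node (nat_lit 0x111) (nat_lit 2) (by decide +kernel) (ClAll.succ (ClAll.succ ClAll.zero s45) n27)

def n51 : Cl (O (nat_lit 5)) (R (nat_lit 135377))
    (p (nat_lit 0x109) (nat_lit 1) (p (nat_lit 0x101) (nat_lit 0) (p (nat_lit 0x119) (nat_lit 0) (p (nat_lit 0xd1) (nat_lit 0) (p (nat_lit 0x81) (nat_lit 0) (p (nat_lit 0x41) (nat_lit 1) (p (nat_lit 0x10b0a09890a9a) (nat_lit 0) (p (nat_lit 0xa8989088a1a) (nat_lit 0) (p (nat_lit 0x10a090888079a) (nat_lit 0) (p (nat_lit 0x9888807871a) (nat_lit 0) (p (nat_lit 0x8000000000800090787088a) (nat_lit 0) (p (nat_lit 0x8000000000800088706860a) (nat_lit 0) (p (nat_lit 0x10706860782) (nat_lit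 0) (p (nat_lit 0x686058702) (nat_lit 0) (p (nat_lit 0x10605850482) (nat_lit 0) (p (nat_lit 0x585048402) (nat_lit 0) (p (nat_lit 0x16000c) (nat_lit 0) (p (nat_lit 0x60592) (nat_lit 0) (p (nat_lit 0x48512) (nat_lit 0) (p (nat_lit 0x50392) (nat_lit 0) (p (nat_lit 0x38312) (nat_lit 0) (p (nat_lit 0x40212) (nat_lit 0) (p (nat_lit 0x28192) (nat_lit 0) (p (nat_lit 0x30092) (nat_lit 0) (p (nat_lit 0x18012) (nat_lit 0) pn))))))))))))))))))))))))) :=
  Cl.node (nat_lit 0x89) (nat_lit 2) (by decide +kernel) (ClAll.succ (ClAll.succ ClAll.zero n28) n29)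

def n52 : Cl (O (nat_lit 5)) (R (nat_lit 135377))
    (p (nat_lit 0xc1) (nat_lit 0) (p (nat_lit 0x101) (nat_lit 1) (p (nat_lit 0x119) (nat_lit 0) (p (nat_lit 0xd1) (nat_lit 0) (p (nat_lit 0x81) (nat_lit 0) (p (nat_lit 0x41) (nat_lit 1) (p (nat_lit 0x10b0a09890a9a) (nat_lit 0) (p (nat_lit 0xa8989088a1a) (nat_lit 0) (p (nat_lit 0x10a090888079a) (nat_lit 0) (p (nat_lit 0x9888807871a) (nat_lit 0) (p (nat_lit 0x8000000000800090787088a) (nat_lit 0) (p (nat_lit 0x8000000000800088706860a) (nat_lit 0) (p (nat_lit 0x10706860782) (nat_lit 0) (p (nat_lit 0x686058702) (nat_lit 0) (p (nat_lit 0x10605850482) (nat_lit 0) (p (nat_lit 0x585048402) (nat_lit 0) (p (nat_lit 0x16000c) (nat_lit 0) (p (nat_lit 0x60592) (nat_lit 0) (p (nat_lit 0x48512) (nat_lit 0) (p (nat_lit 0x50392) (nat_lit 0) (p (nat_lit 0x38312) (nat_lit 0) (p (nat_lit 0x40212) (nat_lit 0) (p (nat_lit 0x28192) (nat_lit 0) (p (nat_lit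 0x30092) (nat_lit 0) (p (nat_lit 0x18012) (nat_lit 0) pn))))))))))))))))))))))))) :=
  Cl.node (nat_lit 0x89) (nat_lit 2) (by decide +kernel) (ClAll.succ (ClAll.succ ClAll.zero s56) n30)

def n53 : Cl (O (nat_lit 5)) (R (nat_lit 135377))
    (p (nat_lit 0xc1) (nat_lit 1) (p (nat_lit 0x101) (nat_lit 1) (p (nat_lit 0x119) (nat_lit 0) (p (nat_lit 0xd1) (nat_lit 0) (p (nat_lit 0x81) (nat_lit 0) (p (nat_lit 0x41) (nat_lit 1) (p (nat_lit 0x10b0a09890a9a) (nat_lit 0) (p (nat_lit 0xa8989088a1a) (nat_lit 0) (p (nat_lit 0x10a090888079a) (nat_lit 0) (p (nat_lit 0x9888807871a) (nat_lit 0) (p (nat_lit 0x8000000000800090787088a) (nat_lit 0) (p (nat_lit 0x8000000000800088706860a) (nat_lit 0) (p (nat_lit 0x10706860782) (nat_lit 0) (p (nat_lit 0x686058702) (nat_lit 0) (p (nat_lit 0x10605850482) (nat_lit 0) (p (nat_lit 0x585048402) (nat_lit 0) (p (nat_lit 0x16000c) (nat_lit 0) (p (nat_lit 0x60592) (nat_lit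 0) (p (nat_lit 0x48512) (nat_lit 0) (p (nat_lit 0x50392) (nat_lit 0) (p (nat_lit 0x38312) (nat_lit 0) (p (nat_lit 0x40212) (nat_lit 0) (p (nat_lit 0x28192) (nat_lit 0) (p (nat_lit 0x30092) (nat_lit 0) (p (nat_lit 0x18012) (nat_lit 0) pn))))))))))))))))))))))))) :=
  Cl.node (nat_lit 0x89) (nat_lit 2) (by decide +kernel) (ClAll.succ (ClAll.succ ClAll.zero s59) n31)

def n54 : Cl (O (nat_lit 5)) (R (nat_lit 135377))
    (p (nat_lit 0xc9) (nat_lit 1) (p (nat_lit 0xc1) (nat_lit 0) (p (nat_lit 0x119) (nat_lit 1) (p (nat_lit 0xd1) (nat_lit 0) (p (nat_lit 0x81) (nat_lit 0) (p (nat_lit 0x41) (nat_lit 1) (p (nat_lit 0x10b0a09890a9a) (nat_lit 0) (p (nat_lit 0xa8989088a1a) (nat_lit 0) (p (nat_lit 0x10a090888079a) (nat_lit 0) (p (nat_lit 0x9888807871a) (nat_lit 0) (p (nat_lit 0x8000000000800090787088a) (nat_lit 0) (p (nat_lit 0x8000000000800088706860a) (nat_lit 0) (p (nat_lit 0x10706860782) (nat_lit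 0) (p (nat_lit 0x686058702) (nat_lit 0) (p (nat_lit 0x10605850482) (nat_lit 0) (p (nat_lit 0x585048402) (nat_lit 0) (p (nat_lit 0x16000c) (nat_lit 0) (p (nat_lit 0x60592) (nat_lit 0) (p (nat_lit 0x48512) (nat_lit 0) (p (nat_lit 0x50392) (nat_lit 0) (p (nat_lit 0x38312) (nat_lit 0) (p (nat_lit 0x40212) (nat_lit 0) (p (nat_lit 0x28192) (nat_lit 0) (p (nat_lit 0x30092) (nat_lit 0) (p (nat_lit 0x18012) (nat_lit 0) pn))))))))))))))))))))))))) :=
  Cl.node (nat_lit 0x89) (nat_lit 2) (by decide +kernel) (ClAll.succ (ClAll.succ ClAll.zero s63) n32)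

def n55 : Cl (O (nat_lit 5)) (R (nat_lit 135377))
    (p (nat_lit 0x101) (nat_lit 0) (p (nat_lit 0xc1) (nat_lit 1) (p (nat_lit 0x119) (nat_lit 1) (p (nat_lit 0xd1) (nat_lit 0) (p (nat_lit 0x81) (nat_lit 0) (p (nat_lit 0x41) (nat_lit 1) (p (nat_lit 0x10b0a09890a9a) (nat_lit 0) (p (nat_lit 0xa8989088a1a) (nat_lit 0) (p (nat_lit 0x10a090888079a) (nat_lit 0) (p (nat_lit 0x9888807871a) (nat_lit 0) (p (nat_lit 0x8000000000800090787088a) (nat_lit 0) (p (nat_lit 0x8000000000800088706860a) (nat_lit 0) (p (nat_lit 0x10706860782) (nat_lit 0) (p (nat_lit 0x686058702) (nat_lit 0) (p (nat_lit 0x10605850482) (nat_lit 0) (p (nat_lit 0x585048402) (nat_lit 0) (p (nat_lit 0x16000c) (nat_lit 0) (p (nat_lit 0x60592) (nat_lit 0) (p (nat_lit 0x48512) (nat_lit 0) (p (nat_lit 0x50392) (nat_lit 0) (p (nat_lit 0x38312) (nat_lit 0) (p (nat_lit 0x40212) (nat_lit 0) (p (nat_lit 0x28192) (nat_lit 0) (p (nat_lit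 0x30092) (nat_lit 0) (p (nat_lit 0x18012) (nat_lit 0) pn))))))))))))))))))))))))) :=
  Cl.node (nat_lit 0x89) (nat_lit 2) (by decide +kernel) (ClAll.succ (ClAll.succ ClAll.zero s68) n33)

def n56 : Cl (O (nat_lit 5)) (R (nat_lit 135377))
    (p (nat_lit 0x101) (nat_lit 1) (p (nat_lit 0xc1) (nat_lit 1) (p (nat_lit 0x119) (nat_lit 1) (p (nat_lit 0xd1) (nat_lit 0) (p (nat_lit 0x81) (nat_lit 0) (p (nat_lit 0x41) (nat_lit 1) (p (nat_lit 0x10b0a09890a9a) (nat_lit 0) (p (nat_lit 0xa8989088a1a) (nat_lit 0) (p (nat_lit 0x10a090888079a) (nat_lit 0) (p (nat_lit 0x9888807871a) (nat_lit 0) (p (nat_lit 0x8000000000800090787088a) (nat_lit 0) (p (nat_lit 0x8000000000800088706860a) (nat_lit 0) (p (nat_lit 0x10706860782) (nat_lit 0) (p (nat_lit 0x686058702) (nat_lit 0) (p (nat_lit 0x10605850482) (nat_lit 0) (p (nat_lit 0x585048402) (nat_lit 0) (p (nat_lit 0x16000c) (nat_lit 0) (p (nat_lit 0x60592) (nat_lit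 0) (p (nat_lit 0x48512) (nat_lit 0) (p (nat_lit 0x50392) (nat_lit 0) (p (nat_lit 0x38312) (nat_lit 0) (p (nat_lit 0x40212) (nat_lit 0) (p (nat_lit 0x28192) (nat_lit 0) (p (nat_lit 0x30092) (nat_lit 0) (p (nat_lit 0x18012) (nat_lit 0) pn))))))))))))))))))))))))) :=
  Cl.node (nat_lit 0x89) (nat_lit 2) (by decide +kernel) (ClAll.succ (ClAll.succ ClAll.zero s73) n34)

def n57 : Cl (O (nat_lit 5)) (R (nat_lit 135377))
    (p (nat_lit 0x109) (nat_lit 1) (p (nat_lit 0x101) (nat_lit 0) (p (nat_lit 0x111) (nat_lit 0) (p (nat_lit 0xd1) (nat_lit 1) (p (nat_lit 0x81) (nat_lit 0) (p (nat_lit 0x41) (nat_lit 1) (p (nat_lit 0x10b0a09890a9a) (nat_lit 0) (p (nat_lit 0xa8989088a1a) (nat_lit 0) (p (nat_lit 0x10a090888079a) (nat_lit 0) (p (nat_lit 0x9888807871a) (nat_lit 0) (p (nat_lit 0x8000000000800090787088a) (nat_lit 0) (p (nat_lit 0x8000000000800088706860a) (nat_lit 0) (p (nat_lit 0x10706860782) (nat_lit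 0) (p (nat_lit 0x686058702) (nat_lit 0) (p (nat_lit 0x10605850482) (nat_lit 0) (p (nat_lit 0x585048402) (nat_lit 0) (p (nat_lit 0x16000c) (nat_lit 0) (p (nat_lit 0x60592) (nat_lit 0) (p (nat_lit 0x48512) (nat_lit 0) (p (nat_lit 0x50392) (nat_lit 0) (p (nat_lit 0x38312) (nat_lit 0) (p (nat_lit 0x40212) (nat_lit 0) (p (nat_lit 0x28192) (nat_lit 0) (p (nat_lit 0x30092) (nat_lit 0) (p (nat_lit 0x18012) (nat_lit 0) pn))))))))))))))))))))))))) :=
  Cl.node (nat_lit 0x89) (nat_lit 2) (by decide +kernel) (ClAll.succ (ClAll.succ ClAll.zero s80) n35)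

def n58 : Cl (O (nat_lit 5)) (R (nat_lit 135377))
    (p (nat_lit 0x89) (nat_lit 1) (p (nat_lit 0x101) (nat_lit 1) (p (nat_lit 0x111) (nat_lit 0) (p (nat_lit 0xd1) (nat_lit 1) (p (nat_lit 0x81) (nat_lit 0) (p (nat_lit 0x41) (nat_lit 1) (p (nat_lit 0x10b0a09890a9a) (nat_lit 0) (p (nat_lit 0xa8989088a1a) (nat_lit 0) (p (nat_lit 0x10a090888079a) (nat_lit 0) (p (nat_lit 0x9888807871a) (nat_lit 0) (p (nat_lit 0x8000000000800090787088a) (nat_lit 0) (p (nat_lit 0x8000000000800088706860a) (nat_lit 0) (p (nat_lit 0x10706860782) (nat_lit 0) (p (nat_lit 0x686058702) (nat_lit 0) (p (nat_lit 0x10605850482) (nat_lit 0) (p (nat_lit 0x585048402) (nat_lit 0) (p (nat_lit 0x16000c) (nat_lit 0) (p (nat_lit 0x60592) (nat_lit 0) (p (nat_lit 0x48512) (nat_lit 0) (p (nat_lit 0x50392) (nat_lit 0) (p (nat_lit 0x38312) (nat_lit 0) (p (nat_lit 0x40212) (nat_lit 0) (p (nat_lit 0x28192) (nat_lit 0) (p (nat_lit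 0x30092) (nat_lit 0) (p (nat_lit 0x18012) (nat_lit 0) pn))))))))))))))))))))))))) :=
  Cl.node (nat_lit 0xc9) (nat_lit 2) (by decide +kernel) (ClAll.succ (ClAll.succ ClAll.zero s85) s86)

def n59 : Cl (O (nat_lit 5)) (R (nat_lit 135377))
    (p (nat_lit 0x109) (nat_lit 1) (p (nat_lit 0x101) (nat_lit 0) (p (nat_lit 0x119) (nat_lit 0) (p (nat_lit 0xc1) (nat_lit 0) (p (nat_lit 0x81) (nat_lit 1) (p (nat_lit 0x41) (nat_lit 1) (p (nat_lit 0x10b0a09890a9a) (nat_lit 0) (p (nat_lit 0xa8989088a1a) (nat_lit 0) (p (nat_lit 0x10a090888079a) (nat_lit 0) (p (nat_lit 0x9888807871a) (nat_lit 0) (p (nat_lit 0x8000000000800090787088a) (nat_lit 0) (p (nat_lit 0x8000000000800088706860a) (nat_lit 0) (p (nat_lit 0x10706860782) (nat_lit 0) (p (nat_lit 0x686058702) (nat_lit 0) (p (nat_lit 0x10605850482) (nat_lit 0) (p (nat_lit 0x585048402) (nat_lit 0) (p (nat_lit 0x16000c) (nat_lit 0) (p (nat_lit 0x60592) (nat_lit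 0) (p (nat_lit 0x48512) (nat_lit 0) (p (nat_lit 0x50392) (nat_lit 0) (p (nat_lit 0x38312) (nat_lit 0) (p (nat_lit 0x40212) (nat_lit 0) (p (nat_lit 0x28192) (nat_lit 0) (p (nat_lit 0x30092) (nat_lit 0) (p (nat_lit 0x18012) (nat_lit 0) pn))))))))))))))))))))))))) :=
  Cl.node (nat_lit 0xc9) (nat_lit 2) (by decide +kernel) (ClAll.succ (ClAll.succ ClAll.zero n36) s93)

def n60 : Cl (O (nat_lit 5)) (R (nat_lit 135377))
    (p (nat_lit 0xc9) (nat_lit 0) (p (nat_lit 0x101) (nat_lit 1) (p (nat_lit 0x119) (nat_lit 0) (p (nat_lit 0xc1) (nat_lit 0) (p (nat_lit 0x81) (nat_lit 1) (p (nat_lit 0x41) (nat_lit 1) (p (nat_lit 0x10b0a09890a9a) (nat_lit 0) (p (nat_lit 0xa8989088a1a) (nat_lit 0) (p (nat_lit 0x10a090888079a) (nat_lit 0) (p (nat_lit 0x9888807871a) (nat_lit 0) (p (nat_lit 0x8000000000800090787088a) (nat_lit 0) (p (nat_lit 0x8000000000800088706860a) (nat_lit 0) (p (nat_lit 0x10706860782) (nat_lit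 0) (p (nat_lit 0x686058702) (nat_lit 0) (p (nat_lit 0x10605850482) (nat_lit 0) (p (nat_lit 0x585048402) (nat_lit 0) (p (nat_lit 0x16000c) (nat_lit 0) (p (nat_lit 0x60592) (nat_lit 0) (p (nat_lit 0x48512) (nat_lit 0) (p (nat_lit 0x50392) (nat_lit 0) (p (nat_lit 0x38312) (nat_lit 0) (p (nat_lit 0x40212) (nat_lit 0) (p (nat_lit 0x28192) (nat_lit 0) (p (nat_lit 0x30092) (nat_lit 0) (p (nat_lit 0x18012) (nat_lit 0) pn))))))))))))))))))))))))) :=
  Cl.node (nat_lit 0xd1) (nat_lit 2) (by decide +kernel) (ClAll.succ (ClAll.succ ClAll.zero n37) n38)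

def n61 : Cl (O (nat_lit 5)) (R (nat_lit 135377))
    (p (nat_lit 0xd1) (nat_lit 1) (p (nat_lit 0xc9) (nat_lit 0) (p (nat_lit 0x119) (nat_lit 1) (p (nat_lit 0xc1) (nat_lit 0) (p (nat_lit 0x81) (nat_lit 1) (p (nat_lit 0x41) (nat_lit 1) (p (nat_lit 0x10b0a09890a9a) (nat_lit 0) (p (nat_lit 0xa8989088a1a) (nat_lit 0) (p (nat_lit 0x10a090888079a) (nat_lit 0) (p (nat_lit 0x9888807871a) (nat_lit 0) (p (nat_lit 0x8000000000800090787088a) (nat_lit 0) (p (nat_lit 0x8000000000800088706860a) (nat_lit 0) (p (nat_lit 0x10706860782) (nat_lit 0) (p (nat_lit 0x686058702) (nat_lit 0) (p (nat_lit 0x10605850482) (nat_lit 0) (p (nat_lit 0x585048402) (nat_lit 0) (p (nat_lit 0x16000c) (nat_lit 0) (p (nat_lit 0x60592) (nat_lit 0) (p (nat_lit 0x48512) (nat_lit 0) (p (nat_lit 0x50392) (nat_lit 0) (p (nat_lit 0x38312) (nat_lit 0) (p (nat_lit 0x40212) (nat_lit 0) (p (nat_lit 0x28192) (nat_lit 0) (p (nat_lit 0x30092)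 (nat_lit 0) (p (nat_lit 0x18012) (nat_lit 0) pn))))))))))))))))))))))))) :=
  Cl.node (nat_lit 0x111) (nat_lit 2) (by decide +kernel) (ClAll.succ (ClAll.succ ClAll.zero s100) n39)

def n62 : Cl (O (nat_lit 5)) (R (nat_lit 135377))
    (p (nat_lit 0x109) (nat_lit 0) (p (nat_lit 0xc9) (nat_lit 1) (p (nat_lit 0x119) (nat_lit 1) (p (nat_lit 0xc1) (nat_lit 0) (p (nat_lit 0x81) (nat_lit 1) (p (nat_lit 0x41) (nat_lit 1) (p (nat_lit 0x10b0a09890a9a) (nat_lit 0) (p (nat_lit 0xa8989088a1a) (nat_lit 0) (p (nat_lit 0x10a090888079a) (nat_lit 0) (p (nat_lit 0x9888807871a) (nat_lit 0) (p (nat_lit 0x8000000000800090787088a) (nat_lit 0) (p (nat_lit 0x8000000000800088706860a) (nat_lit 0) (p (nat_lit 0x10706860782) (nat_lit 0) (p (nat_lit 0x686058702) (nat_lit 0) (p (nat_lit 0x10605850482) (nat_lit 0) (p (nat_lit 0x585048402) (nat_lit 0) (p (nat_lit 0x16000c) (nat_lit 0) (p (nat_lit 0x60592) (nat_lit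 0) (p (nat_lit 0x48512) (nat_lit 0) (p (nat_lit 0x50392) (nat_lit 0) (p (nat_lit 0x38312) (nat_lit 0) (p (nat_lit 0x40212) (nat_lit 0) (p (nat_lit 0x28192) (nat_lit 0) (p (nat_lit 0x30092) (nat_lit 0) (p (nat_lit 0x18012) (nat_lit 0) pn))))))))))))))))))))))))) :=
  Cl.node (nat_lit 0x111) (nat_lit 2) (by decide +kernel) (ClAll.succ (ClAll.succ ClAll.zero s104) n40)

def n63 : Cl (O (nat_lit 5)) (R (nat_lit 135377))
    (p (nat_lit 0x109) (nat_lit 1) (p (nat_lit 0xc9) (nat_lit 1) (p (nat_lit 0x119) (nat_lit 1) (p (nat_lit 0xc1) (nat_lit 0) (p (nat_lit 0x81) (nat_lit 1) (p (nat_lit 0x41) (nat_lit 1) (p (nat_lit 0x10b0a09890a9a) (nat_lit 0) (p (nat_lit 0xa8989088a1a) (nat_lit 0) (p (nat_lit 0x10a090888079a) (nat_lit 0) (p (nat_lit 0x9888807871a) (nat_lit 0) (p (nat_lit 0x8000000000800090787088a) (nat_lit 0) (p (nat_lit 0x8000000000800088706860a) (nat_lit 0) (p (nat_lit 0x10706860782)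 (nat_lit 0) (p (nat_lit 0x686058702) (nat_lit 0) (p (nat_lit 0x10605850482) (nat_lit 0) (p (nat_lit 0x585048402) (nat_lit 0) (p (nat_lit 0x16000c) (nat_lit 0) (p (nat_lit 0x60592) (nat_lit 0) (p (nat_lit 0x48512) (nat_lit 0) (p (nat_lit 0x50392) (nat_lit 0) (p (nat_lit 0x38312) (nat_lit 0) (p (nat_lit 0x40212) (nat_lit 0) (p (nat_lit 0x28192) (nat_lit 0) (p (nat_lit 0x30092) (nat_lit 0) (p (nat_lit 0x18012) (nat_lit 0) pn))))))))))))))))))))))))) :=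
  Cl.node (nat_lit 0x200004) (nat_lit 2) (by decide +kernel) (ClAll.succ (ClAll.succ ClAll.zero s107) s108)

def n64 : Cl (O (nat_lit 5)) (R (nat_lit 135377))
    (p (nat_lit 0x101) (nat_lit 0) (p (nat_lit 0x119) (nat_lit 0) (p (nat_lit 0xd1) (nat_lit 0) (p (nat_lit 0x89) (nat_lit 0) (p (nat_lit 0x41) (nat_lit 0) (p (nat_lit 0x10b0a09890a9a) (nat_lit 0) (p (nat_lit 0xa8989088a1a) (nat_lit 0) (p (nat_lit 0x10a090888079a) (nat_lit 0) (p (nat_lit 0x9888807871a) (nat_lit 0) (p (nat_lit 0x8000000000800090787088a) (nat_lit 0) (p (nat_lit 0x8000000000800088706860a) (nat_lit 0) (p (nat_lit 0x10706860782) (nat_lit 0) (p (nat_lit 0x686058702) (nat_lit 0) (p (nat_lit 0x10605850482) (nat_lit 0) (p (nat_lit 0x585048402) (nat_lit 0) (p (nat_lit 0x16000c) (nat_lit 0) (p (nat_lit 0x60592) (nat_lit 0) (p (nat_lit 0x48512) (nat_lit 0) (p (nat_lit 0x50392) (nat_lit 0) (p (nat_lit 0x38312) (nat_lit 0)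 (p (nat_lit 0x40212) (nat_lit 0) (p (nat_lit 0x28192) (nat_lit 0) (p (nat_lit 0x30092) (nat_lit 0) (p (nat_lit 0x18012) (nat_lit 0) pn)))))))))))))))))))))))) :=
  Cl.node (nat_lit 0x109) (nat_lit 2) (by decide +kernel) (ClAll.succ (ClAll.succ ClAll.zero s0) s1)

def n65 : Cl (O (nat_lit 5)) (R (nat_lit 135377))
    (p (nat_lit 0x101) (nat_lit 1) (p (nat_lit 0x119) (nat_lit 0) (p (nat_lit 0xd1) (nat_lit 0) (p (nat_lit 0x89) (nat_lit 0) (p (nat_lit 0x41) (nat_lit 0) (p (nat_lit 0x10b0a09890a9a) (nat_lit 0) (p (nat_lit 0xa8989088a1a) (nat_lit 0) (p (nat_lit 0x10a090888079a) (nat_lit 0) (p (nat_lit 0x9888807871a) (nat_lit 0) (p (nat_lit 0x8000000000800090787088a) (nat_lit 0) (p (nat_lit 0x8000000000800088706860a) (nat_lit 0) (p (nat_lit 0x10706860782) (nat_lit 0) (p (nat_lit 0x686058702) (nat_lit 0) (p (nat_lit 0x10605850482) (nat_lit 0) (p (nat_lit 0x585048402) (nat_lit 0) (p (nat_lit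 0x16000c) (nat_lit 0) (p (nat_lit 0x60592) (nat_lit 0) (p (nat_lit 0x48512) (nat_lit 0) (p (nat_lit 0x50392) (nat_lit 0) (p (nat_lit 0x38312) (nat_lit 0) (p (nat_lit 0x40212) (nat_lit 0) (p (nat_lit 0x28192) (nat_lit 0) (p (nat_lit 0x30092) (nat_lit 0) (p (nat_lit 0x18012) (nat_lit 0) pn)))))))))))))))))))))))) :=
  Cl.node (nat_lit 0x81) (nat_lit 2) (by decide +kernel) (ClAll.succ (ClAll.succ ClAll.zero n41) n42)

def n66 : Cl (O (nat_lit 5)) (R (nat_lit 135377))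
    (p (nat_lit 0xc1) (nat_lit 0) (p (nat_lit 0x119) (nat_lit 1) (p (nat_lit 0xd1) (nat_lit 0) (p (nat_lit 0x89) (nat_lit 0) (p (nat_lit 0x41) (nat_lit 0) (p (nat_lit 0x10b0a09890a9a) (nat_lit 0) (p (nat_lit 0xa8989088a1a) (nat_lit 0) (p (nat_lit 0x10a090888079a) (nat_lit 0) (p (nat_lit 0x9888807871a) (nat_lit 0) (p (nat_lit 0x8000000000800090787088a) (nat_lit 0) (p (nat_lit 0x8000000000800088706860a) (nat_lit 0) (p (nat_lit 0x10706860782) (nat_lit 0) (p (nat_lit 0x686058702) (nat_lit 0) (p (nat_lit 0x10605850482) (nat_lit 0) (p (nat_lit 0x585048402) (nat_lit 0) (p (nat_lit 0x16000c) (nat_lit 0) (p (nat_lit 0x60592) (nat_lit 0) (p (nat_lit 0x48512) (nat_lit 0) (p (nat_lit 0x50392) (nat_lit 0) (p (nat_lit 0x38312) (nat_lit 0) (p (nat_lit 0x40212) (nat_lit 0) (p (nat_lit 0x28192) (nat_lit 0) (p (nat_lit 0x30092) (nat_lit 0) (p (nat_lit 0x18012) (nat_lit 0) pn)))))))))))))))))))))))) :=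
  Cl.node (nat_lit 0xc9) (nat_lit 2) (by decide +kernel) (ClAll.succ (ClAll.succ ClAll.zero s9) n43)

def n67 : Cl (O (nat_lit 5)) (R (nat_lit 135377))
    (p (nat_lit 0xc1) (nat_lit 1) (p (nat_lit 0x119) (nat_lit 1) (p (nat_lit 0xd1) (nat_lit 0) (p (nat_lit 0x89) (nat_lit 0) (p (nat_lit 0x41) (nat_lit 0) (p (nat_lit 0x10b0a09890a9a) (nat_lit 0) (p (nat_lit 0xa8989088a1a) (nat_lit 0) (p (nat_lit 0x10a090888079a) (nat_lit 0) (p (nat_lit 0x9888807871a) (nat_lit 0) (p (nat_lit 0x8000000000800090787088a) (nat_lit 0) (p (nat_lit 0x8000000000800088706860a) (nat_lit 0) (p (nat_lit 0x10706860782) (nat_lit 0) (p (nat_lit 0x686058702) (nat_lit 0) (p (nat_lit 0x10605850482) (nat_lit 0) (p (nat_lit 0x585048402) (nat_lit 0) (p (nat_lit 0x16000c) (nat_lit 0) (p (nat_lit 0x60592) (nat_lit 0) (p (nat_lit 0x48512) (nat_lit 0) (p (nat_lit 0x50392) (nat_lit 0) (p (nat_lit 0x38312) (nat_lit 0) (p (nat_lit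 0x40212) (nat_lit 0) (p (nat_lit 0x28192) (nat_lit 0) (p (nat_lit 0x30092) (nat_lit 0) (p (nat_lit 0x18012) (nat_lit 0) pn)))))))))))))))))))))))) :=
  Cl.node (nat_lit 0x81) (nat_lit 2) (by decide +kernel) (ClAll.succ (ClAll.succ ClAll.zero n44) n45)

def n68 : Cl (O (nat_lit 5)) (R (nat_lit 135377))
    (p (nat_lit 0x101) (nat_lit 0) (p (nat_lit 0x111) (nat_lit 0) (p (nat_lit 0xd1) (nat_lit 1) (p (nat_lit 0x89) (nat_lit 0) (p (nat_lit 0x41) (nat_lit 0) (p (nat_lit 0x10b0a09890a9a) (nat_lit 0) (p (nat_lit 0xa8989088a1a) (nat_lit 0) (p (nat_lit 0x10a090888079a) (nat_lit 0) (p (nat_lit 0x9888807871a) (nat_lit 0) (p (nat_lit 0x8000000000800090787088a) (nat_lit 0) (p (nat_lit 0x8000000000800088706860a) (nat_lit 0) (p (nat_lit 0x10706860782) (nat_lit 0) (p (nat_lit 0x686058702) (nat_lit 0) (p (nat_lit 0x10605850482) (nat_lit 0) (p (nat_lit 0x585048402) (nat_lit 0) (p (nat_lit 0x16000c)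 (nat_lit 0) (p (nat_lit 0x60592) (nat_lit 0) (p (nat_lit 0x48512) (nat_lit 0) (p (nat_lit 0x50392) (nat_lit 0) (p (nat_lit 0x38312) (nat_lit 0) (p (nat_lit 0x40212) (nat_lit 0) (p (nat_lit 0x28192) (nat_lit 0) (p (nat_lit 0x30092) (nat_lit 0) (p (nat_lit 0x18012) (nat_lit 0) pn)))))))))))))))))))))))) :=
  Cl.node (nat_lit 0x109) (nat_lit 2) (by decide +kernel) (ClAll.succ (ClAll.succ ClAll.zero s25) s26)

def n69 : Cl (O (nat_lit 5)) (R (nat_lit 135377))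
    (p (nat_lit 0x101) (nat_lit 1) (p (nat_lit 0x111) (nat_lit 0) (p (nat_lit 0xd1) (nat_lit 1) (p (nat_lit 0x89) (nat_lit 0) (p (nat_lit 0x41) (nat_lit 0) (p (nat_lit 0x10b0a09890a9a) (nat_lit 0) (p (nat_lit 0xa8989088a1a) (nat_lit 0) (p (nat_lit 0x10a090888079a) (nat_lit 0) (p (nat_lit 0x9888807871a) (nat_lit 0) (p (nat_lit 0x8000000000800090787088a) (nat_lit 0) (p (nat_lit 0x8000000000800088706860a) (nat_lit 0) (p (nat_lit 0x10706860782) (nat_lit 0) (p (nat_lit 0x686058702) (nat_lit 0) (p (nat_lit 0x10605850482) (nat_lit 0) (p (nat_lit 0x585048402) (nat_lit 0) (p (nat_lit 0x16000c) (nat_lit 0) (p (nat_lit 0x60592) (nat_lit 0) (p (nat_lit 0x48512) (nat_lit 0) (p (nat_lit 0x50392) (nat_lit 0) (p (nat_lit 0x38312) (nat_lit 0) (p (nat_lit 0x40212) (nat_lit 0) (p (nat_lit 0x28192) (nat_lit 0) (p (nat_lit 0x30092) (nat_lit 0) (p (nat_lit 0x18012) (nat_lit 0) pn))))))))))))))))))))))))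 :=
  Cl.node (nat_lit 0x81) (nat_lit 2) (by decide +kernel) (ClAll.succ (ClAll.succ ClAll.zero s27) n46)

def n70 : Cl (O (nat_lit 5)) (R (nat_lit 135377))
    (p (nat_lit 0x101) (nat_lit 0) (p (nat_lit 0x119) (nat_lit 0) (p (nat_lit 0xc9) (nat_lit 0) (p (nat_lit 0x89) (nat_lit 1) (p (nat_lit 0x41) (nat_lit 0) (p (nat_lit 0x10b0a09890a9a) (nat_lit 0) (p (nat_lit 0xa8989088a1a) (nat_lit 0) (p (nat_lit 0x10a090888079a) (nat_lit 0) (p (nat_lit 0x9888807871a) (nat_lit 0) (p (nat_lit 0x8000000000800090787088a) (nat_lit 0) (p (nat_lit 0x8000000000800088706860a) (nat_lit 0) (p (nat_lit 0x10706860782) (nat_lit 0) (p (nat_lit 0x686058702) (nat_lit 0) (p (nat_lit 0x10605850482) (nat_lit 0) (p (nat_lit 0x585048402) (nat_lit 0) (p (nat_lit 0x16000c) (nat_lit 0) (p (nat_lit 0x60592) (nat_lit 0) (p (nat_lit 0x48512) (nat_lit 0) (p (nat_lit 0x50392) (nat_lit 0) (p (nat_lit 0x38312) (nat_lit 0) (p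 (nat_lit 0x40212) (nat_lit 0) (p (nat_lit 0x28192) (nat_lit 0) (p (nat_lit 0x30092) (nat_lit 0) (p (nat_lit 0x18012) (nat_lit 0) pn)))))))))))))))))))))))) :=
  Cl.node (nat_lit 0x109) (nat_lit 2) (by decide +kernel) (ClAll.succ (ClAll.succ ClAll.zero s33) n47)

def n71 : Cl (O (nat_lit 5)) (R (nat_lit 135377))
    (p (nat_lit 0x101) (nat_lit 1) (p (nat_lit 0x119) (nat_lit 0) (p (nat_lit 0xc9) (nat_lit 0) (p (nat_lit 0x89) (nat_lit 1) (p (nat_lit 0x41) (nat_lit 0) (p (nat_lit 0x10b0a09890a9a) (nat_lit 0) (p (nat_lit 0xa8989088a1a) (nat_lit 0) (p (nat_lit 0x10a090888079a) (nat_lit 0) (p (nat_lit 0x9888807871a) (nat_lit 0) (p (nat_lit 0x8000000000800090787088a) (nat_lit 0) (p (nat_lit 0x8000000000800088706860a) (nat_lit 0) (p (nat_lit 0x10706860782) (nat_lit 0) (p (nat_lit 0x686058702) (nat_lit 0) (p (nat_lit 0x10605850482) (nat_lit 0) (p (nat_lit 0x585048402) (nat_lit 0) (p (nat_lit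 0x16000c) (nat_lit 0) (p (nat_lit 0x60592) (nat_lit 0) (p (nat_lit 0x48512) (nat_lit 0) (p (nat_lit 0x50392) (nat_lit 0) (p (nat_lit 0x38312) (nat_lit 0) (p (nat_lit 0x40212) (nat_lit 0) (p (nat_lit 0x28192) (nat_lit 0) (p (nat_lit 0x30092) (nat_lit 0) (p (nat_lit 0x18012) (nat_lit 0) pn)))))))))))))))))))))))) :=
  Cl.node (nat_lit 0xc1) (nat_lit 2) (by decide +kernel) (ClAll.succ (ClAll.succ ClAll.zero n48) s41)

def n72 : Cl (O (nat_lit 5)) (R (nat_lit 135377))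
    (p (nat_lit 0xc1) (nat_lit 0) (p (nat_lit 0x119) (nat_lit 1) (p (nat_lit 0xc9) (nat_lit 0) (p (nat_lit 0x89) (nat_lit 1) (p (nat_lit 0x41) (nat_lit 0) (p (nat_lit 0x10b0a09890a9a) (nat_lit 0) (p (nat_lit 0xa8989088a1a) (nat_lit 0) (p (nat_lit 0x10a090888079a) (nat_lit 0) (p (nat_lit 0x9888807871a) (nat_lit 0) (p (nat_lit 0x8000000000800090787088a) (nat_lit 0) (p (nat_lit 0x8000000000800088706860a) (nat_lit 0) (p (nat_lit 0x10706860782) (nat_lit 0) (p (nat_lit 0x686058702) (nat_lit 0) (p (nat_lit 0x10605850482) (nat_lit 0) (p (nat_lit 0x585048402) (nat_lit 0) (p (nat_lit 0x16000c) (nat_lit 0) (p (nat_lit 0x60592) (nat_lit 0) (p (nat_lit 0x48512) (nat_lit 0) (p (nat_lit 0x50392) (nat_lit 0) (p (nat_lit 0x38312) (nat_lit 0) (p (nat_lit 0x40212) (nat_lit 0) (p (nat_lit 0x28192) (nat_lit 0) (p (nat_lit 0x30092) (nat_lit 0) (p (nat_lit 0x18012) (nat_lit 0) pn)))))))))))))))))))))))) :=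
  Cl.node (nat_lit 0xd1) (nat_lit 2) (by decide +kernel) (ClAll.succ (ClAll.succ ClAll.zero s42) n49)

def n73 : Cl (O (nat_lit 5)) (R (nat_lit 135377))
    (p (nat_lit 0xc1) (nat_lit 1) (p (nat_lit 0x119) (nat_lit 1) (p (nat_lit 0xc9) (nat_lit 0) (p (nat_lit 0x89) (nat_lit 1) (p (nat_lit 0x41) (nat_lit 0) (p (nat_lit 0x10b0a09890a9a) (nat_lit 0) (p (nat_lit 0xa8989088a1a) (nat_lit 0) (p (nat_lit 0x10a090888079a) (nat_lit 0) (p (nat_lit 0x9888807871a) (nat_lit 0) (p (nat_lit 0x8000000000800090787088a) (nat_lit 0) (p (nat_lit 0x8000000000800088706860a) (nat_lit 0) (p (nat_lit 0x10706860782) (nat_lit 0) (p (nat_lit 0x686058702) (nat_lit 0) (p (nat_lit 0x10605850482) (nat_lit 0) (p (nat_lit 0x585048402) (nat_lit 0) (p (nat_lit 0x16000c) (nat_lit 0) (p (nat_lit 0x60592) (nat_lit 0) (p (nat_lit 0x48512) (nat_lit 0) (p (nat_lit 0x50392) (nat_lit 0) (p (nat_lit 0x38312) (nat_lit 0) (p (nat_lit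 0x40212) (nat_lit 0) (p (nat_lit 0x28192) (nat_lit 0) (p (nat_lit 0x30092) (nat_lit 0) (p (nat_lit 0x18012) (nat_lit 0) pn)))))))))))))))))))))))) :=
  Cl.node (nat_lit 0x101) (nat_lit 2) (by decide +kernel) (ClAll.succ (ClAll.succ ClAll.zero n50) s49)

def n74 : Cl (O (nat_lit 5)) (R (nat_lit 135377))
    (p (nat_lit 0x101) (nat_lit 0) (p (nat_lit 0x119) (nat_lit 0) (p (nat_lit 0xd1) (nat_lit 0) (p (nat_lit 0x81) (nat_lit 0) (p (nat_lit 0x41) (nat_lit 1) (p (nat_lit 0x10b0a09890a9a) (nat_lit 0) (p (nat_lit 0xa8989088a1a) (nat_lit 0) (p (nat_lit 0x10a090888079a) (nat_lit 0) (p (nat_lit 0x9888807871a) (nat_lit 0) (p (nat_lit 0x8000000000800090787088a) (nat_lit 0) (p (nat_lit 0x8000000000800088706860a) (nat_lit 0) (p (nat_lit 0x10706860782) (nat_lit 0) (p (nat_lit 0x686058702) (nat_lit 0) (p (nat_lit 0x10605850482) (nat_lit 0) (p (nat_lit 0x585048402) (nat_lit 0) (p (nat_lit 0x16000c)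 (nat_lit 0) (p (nat_lit 0x60592) (nat_lit 0) (p (nat_lit 0x48512) (nat_lit 0) (p (nat_lit 0x50392) (nat_lit 0) (p (nat_lit 0x38312) (nat_lit 0) (p (nat_lit 0x40212) (nat_lit 0) (p (nat_lit 0x28192) (nat_lit 0) (p (nat_lit 0x30092) (nat_lit 0) (p (nat_lit 0x18012) (nat_lit 0) pn)))))))))))))))))))))))) :=
  Cl.node (nat_lit 0x109) (nat_lit 2) (by decide +kernel) (ClAll.succ (ClAll.succ ClAll.zero s51) n51)

def n75 : Cl (O (nat_lit 5)) (R (nat_lit 135377))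
    (p (nat_lit 0x101) (nat_lit 1) (p (nat_lit 0x119) (nat_lit 0) (p (nat_lit 0xd1) (nat_lit 0) (p (nat_lit 0x81) (nat_lit 0) (p (nat_lit 0x41) (nat_lit 1) (p (nat_lit 0x10b0a09890a9a) (nat_lit 0) (p (nat_lit 0xa8989088a1a) (nat_lit 0) (p (nat_lit 0x10a090888079a) (nat_lit 0) (p (nat_lit 0x9888807871a) (nat_lit 0) (p (nat_lit 0x8000000000800090787088a) (nat_lit 0) (p (nat_lit 0x8000000000800088706860a) (nat_lit 0) (p (nat_lit 0x10706860782) (nat_lit 0) (p (nat_lit 0x686058702) (nat_lit 0) (p (nat_lit 0x10605850482) (nat_lit 0) (p (nat_lit 0x585048402) (nat_lit 0) (p (nat_lit 0x16000c) (nat_lit 0) (p (nat_lit 0x60592) (nat_lit 0) (p (nat_lit 0x48512) (nat_lit 0) (p (nat_lit 0x50392) (nat_lit 0) (p (nat_lit 0x38312) (nat_lit 0) (p (nat_lit 0x40212) (nat_lit 0) (p (nat_lit 0x28192) (nat_lit 0) (p (nat_lit 0x30092) (nat_lit 0) (p (nat_lit 0x18012) (nat_lit 0) pn))))))))))))))))))))))))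 :=
  Cl.node (nat_lit 0xc1) (nat_lit 2) (by decide +kernel) (ClAll.succ (ClAll.succ ClAll.zero n52) n53)

def n76 : Cl (O (nat_lit 5)) (R (nat_lit 135377))
    (p (nat_lit 0xc1) (nat_lit 0) (p (nat_lit 0x119) (nat_lit 1) (p (nat_lit 0xd1) (nat_lit 0) (p (nat_lit 0x81) (nat_lit 0) (p (nat_lit 0x41) (nat_lit 1) (p (nat_lit 0x10b0a09890a9a) (nat_lit 0) (p (nat_lit 0xa8989088a1a) (nat_lit 0) (p (nat_lit 0x10a090888079a) (nat_lit 0) (p (nat_lit 0x9888807871a) (nat_lit 0) (p (nat_lit 0x8000000000800090787088a) (nat_lit 0) (p (nat_lit 0x8000000000800088706860a) (nat_lit 0) (p (nat_lit 0x10706860782) (nat_lit 0) (p (nat_lit 0x686058702) (nat_lit 0) (p (nat_lit 0x10605850482) (nat_lit 0) (p (nat_lit 0x585048402) (nat_lit 0) (p (nat_lit 0x16000c) (nat_lit 0) (p (nat_lit 0x60592) (nat_lit 0) (p (nat_lit 0x48512) (nat_lit 0) (p (nat_lit 0x50392) (nat_lit 0) (p (nat_lit 0x38312) (nat_lit 0) (p (nat_lit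 0x40212) (nat_lit 0) (p (nat_lit 0x28192) (nat_lit 0) (p (nat_lit 0x30092) (nat_lit 0) (p (nat_lit 0x18012) (nat_lit 0) pn)))))))))))))))))))))))) :=
  Cl.node (nat_lit 0xc9) (nat_lit 2) (by decide +kernel) (ClAll.succ (ClAll.succ ClAll.zero s62) n54)

def n77 : Cl (O (nat_lit 5)) (R (nat_lit 135377))
    (p (nat_lit 0xc1) (nat_lit 1) (p (nat_lit 0x119) (nat_lit 1) (p (nat_lit 0xd1) (nat_lit 0) (p (nat_lit 0x81) (nat_lit 0) (p (nat_lit 0x41) (nat_lit 1) (p (nat_lit 0x10b0a09890a9a) (nat_lit 0) (p (nat_lit 0xa8989088a1a) (nat_lit 0) (p (nat_lit 0x10a090888079a) (nat_lit 0) (p (nat_lit 0x9888807871a) (nat_lit 0) (p (nat_lit 0x8000000000800090787088a) (nat_lit 0) (p (nat_lit 0x8000000000800088706860a) (nat_lit 0) (p (nat_lit 0x10706860782) (nat_lit 0) (p (nat_lit 0x686058702) (nat_lit 0) (p (nat_lit 0x10605850482) (nat_lit 0) (p (nat_lit 0x585048402) (nat_lit 0) (p (nat_lit 0x16000c) (nat_lit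 0) (p (nat_lit 0x60592) (nat_lit 0) (p (nat_lit 0x48512) (nat_lit 0) (p (nat_lit 0x50392) (nat_lit 0) (p (nat_lit 0x38312) (nat_lit 0) (p (nat_lit 0x40212) (nat_lit 0) (p (nat_lit 0x28192) (nat_lit 0) (p (nat_lit 0x30092) (nat_lit 0) (p (nat_lit 0x18012) (nat_lit 0) pn)))))))))))))))))))))))) :=
  Cl.node (nat_lit 0x101) (nat_lit 2) (by decide +kernel) (ClAll.succ (ClAll.succ ClAll.zero n55) n56)

def n78 : Cl (O (nat_lit 5)) (R (nat_lit 135377))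
    (p (nat_lit 0x101) (nat_lit 0) (p (nat_lit 0x111) (nat_lit 0) (p (nat_lit 0xd1) (nat_lit 1) (p (nat_lit 0x81) (nat_lit 0) (p (nat_lit 0x41) (nat_lit 1) (p (nat_lit 0x10b0a09890a9a) (nat_lit 0) (p (nat_lit 0xa8989088a1a) (nat_lit 0) (p (nat_lit 0x10a090888079a) (nat_lit 0) (p (nat_lit 0x9888807871a) (nat_lit 0) (p (nat_lit 0x8000000000800090787088a) (nat_lit 0) (p (nat_lit 0x8000000000800088706860a) (nat_lit 0) (p (nat_lit 0x10706860782) (nat_lit 0) (p (nat_lit 0x686058702) (nat_lit 0) (p (nat_lit 0x10605850482) (nat_lit 0) (p (nat_lit 0x585048402) (nat_lit 0) (p (nat_lit 0x16000c) (nat_lit 0) (p (nat_lit 0x60592) (nat_lit 0) (p (nat_lit 0x48512) (nat_lit 0) (p (nat_lit 0x50392) (nat_lit 0) (p (nat_lit 0x38312) (nat_lit 0) (p (nat_lit 0x40212) (nat_lit 0) (p (nat_lit 0x28192) (nat_lit 0) (p (nat_lit 0x30092) (nat_lit 0) (p (nat_lit 0x18012) (nat_lit 0) pn))))))))))))))))))))))))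 :=
  Cl.node (nat_lit 0x109) (nat_lit 2) (by decide +kernel) (ClAll.succ (ClAll.succ ClAll.zero s79) n57)

def n79 : Cl (O (nat_lit 5)) (R (nat_lit 135377))
    (p (nat_lit 0x101) (nat_lit 1) (p (nat_lit 0x111) (nat_lit 0) (p (nat_lit 0xd1) (nat_lit 1) (p (nat_lit 0x81) (nat_lit 0) (p (nat_lit 0x41) (nat_lit 1) (p (nat_lit 0x10b0a09890a9a) (nat_lit 0) (p (nat_lit 0xa8989088a1a) (nat_lit 0) (p (nat_lit 0x10a090888079a) (nat_lit 0) (p (nat_lit 0x9888807871a) (nat_lit 0) (p (nat_lit 0x8000000000800090787088a) (nat_lit 0) (p (nat_lit 0x8000000000800088706860a) (nat_lit 0) (p (nat_lit 0x10706860782) (nat_lit 0) (p (nat_lit 0x686058702) (nat_lit 0) (p (nat_lit 0x10605850482) (nat_lit 0) (p (nat_lit 0x585048402) (nat_lit 0) (p (nat_lit 0x16000c) (nat_lit 0) (p (nat_lit 0x60592) (nat_lit 0) (p (nat_lit 0x48512) (nat_lit 0) (p (nat_lit 0x50392) (nat_lit 0) (p (nat_lit 0x38312) (nat_lit 0) (p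 (nat_lit 0x40212) (nat_lit 0) (p (nat_lit 0x28192) (nat_lit 0) (p (nat_lit 0x30092) (nat_lit 0) (p (nat_lit 0x18012) (nat_lit 0) pn)))))))))))))))))))))))) :=
  Cl.node (nat_lit 0x89) (nat_lit 2) (by decide +kernel) (ClAll.succ (ClAll.succ ClAll.zero s84) n58)

def n80 : Cl (O (nat_lit 5)) (R (nat_lit 135377))
    (p (nat_lit 0x89) (nat_lit 1) (p (nat_lit 0x111) (nat_lit 1) (p (nat_lit 0xd1) (nat_lit 1) (p (nat_lit 0x81) (nat_lit 0) (p (nat_lit 0x41) (nat_lit 1) (p (nat_lit 0x10b0a09890a9a) (nat_lit 0) (p (nat_lit 0xa8989088a1a) (nat_lit 0) (p (nat_lit 0x10a090888079a) (nat_lit 0) (p (nat_lit 0x9888807871a) (nat_lit 0) (p (nat_lit 0x8000000000800090787088a) (nat_lit 0) (p (nat_lit 0x8000000000800088706860a) (nat_lit 0) (p (nat_lit 0x10706860782) (nat_lit 0) (p (nat_lit 0x686058702) (nat_lit 0) (p (nat_lit 0x10605850482) (nat_lit 0) (p (nat_lit 0x585048402) (nat_lit 0) (p (nat_lit 0x16000c)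 (nat_lit 0) (p (nat_lit 0x60592) (nat_lit 0) (p (nat_lit 0x48512) (nat_lit 0) (p (nat_lit 0x50392) (nat_lit 0) (p (nat_lit 0x38312) (nat_lit 0) (p (nat_lit 0x40212) (nat_lit 0) (p (nat_lit 0x28192) (nat_lit 0) (p (nat_lit 0x30092) (nat_lit 0) (p (nat_lit 0x18012) (nat_lit 0) pn)))))))))))))))))))))))) :=
  Cl.node (nat_lit 0xc9) (nat_lit 2) (by decide +kernel) (ClAll.succ (ClAll.succ ClAll.zero s88) s89)

def n81 : Cl (O (nat_lit 5)) (R (nat_lit 135377))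
    (p (nat_lit 0x101) (nat_lit 0) (p (nat_lit 0x119) (nat_lit 0) (p (nat_lit 0xc1) (nat_lit 0) (p (nat_lit 0x81) (nat_lit 1) (p (nat_lit 0x41) (nat_lit 1) (p (nat_lit 0x10b0a09890a9a) (nat_lit 0) (p (nat_lit 0xa8989088a1a) (nat_lit 0) (p (nat_lit 0x10a090888079a) (nat_lit 0) (p (nat_lit 0x9888807871a) (nat_lit 0) (p (nat_lit 0x8000000000800090787088a) (nat_lit 0) (p (nat_lit 0x8000000000800088706860a) (nat_lit 0) (p (nat_lit 0x10706860782) (nat_lit 0) (p (nat_lit 0x686058702) (nat_lit 0) (p (nat_lit 0x10605850482) (nat_lit 0) (p (nat_lit 0x585048402) (nat_lit 0) (p (nat_lit 0x16000c) (nat_lit 0) (p (nat_lit 0x60592) (nat_lit 0) (p (nat_lit 0x48512) (nat_lit 0) (p (nat_lit 0x50392) (nat_lit 0) (p (nat_lit 0x38312) (nat_lit 0) (p (nat_lit 0x40212) (nat_lit 0) (p (nat_lit 0x28192) (nat_lit 0) (p (nat_lit 0x30092) (nat_lit 0) (p (nat_lit 0x18012) (nat_lit 0) pn))))))))))))))))))))))))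 :=
  Cl.node (nat_lit 0x109) (nat_lit 2) (by decide +kernel) (ClAll.succ (ClAll.succ ClAll.zero s90) n59)

def n82 : Cl (O (nat_lit 5)) (R (nat_lit 135377))
    (p (nat_lit 0x101) (nat_lit 1) (p (nat_lit 0x119) (nat_lit 0) (p (nat_lit 0xc1) (nat_lit 0) (p (nat_lit 0x81) (nat_lit 1) (p (nat_lit 0x41) (nat_lit 1) (p (nat_lit 0x10b0a09890a9a) (nat_lit 0) (p (nat_lit 0xa8989088a1a) (nat_lit 0) (p (nat_lit 0x10a090888079a) (nat_lit 0) (p (nat_lit 0x9888807871a) (nat_lit 0) (p (nat_lit 0x8000000000800090787088a) (nat_lit 0) (p (nat_lit 0x8000000000800088706860a) (nat_lit 0) (p (nat_lit 0x10706860782) (nat_lit 0) (p (nat_lit 0x686058702) (nat_lit 0) (p (nat_lit 0x10605850482) (nat_lit 0) (p (nat_lit 0x585048402) (nat_lit 0) (p (nat_lit 0x16000c) (nat_lit 0) (p (nat_lit 0x60592) (nat_lit 0) (p (nat_lit 0x48512) (nat_lit 0) (p (nat_lit 0x50392) (nat_lit 0) (p (nat_lit 0x38312) (nat_lit 0) (p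 (nat_lit 0x40212) (nat_lit 0) (p (nat_lit 0x28192) (nat_lit 0) (p (nat_lit 0x30092) (nat_lit 0) (p (nat_lit 0x18012) (nat_lit 0) pn)))))))))))))))))))))))) :=
  Cl.node (nat_lit 0xc9) (nat_lit 2) (by decide +kernel) (ClAll.succ (ClAll.succ ClAll.zero n60) s98)

def n83 : Cl (O (nat_lit 5)) (R (nat_lit 135377))
    (p (nat_lit 0xc9) (nat_lit 0) (p (nat_lit 0x119) (nat_lit 1) (p (nat_lit 0xc1) (nat_lit 0) (p (nat_lit 0x81) (nat_lit 1) (p (nat_lit 0x41) (nat_lit 1) (p (nat_lit 0x10b0a09890a9a) (nat_lit 0) (p (nat_lit 0xa8989088a1a) (nat_lit 0) (p (nat_lit 0x10a090888079a) (nat_lit 0) (p (nat_lit 0x9888807871a) (nat_lit 0) (p (nat_lit 0x8000000000800090787088a) (nat_lit 0) (p (nat_lit 0x8000000000800088706860a) (nat_lit 0) (p (nat_lit 0x10706860782) (nat_lit 0) (p (nat_lit 0x686058702) (nat_lit 0) (p (nat_lit 0x10605850482) (nat_lit 0) (p (nat_lit 0x585048402) (nat_lit 0) (p (nat_lit 0x16000c)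 (nat_lit 0) (p (nat_lit 0x60592) (nat_lit 0) (p (nat_lit 0x48512) (nat_lit 0) (p (nat_lit 0x50392) (nat_lit 0) (p (nat_lit 0x38312) (nat_lit 0) (p (nat_lit 0x40212) (nat_lit 0) (p (nat_lit 0x28192) (nat_lit 0) (p (nat_lit 0x30092) (nat_lit 0) (p (nat_lit 0x18012) (nat_lit 0) pn)))))))))))))))))))))))) :=
  Cl.node (nat_lit 0xd1) (nat_lit 2) (by decide +kernel) (ClAll.succ (ClAll.succ ClAll.zero s99) n61)

def n84 : Cl (O (nat_lit 5)) (R (nat_lit 135377))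
    (p (nat_lit 0xc9) (nat_lit 1) (p (nat_lit 0x119) (nat_lit 1) (p (nat_lit 0xc1) (nat_lit 0) (p (nat_lit 0x81) (nat_lit 1) (p (nat_lit 0x41) (nat_lit 1) (p (nat_lit 0x10b0a09890a9a) (nat_lit 0) (p (nat_lit 0xa8989088a1a) (nat_lit 0) (p (nat_lit 0x10a090888079a) (nat_lit 0) (p (nat_lit 0x9888807871a) (nat_lit 0) (p (nat_lit 0x8000000000800090787088a) (nat_lit 0) (p (nat_lit 0x8000000000800088706860a) (nat_lit 0) (p (nat_lit 0x10706860782) (nat_lit 0) (p (nat_lit 0x686058702) (nat_lit 0) (p (nat_lit 0x10605850482) (nat_lit 0) (p (nat_lit 0x585048402) (nat_lit 0) (p (nat_lit 0x16000c) (nat_lit 0) (p (nat_lit 0x60592) (nat_lit 0) (p (nat_lit 0x48512) (nat_lit 0) (p (nat_lit 0x50392) (nat_lit 0) (p (nat_lit 0x38312) (nat_lit 0) (p (nat_lit 0x40212) (nat_lit 0) (p (nat_lit 0x28192) (nat_lit 0) (p (nat_lit 0x30092) (nat_lit 0) (p (nat_lit 0x18012) (nat_lit 0) pn)))))))))))))))))))))))) :=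
  Cl.node (nat_lit 0x109) (nat_lit 2) (by decide +kernel) (ClAll.succ (ClAll.succ ClAll.zero n62) n63)

def n85 : Cl (O (nat_lit 5)) (R (nat_lit 135377))
    (p (nat_lit 0x109) (nat_lit 0) (p (nat_lit 0x101) (nat_lit 0) (p (nat_lit 0xc1) (nat_lit 1) (p (nat_lit 0x81) (nat_lit 1) (p (nat_lit 0x41) (nat_lit 1) (p (nat_lit 0x10b0a09890a9a) (nat_lit 0) (p (nat_lit 0xa8989088a1a) (nat_lit 0) (p (nat_lit 0x10a090888079a) (nat_lit 0) (p (nat_lit 0x9888807871a) (nat_lit 0) (p (nat_lit 0x8000000000800090787088a) (nat_lit 0) (p (nat_lit 0x8000000000800088706860a) (nat_lit 0) (p (nat_lit 0x10706860782) (nat_lit 0) (p (nat_lit 0x686058702) (nat_lit 0) (p (nat_lit 0x10605850482) (nat_lit 0) (p (nat_lit 0x585048402) (nat_lit 0) (p (nat_lit 0x16000c) (nat_lit 0) (p (nat_lit 0x60592) (nat_lit 0) (p (nat_lit 0x48512) (nat_lit 0) (p (nat_lit 0x50392) (nat_lit 0) (p (nat_lit 0x38312) (nat_lit 0) (p (nat_lit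 0x40212) (nat_lit 0) (p (nat_lit 0x28192) (nat_lit 0) (p (nat_lit 0x30092) (nat_lit 0) (p (nat_lit 0x18012) (nat_lit 0) pn)))))))))))))))))))))))) :=
  Cl.node (nat_lit 0x111) (nat_lit 2) (by decide +kernel) (ClAll.succ (ClAll.succ ClAll.zero s109) s110)

def n86 : Cl (O (nat_lit 5)) (R (nat_lit 135377))
    (p (nat_lit 0x119) (nat_lit 0) (p (nat_lit 0xd1) (nat_lit 0) (p (nat_lit 0x89) (nat_lit 0) (p (nat_lit 0x41) (nat_lit 0) (p (nat_lit 0x10b0a09890a9a) (nat_lit 0) (p (nat_lit 0xa8989088a1a) (nat_lit 0) (p (nat_lit 0x10a090888079a) (nat_lit 0) (p (nat_lit 0x9888807871a) (nat_lit 0) (p (nat_lit 0x8000000000800090787088a) (nat_lit 0) (p (nat_lit 0x8000000000800088706860a) (nat_lit 0) (p (nat_lit 0x10706860782) (nat_lit 0) (p (nat_lit 0x686058702) (nat_lit 0) (p (nat_lit 0x10605850482) (nat_lit 0) (p (nat_lit 0x585048402) (nat_lit 0) (p (nat_lit 0x16000c) (nat_lit 0) (p (nat_lit 0x60592)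 (nat_lit 0) (p (nat_lit 0x48512) (nat_lit 0) (p (nat_lit 0x50392) (nat_lit 0) (p (nat_lit 0x38312) (nat_lit 0) (p (nat_lit 0x40212) (nat_lit 0) (p (nat_lit 0x28192) (nat_lit 0) (p (nat_lit 0x30092) (nat_lit 0) (p (nat_lit 0x18012) (nat_lit 0) pn))))))))))))))))))))))) :=
  Cl.node (nat_lit 0x101) (nat_lit 2) (by decide +kernel) (ClAll.succ (ClAll.succ ClAll.zero n64) n65)

def n87 : Cl (O (nat_lit 5)) (R (nat_lit 135377))
    (p (nat_lit 0x119) (nat_lit 1) (p (nat_lit 0xd1) (nat_lit 0) (p (nat_lit 0x89) (nat_lit 0) (p (nat_lit 0x41) (nat_lit 0) (p (nat_lit 0x10b0a09890a9a) (nat_lit 0) (p (nat_lit 0xa8989088a1a) (nat_lit 0) (p (nat_lit 0x10a090888079a) (nat_lit 0) (p (nat_lit 0x9888807871a) (nat_lit 0) (p (nat_lit 0x8000000000800090787088a) (nat_lit 0) (p (nat_lit 0x8000000000800088706860a) (nat_lit 0) (p (nat_lit 0x10706860782) (nat_lit 0) (p (nat_lit 0x686058702) (nat_lit 0) (p (nat_lit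 0x10605850482) (nat_lit 0) (p (nat_lit 0x585048402) (nat_lit 0) (p (nat_lit 0x16000c) (nat_lit 0) (p (nat_lit 0x60592) (nat_lit 0) (p (nat_lit 0x48512) (nat_lit 0) (p (nat_lit 0x50392) (nat_lit 0) (p (nat_lit 0x38312) (nat_lit 0) (p (nat_lit 0x40212) (nat_lit 0) (p (nat_lit 0x28192) (nat_lit 0) (p (nat_lit 0x30092) (nat_lit 0) (p (nat_lit 0x18012) (nat_lit 0) pn))))))))))))))))))))))) :=
  Cl.node (nat_lit 0xc1) (nat_lit 2) (by decide +kernel) (ClAll.succ (ClAll.succ ClAll.zero n66) n67)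

def n88 : Cl (O (nat_lit 5)) (R (nat_lit 135377))
    (p (nat_lit 0x111) (nat_lit 0) (p (nat_lit 0xd1) (nat_lit 1) (p (nat_lit 0x89) (nat_lit 0) (p (nat_lit 0x41) (nat_lit 0) (p (nat_lit 0x10b0a09890a9a) (nat_lit 0) (p (nat_lit 0xa8989088a1a) (nat_lit 0) (p (nat_lit 0x10a090888079a) (nat_lit 0) (p (nat_lit 0x9888807871a) (nat_lit 0) (p (nat_lit 0x8000000000800090787088a) (nat_lit 0) (p (nat_lit 0x8000000000800088706860a) (nat_lit 0) (p (nat_lit 0x10706860782) (nat_lit 0) (p (nat_lit 0x686058702) (nat_lit 0) (p (nat_lit 0x10605850482) (nat_lit 0) (p (nat_lit 0x585048402) (nat_lit 0) (p (nat_lit 0x16000c) (nat_lit 0) (p (nat_lit 0x60592) (nat_lit 0) (p (nat_lit 0x48512) (nat_lit 0) (p (nat_lit 0x50392) (nat_lit 0) (p (nat_lit 0x38312) (nat_lit 0) (p (nat_lit 0x40212) (nat_lit 0) (p (nat_lit 0x28192) (nat_lit 0) (p (nat_lit 0x30092) (nat_lit 0) (p (nat_lit 0x18012) (nat_lit 0) pn)))))))))))))))))))))))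 :=
  Cl.node (nat_lit 0x101) (nat_lit 2) (by decide +kernel) (ClAll.succ (ClAll.succ ClAll.zero n68) n69)

def n89 : Cl (O (nat_lit 5)) (R (nat_lit 135377))
    (p (nat_lit 0x119) (nat_lit 0) (p (nat_lit 0xc9) (nat_lit 0) (p (nat_lit 0x89) (nat_lit 1) (p (nat_lit 0x41) (nat_lit 0) (p (nat_lit 0x10b0a09890a9a) (nat_lit 0) (p (nat_lit 0xa8989088a1a) (nat_lit 0) (p (nat_lit 0x10a090888079a) (nat_lit 0) (p (nat_lit 0x9888807871a) (nat_lit 0) (p (nat_lit 0x8000000000800090787088a) (nat_lit 0) (p (nat_lit 0x8000000000800088706860a) (nat_lit 0) (p (nat_lit 0x10706860782) (nat_lit 0) (p (nat_lit 0x686058702) (nat_lit 0) (p (nat_lit 0x10605850482) (nat_lit 0) (p (nat_lit 0x585048402) (nat_lit 0) (p (nat_lit 0x16000c) (nat_lit 0) (p (nat_lit 0x60592) (nat_lit 0) (p (nat_lit 0x48512) (nat_lit 0) (p (nat_lit 0x50392) (nat_lit 0) (p (nat_lit 0x38312) (nat_lit 0) (p (nat_lit 0x40212) (nat_lit 0)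 (p (nat_lit 0x28192) (nat_lit 0) (p (nat_lit 0x30092) (nat_lit 0) (p (nat_lit 0x18012) (nat_lit 0) pn))))))))))))))))))))))) :=
  Cl.node (nat_lit 0x101) (nat_lit 2) (by decide +kernel) (ClAll.succ (ClAll.succ ClAll.zero n70) n71)

def n90 : Cl (O (nat_lit 5)) (R (nat_lit 135377))
    (p (nat_lit 0x119) (nat_lit 1) (p (nat_lit 0xc9) (nat_lit 0) (p (nat_lit 0x89) (nat_lit 1) (p (nat_lit 0x41) (nat_lit 0) (p (nat_lit 0x10b0a09890a9a) (nat_lit 0) (p (nat_lit 0xa8989088a1a) (nat_lit 0) (p (nat_lit 0x10a090888079a) (nat_lit 0) (p (nat_lit 0x9888807871a) (nat_lit 0) (p (nat_lit 0x8000000000800090787088a) (nat_lit 0) (p (nat_lit 0x8000000000800088706860a) (nat_lit 0) (p (nat_lit 0x10706860782) (nat_lit 0) (p (nat_lit 0x686058702) (nat_lit 0) (p (nat_lit 0x10605850482) (nat_lit 0) (p (nat_lit 0x585048402) (nat_lit 0) (p (nat_lit 0x16000c) (nat_lit 0) (p (nat_lit 0x60592) (nat_lit 0) (p (nat_lit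 0x48512) (nat_lit 0) (p (nat_lit 0x50392) (nat_lit 0) (p (nat_lit 0x38312) (nat_lit 0) (p (nat_lit 0x40212) (nat_lit 0) (p (nat_lit 0x28192) (nat_lit 0) (p (nat_lit 0x30092) (nat_lit 0) (p (nat_lit 0x18012) (nat_lit 0) pn))))))))))))))))))))))) :=
  Cl.node (nat_lit 0xc1) (nat_lit 2) (by decide +kernel) (ClAll.succ (ClAll.succ ClAll.zero n72) n73)

def n91 : Cl (O (nat_lit 5)) (R (nat_lit 135377))
    (p (nat_lit 0x119) (nat_lit 0) (p (nat_lit 0xd1) (nat_lit 0) (p (nat_lit 0x81) (nat_lit 0) (p (nat_lit 0x41) (nat_lit 1) (p (nat_lit 0x10b0a09890a9a) (nat_lit 0) (p (nat_lit 0xa8989088a1a) (nat_lit 0) (p (nat_lit 0x10a090888079a) (nat_lit 0) (p (nat_lit 0x9888807871a) (nat_lit 0) (p (nat_lit 0x8000000000800090787088a) (nat_lit 0) (p (nat_lit 0x8000000000800088706860a) (nat_lit 0) (p (nat_lit 0x10706860782) (nat_lit 0) (p (nat_lit 0x686058702) (nat_lit 0) (p (nat_lit 0x10605850482) (nat_lit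 0) (p (nat_lit 0x585048402) (nat_lit 0) (p (nat_lit 0x16000c) (nat_lit 0) (p (nat_lit 0x60592) (nat_lit 0) (p (nat_lit 0x48512) (nat_lit 0) (p (nat_lit 0x50392) (nat_lit 0) (p (nat_lit 0x38312) (nat_lit 0) (p (nat_lit 0x40212) (nat_lit 0) (p (nat_lit 0x28192) (nat_lit 0) (p (nat_lit 0x30092) (nat_lit 0) (p (nat_lit 0x18012) (nat_lit 0) pn))))))))))))))))))))))) :=
  Cl.node (nat_lit 0x101) (nat_lit 2) (by decide +kernel) (ClAll.succ (ClAll.succ ClAll.zero n74) n75)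

def n92 : Cl (O (nat_lit 5)) (R (nat_lit 135377))
    (p (nat_lit 0x119) (nat_lit 1) (p (nat_lit 0xd1) (nat_lit 0) (p (nat_lit 0x81) (nat_lit 0) (p (nat_lit 0x41) (nat_lit 1) (p (nat_lit 0x10b0a09890a9a) (nat_lit 0) (p (nat_lit 0xa8989088a1a) (nat_lit 0) (p (nat_lit 0x10a090888079a) (nat_lit 0) (p (nat_lit 0x9888807871a) (nat_lit 0) (p (nat_lit 0x8000000000800090787088a) (nat_lit 0) (p (nat_lit 0x8000000000800088706860a) (nat_lit 0) (p (nat_lit 0x10706860782) (nat_lit 0) (p (nat_lit 0x686058702) (nat_lit 0) (p (nat_lit 0x10605850482) (nat_lit 0) (p (nat_lit 0x585048402) (nat_lit 0) (p (nat_lit 0x16000c) (nat_lit 0) (p (nat_lit 0x60592) (nat_lit 0) (p (nat_lit 0x48512) (nat_lit 0) (p (nat_lit 0x50392) (nat_lit 0) (p (nat_lit 0x38312) (nat_lit 0) (p (nat_lit 0x40212) (nat_lit 0) (p (nat_lit 0x28192) (nat_lit 0) (p (nat_lit 0x30092) (nat_lit 0) (p (nat_lit 0x18012) (nat_lit 0) pn)))))))))))))))))))))))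 :=
  Cl.node (nat_lit 0xc1) (nat_lit 2) (by decide +kernel) (ClAll.succ (ClAll.succ ClAll.zero n76) n77)

def n93 : Cl (O (nat_lit 5)) (R (nat_lit 135377))
    (p (nat_lit 0x111) (nat_lit 0) (p (nat_lit 0xd1) (nat_lit 1) (p (nat_lit 0x81) (nat_lit 0) (p (nat_lit 0x41) (nat_lit 1) (p (nat_lit 0x10b0a09890a9a) (nat_lit 0) (p (nat_lit 0xa8989088a1a) (nat_lit 0) (p (nat_lit 0x10a090888079a) (nat_lit 0) (p (nat_lit 0x9888807871a) (nat_lit 0) (p (nat_lit 0x8000000000800090787088a) (nat_lit 0) (p (nat_lit 0x8000000000800088706860a) (nat_lit 0) (p (nat_lit 0x10706860782) (nat_lit 0) (p (nat_lit 0x686058702) (nat_lit 0) (p (nat_lit 0x10605850482) (nat_lit 0) (p (nat_lit 0x585048402) (nat_lit 0) (p (nat_lit 0x16000c) (nat_lit 0) (p (nat_lit 0x60592) (nat_lit 0) (p (nat_lit 0x48512) (nat_lit 0) (p (nat_lit 0x50392) (nat_lit 0) (p (nat_lit 0x38312) (nat_lit 0) (p (nat_lit 0x40212) (nat_lit 0) (p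 (nat_lit 0x28192) (nat_lit 0) (p (nat_lit 0x30092) (nat_lit 0) (p (nat_lit 0x18012) (nat_lit 0) pn))))))))))))))))))))))) :=
  Cl.node (nat_lit 0x101) (nat_lit 2) (by decide +kernel) (ClAll.succ (ClAll.succ ClAll.zero n78) n79)

def n94 : Cl (O (nat_lit 5)) (R (nat_lit 135377))
    (p (nat_lit 0x111) (nat_lit 1) (p (nat_lit 0xd1) (nat_lit 1) (p (nat_lit 0x81) (nat_lit 0) (p (nat_lit 0x41) (nat_lit 1) (p (nat_lit 0x10b0a09890a9a) (nat_lit 0) (p (nat_lit 0xa8989088a1a) (nat_lit 0) (p (nat_lit 0x10a090888079a) (nat_lit 0) (p (nat_lit 0x9888807871a) (nat_lit 0) (p (nat_lit 0x8000000000800090787088a) (nat_lit 0) (p (nat_lit 0x8000000000800088706860a) (nat_lit 0) (p (nat_lit 0x10706860782) (nat_lit 0) (p (nat_lit 0x686058702) (nat_lit 0) (p (nat_lit 0x10605850482) (nat_lit 0) (p (nat_lit 0x585048402) (nat_lit 0) (p (nat_lit 0x16000c) (nat_lit 0) (p (nat_lit 0x60592) (nat_lit 0) (p (nat_lit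 0x48512) (nat_lit 0) (p (nat_lit 0x50392) (nat_lit 0) (p (nat_lit 0x38312) (nat_lit 0) (p (nat_lit 0x40212) (nat_lit 0) (p (nat_lit 0x28192) (nat_lit 0) (p (nat_lit 0x30092) (nat_lit 0) (p (nat_lit 0x18012) (nat_lit 0) pn))))))))))))))))))))))) :=
  Cl.node (nat_lit 0x89) (nat_lit 2) (by decide +kernel) (ClAll.succ (ClAll.succ ClAll.zero s87) n80)

def n95 : Cl (O (nat_lit 5)) (R (nat_lit 135377))
    (p (nat_lit 0x119) (nat_lit 0) (p (nat_lit 0xc1) (nat_lit 0) (p (nat_lit 0x81) (nat_lit 1) (p (nat_lit 0x41) (nat_lit 1) (p (nat_lit 0x10b0a09890a9a) (nat_lit 0) (p (nat_lit 0xa8989088a1a) (nat_lit 0) (p (nat_lit 0x10a090888079a) (nat_lit 0) (p (nat_lit 0x9888807871a) (nat_lit 0) (p (nat_lit 0x8000000000800090787088a) (nat_lit 0) (p (nat_lit 0x8000000000800088706860a) (nat_lit 0) (p (nat_lit 0x10706860782) (nat_lit 0) (p (nat_lit 0x686058702) (nat_lit 0) (p (nat_lit 0x10605850482) (nat_lit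 0) (p (nat_lit 0x585048402) (nat_lit 0) (p (nat_lit 0x16000c) (nat_lit 0) (p (nat_lit 0x60592) (nat_lit 0) (p (nat_lit 0x48512) (nat_lit 0) (p (nat_lit 0x50392) (nat_lit 0) (p (nat_lit 0x38312) (nat_lit 0) (p (nat_lit 0x40212) (nat_lit 0) (p (nat_lit 0x28192) (nat_lit 0) (p (nat_lit 0x30092) (nat_lit 0) (p (nat_lit 0x18012) (nat_lit 0) pn))))))))))))))))))))))) :=
  Cl.node (nat_lit 0x101) (nat_lit 2) (by decide +kernel) (ClAll.succ (ClAll.succ ClAll.zero n81) n82)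

def n96 : Cl (O (nat_lit 5)) (R (nat_lit 135377))
    (p (nat_lit 0x119) (nat_lit 1) (p (nat_lit 0xc1) (nat_lit 0) (p (nat_lit 0x81) (nat_lit 1) (p (nat_lit 0x41) (nat_lit 1) (p (nat_lit 0x10b0a09890a9a) (nat_lit 0) (p (nat_lit 0xa8989088a1a) (nat_lit 0) (p (nat_lit 0x10a090888079a) (nat_lit 0) (p (nat_lit 0x9888807871a) (nat_lit 0) (p (nat_lit 0x8000000000800090787088a) (nat_lit 0) (p (nat_lit 0x8000000000800088706860a) (nat_lit 0) (p (nat_lit 0x10706860782) (nat_lit 0) (p (nat_lit 0x686058702) (nat_lit 0) (p (nat_lit 0x10605850482) (nat_lit 0) (p (nat_lit 0x585048402) (nat_lit 0) (p (nat_lit 0x16000c) (nat_lit 0) (p (nat_lit 0x60592) (nat_lit 0) (p (nat_lit 0x48512) (nat_lit 0) (p (nat_lit 0x50392) (nat_lit 0) (p (nat_lit 0x38312) (nat_lit 0) (p (nat_lit 0x40212) (nat_lit 0) (p (nat_lit 0x28192) (nat_lit 0) (p (nat_lit 0x30092) (nat_lit 0) (p (nat_lit 0x18012) (nat_lit 0) pn)))))))))))))))))))))))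 :=
  Cl.node (nat_lit 0xc9) (nat_lit 2) (by decide +kernel) (ClAll.succ (ClAll.succ ClAll.zero n83) n84)

def n97 : Cl (O (nat_lit 5)) (R (nat_lit 135377))
    (p (nat_lit 0x101) (nat_lit 0) (p (nat_lit 0xc1) (nat_lit 1) (p (nat_lit 0x81) (nat_lit 1) (p (nat_lit 0x41) (nat_lit 1) (p (nat_lit 0x10b0a09890a9a) (nat_lit 0) (p (nat_lit 0xa8989088a1a) (nat_lit 0) (p (nat_lit 0x10a090888079a) (nat_lit 0) (p (nat_lit 0x9888807871a) (nat_lit 0) (p (nat_lit 0x8000000000800090787088a) (nat_lit 0) (p (nat_lit 0x8000000000800088706860a) (nat_lit 0) (p (nat_lit 0x10706860782) (nat_lit 0) (p (nat_lit 0x686058702) (nat_lit 0) (p (nat_lit 0x10605850482) (nat_lit 0) (p (nat_lit 0x585048402) (nat_lit 0) (p (nat_lit 0x16000c) (nat_lit 0) (p (nat_lit 0x60592) (nat_lit 0) (p (nat_lit 0x48512) (nat_lit 0) (p (nat_lit 0x50392) (nat_lit 0) (p (nat_lit 0x38312) (nat_lit 0) (p (nat_lit 0x40212) (nat_lit 0) (p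 (nat_lit 0x28192) (nat_lit 0) (p (nat_lit 0x30092) (nat_lit 0) (p (nat_lit 0x18012) (nat_lit 0) pn))))))))))))))))))))))) :=
  Cl.node (nat_lit 0x109) (nat_lit 2) (by decide +kernel) (ClAll.succ (ClAll.succ ClAll.zero n85) s111)

def n98 : Cl (O (nat_lit 5)) (R (nat_lit 135377))
    (p (nat_lit 0xd1) (nat_lit 0) (p (nat_lit 0x89) (nat_lit 0) (p (nat_lit 0x41) (nat_lit 0) (p (nat_lit 0x10b0a09890a9a) (nat_lit 0) (p (nat_lit 0xa8989088a1a) (nat_lit 0) (p (nat_lit 0x10a090888079a) (nat_lit 0) (p (nat_lit 0x9888807871a) (nat_lit 0) (p (nat_lit 0x8000000000800090787088a) (nat_lit 0) (p (nat_lit 0x8000000000800088706860a) (nat_lit 0) (p (nat_lit 0x10706860782) (nat_lit 0) (p (nat_lit 0x686058702) (nat_lit 0) (p (nat_lit 0x10605850482) (nat_lit 0) (p (nat_lit 0x585048402) (nat_lit 0) (p (nat_lit 0x16000c) (nat_lit 0) (p (nat_lit 0x60592) (nat_lit 0) (p (nat_lit 0x48512) (nat_lit 0) (p (nat_lit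 0x50392) (nat_lit 0) (p (nat_lit 0x38312) (nat_lit 0) (p (nat_lit 0x40212) (nat_lit 0) (p (nat_lit 0x28192) (nat_lit 0) (p (nat_lit 0x30092) (nat_lit 0) (p (nat_lit 0x18012) (nat_lit 0) pn)))))))))))))))))))))) :=
  Cl.node (nat_lit 0x119) (nat_lit 2) (by decide +kernel) (ClAll.succ (ClAll.succ ClAll.zero n86) n87)

def n99 : Cl (O (nat_lit 5)) (R (nat_lit 135377))
    (p (nat_lit 0xd1) (nat_lit 1) (p (nat_lit 0x89) (nat_lit 0) (p (nat_lit 0x41) (nat_lit 0) (p (nat_lit 0x10b0a09890a9a) (nat_lit 0) (p (nat_lit 0xa8989088a1a) (nat_lit 0) (p (nat_lit 0x10a090888079a) (nat_lit 0) (p (nat_lit 0x9888807871a) (nat_lit 0) (p (nat_lit 0x8000000000800090787088a) (nat_lit 0) (p (nat_lit 0x8000000000800088706860a) (nat_lit 0) (p (nat_lit 0x10706860782) (nat_lit 0) (p (nat_lit 0x686058702) (nat_lit 0) (p (nat_lit 0x10605850482) (nat_lit 0) (p (nat_lit 0x585048402) (nat_lit 0) (p (nat_lit 0x16000c)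 (nat_lit 0) (p (nat_lit 0x60592) (nat_lit 0) (p (nat_lit 0x48512) (nat_lit 0) (p (nat_lit 0x50392) (nat_lit 0) (p (nat_lit 0x38312) (nat_lit 0) (p (nat_lit 0x40212) (nat_lit 0) (p (nat_lit 0x28192) (nat_lit 0) (p (nat_lit 0x30092) (nat_lit 0) (p (nat_lit 0x18012) (nat_lit 0) pn)))))))))))))))))))))) :=
  Cl.node (nat_lit 0x111) (nat_lit 2) (by decide +kernel) (ClAll.succ (ClAll.succ ClAll.zero n88) s32)

def n100 : Cl (O (nat_lit 5)) (R (nat_lit 135377))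
    (p (nat_lit 0xc9) (nat_lit 0) (p (nat_lit 0x89) (nat_lit 1) (p (nat_lit 0x41) (nat_lit 0) (p (nat_lit 0x10b0a09890a9a) (nat_lit 0) (p (nat_lit 0xa8989088a1a) (nat_lit 0) (p (nat_lit 0x10a090888079a) (nat_lit 0) (p (nat_lit 0x9888807871a) (nat_lit 0) (p (nat_lit 0x8000000000800090787088a) (nat_lit 0) (p (nat_lit 0x8000000000800088706860a) (nat_lit 0) (p (nat_lit 0x10706860782) (nat_lit 0) (p (nat_lit 0x686058702) (nat_lit 0) (p (nat_lit 0x10605850482) (nat_lit 0) (p (nat_lit 0x585048402) (nat_lit 0) (p (nat_lit 0x16000c) (nat_lit 0) (p (nat_lit 0x60592) (nat_lit 0) (p (nat_lit 0x48512) (nat_lit 0) (p (nat_lit 0x50392) (nat_lit 0) (p (nat_lit 0x38312) (nat_lit 0) (p (nat_lit 0x40212) (nat_lit 0) (p (nat_lit 0x28192) (nat_lit 0) (p (nat_lit 0x30092) (nat_lit 0) (p (nat_lit 0x18012) (nat_lit 0) pn)))))))))))))))))))))) :=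
  Cl.node (nat_lit 0x119) (nat_lit 2) (by decide +kernel) (ClAll.succ (ClAll.succ ClAll.zero n89) n90)

def n101 : Cl (O (nat_lit 5)) (R (nat_lit 135377))
    (p (nat_lit 0xd1) (nat_lit 0) (p (nat_lit 0x81) (nat_lit 0) (p (nat_lit 0x41) (nat_lit 1) (p (nat_lit 0x10b0a09890a9a) (nat_lit 0) (p (nat_lit 0xa8989088a1a) (nat_lit 0) (p (nat_lit 0x10a090888079a) (nat_lit 0) (p (nat_lit 0x9888807871a) (nat_lit 0) (p (nat_lit 0x8000000000800090787088a) (nat_lit 0) (p (nat_lit 0x8000000000800088706860a) (nat_lit 0) (p (nat_lit 0x10706860782) (nat_lit 0) (p (nat_lit 0x686058702) (nat_lit 0) (p (nat_lit 0x10605850482) (nat_lit 0) (p (nat_lit 0x585048402) (nat_lit 0) (p (nat_lit 0x16000c) (nat_lit 0) (p (nat_lit 0x60592) (nat_lit 0) (p (nat_lit 0x48512) (nat_lit 0) (p (nat_lit 0x50392) (nat_lit 0) (p (nat_lit 0x38312) (nat_lit 0) (p (nat_lit 0x40212) (nat_lit 0) (p (nat_lit 0x28192) (nat_lit 0)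 (p (nat_lit 0x30092) (nat_lit 0) (p (nat_lit 0x18012) (nat_lit 0) pn)))))))))))))))))))))) :=
  Cl.node (nat_lit 0x119) (nat_lit 2) (by decide +kernel) (ClAll.succ (ClAll.succ ClAll.zero n91) n92)

def n102 : Cl (O (nat_lit 5)) (R (nat_lit 135377))
    (p (nat_lit 0xd1) (nat_lit 1) (p (nat_lit 0x81) (nat_lit 0) (p (nat_lit 0x41) (nat_lit 1) (p (nat_lit 0x10b0a09890a9a) (nat_lit 0) (p (nat_lit 0xa8989088a1a) (nat_lit 0) (p (nat_lit 0x10a090888079a) (nat_lit 0) (p (nat_lit 0x9888807871a) (nat_lit 0) (p (nat_lit 0x8000000000800090787088a) (nat_lit 0) (p (nat_lit 0x8000000000800088706860a) (nat_lit 0) (p (nat_lit 0x10706860782) (nat_lit 0) (p (nat_lit 0x686058702) (nat_lit 0) (p (nat_lit 0x10605850482) (nat_lit 0) (p (nat_lit 0x585048402) (nat_lit 0) (p (nat_lit 0x16000c) (nat_lit 0) (p (nat_lit 0x60592) (nat_lit 0) (p (nat_lit 0x48512) (nat_lit 0) (p (nat_lit 0x50392) (nat_lit 0) (p (nat_lit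 0x38312) (nat_lit 0) (p (nat_lit 0x40212) (nat_lit 0) (p (nat_lit 0x28192) (nat_lit 0) (p (nat_lit 0x30092) (nat_lit 0) (p (nat_lit 0x18012) (nat_lit 0) pn)))))))))))))))))))))) :=
  Cl.node (nat_lit 0x111) (nat_lit 2) (by decide +kernel) (ClAll.succ (ClAll.succ ClAll.zero n93) n94)

def n103 : Cl (O (nat_lit 5)) (R (nat_lit 135377))
    (p (nat_lit 0xc1) (nat_lit 0) (p (nat_lit 0x81) (nat_lit 1) (p (nat_lit 0x41) (nat_lit 1) (p (nat_lit 0x10b0a09890a9a) (nat_lit 0) (p (nat_lit 0xa8989088a1a) (nat_lit 0) (p (nat_lit 0x10a090888079a) (nat_lit 0) (p (nat_lit 0x9888807871a) (nat_lit 0) (p (nat_lit 0x8000000000800090787088a) (nat_lit 0) (p (nat_lit 0x8000000000800088706860a) (nat_lit 0) (p (nat_lit 0x10706860782) (nat_lit 0) (p (nat_lit 0x686058702) (nat_lit 0) (p (nat_lit 0x10605850482) (nat_lit 0) (p (nat_lit 0x585048402) (nat_lit 0) (p (nat_lit 0x16000c) (nat_lit 0) (p (nat_lit 0x60592)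 (nat_lit 0) (p (nat_lit 0x48512) (nat_lit 0) (p (nat_lit 0x50392) (nat_lit 0) (p (nat_lit 0x38312) (nat_lit 0) (p (nat_lit 0x40212) (nat_lit 0) (p (nat_lit 0x28192) (nat_lit 0) (p (nat_lit 0x30092) (nat_lit 0) (p (nat_lit 0x18012) (nat_lit 0) pn)))))))))))))))))))))) :=
  Cl.node (nat_lit 0x119) (nat_lit 2) (by decide +kernel) (ClAll.succ (ClAll.succ ClAll.zero n95) n96)

def n104 : Cl (O (nat_lit 5)) (R (nat_lit 135377))
    (p (nat_lit 0xc1) (nat_lit 1) (p (nat_lit 0x81) (nat_lit 1) (p (nat_lit 0x41) (nat_lit 1) (p (nat_lit 0x10b0a09890a9a) (nat_lit 0) (p (nat_lit 0xa8989088a1a) (nat_lit 0) (p (nat_lit 0x10a090888079a) (nat_lit 0) (p (nat_lit 0x9888807871a) (nat_lit 0) (p (nat_lit 0x8000000000800090787088a) (nat_lit 0) (p (nat_lit 0x8000000000800088706860a) (nat_lit 0) (p (nat_lit 0x10706860782) (nat_lit 0) (p (nat_lit 0x686058702) (nat_lit 0) (p (nat_lit 0x10605850482) (nat_lit 0)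 (p (nat_lit 0x585048402) (nat_lit 0) (p (nat_lit 0x16000c) (nat_lit 0) (p (nat_lit 0x60592) (nat_lit 0) (p (nat_lit 0x48512) (nat_lit 0) (p (nat_lit 0x50392) (nat_lit 0) (p (nat_lit 0x38312) (nat_lit 0) (p (nat_lit 0x40212) (nat_lit 0) (p (nat_lit 0x28192) (nat_lit 0) (p (nat_lit 0x30092) (nat_lit 0) (p (nat_lit 0x18012) (nat_lit 0) pn)))))))))))))))))))))) :=
  Cl.node (nat_lit 0x101) (nat_lit 2) (by decide +kernel) (ClAll.succ (ClAll.succ ClAll.zero n97) s112)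

def n105 : Cl (O (nat_lit 5)) (R (nat_lit 135377))
    (p (nat_lit 0x89) (nat_lit 0) (p (nat_lit 0x41) (nat_lit 0) (p (nat_lit 0x10b0a09890a9a) (nat_lit 0) (p (nat_lit 0xa8989088a1a) (nat_lit 0) (p (nat_lit 0x10a090888079a) (nat_lit 0) (p (nat_lit 0x9888807871a) (nat_lit 0) (p (nat_lit 0x8000000000800090787088a) (nat_lit 0) (p (nat_lit 0x8000000000800088706860a) (nat_lit 0) (p (nat_lit 0x10706860782) (nat_lit 0) (p (nat_lit 0x686058702) (nat_lit 0) (p (nat_lit 0x10605850482) (nat_lit 0) (p (nat_lit 0x585048402) (nat_lit 0) (p (nat_lit 0x16000c) (nat_lit 0) (p (nat_lit 0x60592) (nat_lit 0) (p (nat_lit 0x48512) (nat_lit 0) (p (nat_lit 0x50392) (nat_lit 0) (p (nat_lit 0x38312) (nat_lit 0) (p (nat_lit 0x40212) (nat_lit 0) (p (nat_lit 0x28192) (nat_lit 0) (p (nat_lit 0x30092) (nat_lit 0) (p (nat_lit 0x18012) (nat_lit 0) pn))))))))))))))))))))) :=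
  Cl.node (nat_lit 0xd1) (nat_lit 2) (by decide +kernel) (ClAll.succ (ClAll.succ ClAll.zero n98) n99)

def n106 : Cl (O (nat_lit 5)) (R (nat_lit 135377))
    (p (nat_lit 0x89) (nat_lit 1) (p (nat_lit 0x41) (nat_lit 0) (p (nat_lit 0x10b0a09890a9a) (nat_lit 0) (p (nat_lit 0xa8989088a1a) (nat_lit 0) (p (nat_lit 0x10a090888079a) (nat_lit 0) (p (nat_lit 0x9888807871a) (nat_lit 0) (p (nat_lit 0x8000000000800090787088a) (nat_lit 0) (p (nat_lit 0x8000000000800088706860a) (nat_lit 0) (p (nat_lit 0x10706860782) (nat_lit 0) (p (nat_lit 0x686058702) (nat_lit 0) (p (nat_lit 0x10605850482) (nat_lit 0) (p (nat_lit 0x585048402) (nat_lit 0) (p (nat_lit 0x16000c) (nat_lit 0) (p (nat_lit 0x60592) (nat_lit 0) (p (nat_lit 0x48512) (nat_lit 0) (p (nat_lit 0x50392) (nat_lit 0) (p (nat_lit 0x38312) (nat_lit 0) (p (nat_lit 0x40212) (nat_lit 0) (p (nat_lit 0x28192) (nat_lit 0) (p (nat_lit 0x30092) (nat_lit 0)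 (p (nat_lit 0x18012) (nat_lit 0) pn))))))))))))))))))))) :=
  Cl.node (nat_lit 0xc9) (nat_lit 2) (by decide +kernel) (ClAll.succ (ClAll.succ ClAll.zero n100) s50)

def n107 : Cl (O (nat_lit 5)) (R (nat_lit 135377))
    (p (nat_lit 0x81) (nat_lit 0) (p (nat_lit 0x41) (nat_lit 1) (p (nat_lit 0x10b0a09890a9a) (nat_lit 0) (p (nat_lit 0xa8989088a1a) (nat_lit 0) (p (nat_lit 0x10a090888079a) (nat_lit 0) (p (nat_lit 0x9888807871a) (nat_lit 0) (p (nat_lit 0x8000000000800090787088a) (nat_lit 0) (p (nat_lit 0x8000000000800088706860a) (nat_lit 0) (p (nat_lit 0x10706860782) (nat_lit 0) (p (nat_lit 0x686058702) (nat_lit 0) (p (nat_lit 0x10605850482) (nat_lit 0) (p (nat_lit 0x585048402) (nat_lit 0) (p (nat_lit 0x16000c) (nat_lit 0) (p (nat_lit 0x60592) (nat_lit 0) (p (nat_lit 0x48512) (nat_lit 0) (p (nat_lit 0x50392) (nat_lit 0) (p (nat_lit 0x38312) (nat_lit 0) (p (nat_lit 0x40212) (nat_lit 0) (p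 (nat_lit 0x28192) (nat_lit 0) (p (nat_lit 0x30092) (nat_lit 0) (p (nat_lit 0x18012) (nat_lit 0) pn))))))))))))))))))))) :=
  Cl.node (nat_lit 0xd1) (nat_lit 2) (by decide +kernel) (ClAll.succ (ClAll.succ ClAll.zero n101) n102)

def n108 : Cl (O (nat_lit 5)) (R (nat_lit 135377))
    (p (nat_lit 0x81) (nat_lit 1) (p (nat_lit 0x41) (nat_lit 1) (p (nat_lit 0x10b0a09890a9a) (nat_lit 0) (p (nat_lit 0xa8989088a1a) (nat_lit 0) (p (nat_lit 0x10a090888079a) (nat_lit 0) (p (nat_lit 0x9888807871a) (nat_lit 0) (p (nat_lit 0x8000000000800090787088a) (nat_lit 0) (p (nat_lit 0x8000000000800088706860a) (nat_lit 0) (p (nat_lit 0x10706860782) (nat_lit 0) (p (nat_lit 0x686058702) (nat_lit 0) (p (nat_lit 0x10605850482) (nat_lit 0) (p (nat_lit 0x585048402) (nat_lit 0) (p (nat_lit 0x16000c) (nat_lit 0) (p (nat_lit 0x60592) (nat_lit 0) (p (nat_lit 0x48512) (nat_lit 0) (p (nat_lit 0x50392) (nat_lit 0) (p (nat_lit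 0x38312) (nat_lit 0) (p (nat_lit 0x40212) (nat_lit 0) (p (nat_lit 0x28192) (nat_lit 0) (p (nat_lit 0x30092) (nat_lit 0) (p (nat_lit 0x18012) (nat_lit 0) pn))))))))))))))))))))) :=
  Cl.node (nat_lit 0xc1) (nat_lit 2) (by decide +kernel) (ClAll.succ (ClAll.succ ClAll.zero n103) n104)

def n109 : Cl (O (nat_lit 5)) (R (nat_lit 135377))
    (p (nat_lit 0x41) (nat_lit 0) (p (nat_lit 0x10b0a09890a9a) (nat_lit 0) (p (nat_lit 0xa8989088a1a) (nat_lit 0) (p (nat_lit 0x10a090888079a) (nat_lit 0) (p (nat_lit 0x9888807871a) (nat_lit 0) (p (nat_lit 0x8000000000800090787088a) (nat_lit 0) (p (nat_lit 0x8000000000800088706860a) (nat_lit 0) (p (nat_lit 0x10706860782) (nat_lit 0) (p (nat_lit 0x686058702) (nat_lit 0) (p (nat_lit 0x10605850482) (nat_lit 0) (p (nat_lit 0x585048402) (nat_lit 0) (p (nat_lit 0x16000c) (nat_lit 0) (p (nat_lit 0x60592) (nat_lit 0) (p (nat_lit 0x48512) (nat_lit 0) (p (nat_lit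 0x50392) (nat_lit 0) (p (nat_lit 0x38312) (nat_lit 0) (p (nat_lit 0x40212) (nat_lit 0) (p (nat_lit 0x28192) (nat_lit 0) (p (nat_lit 0x30092) (nat_lit 0) (p (nat_lit 0x18012) (nat_lit 0) pn)))))))))))))))))))) :=
  Cl.node (nat_lit 0x89) (nat_lit 2) (by decide +kernel) (ClAll.succ (ClAll.succ ClAll.zero n105) n106)

def n110 : Cl (O (nat_lit 5)) (R (nat_lit 135377))
    (p (nat_lit 0x41) (nat_lit 1) (p (nat_lit 0x10b0a09890a9a) (nat_lit 0) (p (nat_lit 0xa8989088a1a) (nat_lit 0) (p (nat_lit 0x10a090888079a) (nat_lit 0) (p (nat_lit 0x9888807871a) (nat_lit 0) (p (nat_lit 0x8000000000800090787088a) (nat_lit 0) (p (nat_lit 0x8000000000800088706860a) (nat_lit 0) (p (nat_lit 0x10706860782) (nat_lit 0) (p (nat_lit 0x686058702) (nat_lit 0) (p (nat_lit 0x10605850482) (nat_lit 0) (p (nat_lit 0x585048402) (nat_lit 0) (p (nat_lit 0x16000c) (nat_lit 0) (p (nat_lit 0x60592) (nat_lit 0) (p (nat_lit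 0x48512) (nat_lit 0) (p (nat_lit 0x50392) (nat_lit 0) (p (nat_lit 0x38312) (nat_lit 0) (p (nat_lit 0x40212) (nat_lit 0) (p (nat_lit 0x28192) (nat_lit 0) (p (nat_lit 0x30092) (nat_lit 0) (p (nat_lit 0x18012) (nat_lit 0) pn)))))))))))))))))))) :=
  Cl.node (nat_lit 0x81) (nat_lit 2) (by decide +kernel) (ClAll.succ (ClAll.succ ClAll.zero n107) n108)

def n111 : Cl (O (nat_lit 5)) (R (nat_lit 135377))
    (p (nat_lit 0x10b0a09890a9a) (nat_lit 0) (p (nat_lit 0xa8989088a1a) (nat_lit 0) (p (nat_lit 0x10a090888079a) (nat_lit 0) (p (nat_lit 0x9888807871a) (nat_lit 0) (p (nat_lit 0x8000000000800090787088a) (nat_lit 0) (p (nat_lit 0x8000000000800088706860a) (nat_lit 0) (p (nat_lit 0x10706860782) (nat_lit 0) (p (nat_lit 0x686058702) (nat_lit 0) (p (nat_lit 0x10605850482) (nat_lit 0) (p (nat_lit 0x585048402) (nat_lit 0) (p (nat_lit 0x16000c) (nat_lit 0) (p (nat_lit 0x60592) (nat_lit 0) (p (nat_lit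 0x48512) (nat_lit 0) (p (nat_lit 0x50392) (nat_lit 0) (p (nat_lit 0x38312) (nat_lit 0) (p (nat_lit 0x40212) (nat_lit 0) (p (nat_lit 0x28192) (nat_lit 0) (p (nat_lit 0x30092) (nat_lit 0) (p (nat_lit 0x18012) (nat_lit 0) pn))))))))))))))))))) :=
  Cl.node (nat_lit 0x41) (nat_lit 2) (by decide +kernel) (ClAll.succ (ClAll.succ ClAll.zero n109) n110)

def n112 : Cl (O (nat_lit 5)) (R (nat_lit 135377))
    (p (nat_lit 0xa8989088a1a) (nat_lit 0) (p (nat_lit 0x10a090888079a) (nat_lit 0) (p (nat_lit 0x9888807871a) (nat_lit 0) (p (nat_lit 0x8000000000800090787088a) (nat_lit 0) (p (nat_lit 0x8000000000800088706860a) (nat_lit 0) (p (nat_lit 0x10706860782) (nat_lit 0) (p (nat_lit 0x686058702) (nat_lit 0) (p (nat_lit 0x10605850482) (nat_lit 0) (p (nat_lit 0x585048402) (nat_lit 0) (p (nat_lit 0x16000c) (nat_lit 0) (p (nat_lit 0x60592) (nat_lit 0) (p (nat_lit 0x48512) (nat_lit 0) (p (nat_lit 0x50392)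 (nat_lit 0) (p (nat_lit 0x38312) (nat_lit 0) (p (nat_lit 0x40212) (nat_lit 0) (p (nat_lit 0x28192) (nat_lit 0) (p (nat_lit 0x30092) (nat_lit 0) (p (nat_lit 0x18012) (nat_lit 0) pn)))))))))))))))))) :=
  Cl.node (nat_lit 0x10b0a09890a9a) (nat_lit 1) (by decide +kernel) (ClAll.succ ClAll.zero n111)

def n113 : Cl (O (nat_lit 5)) (R (nat_lit 135377))
    (p (nat_lit 0x10a090888079a) (nat_lit 0) (p (nat_lit 0x9888807871a) (nat_lit 0) (p (nat_lit 0x8000000000800090787088a) (nat_lit 0) (p (nat_lit 0x8000000000800088706860a) (nat_lit 0) (p (nat_lit 0x10706860782) (nat_lit 0) (p (nat_lit 0x686058702) (nat_lit 0) (p (nat_lit 0x10605850482) (nat_lit 0) (p (nat_lit 0x585048402) (nat_lit 0) (p (nat_lit 0x16000c) (nat_lit 0) (p (nat_lit 0x60592) (nat_lit 0) (p (nat_lit 0x48512) (nat_lit 0) (p (nat_lit 0x50392) (nat_lit 0) (p (nat_lit 0x38312) (nat_lit 0) (p (nat_lit 0x40212) (nat_lit 0) (p (nat_lit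 0x28192) (nat_lit 0) (p (nat_lit 0x30092) (nat_lit 0) (p (nat_lit 0x18012) (nat_lit 0) pn))))))))))))))))) :=
  Cl.node (nat_lit 0xa8989088a1a) (nat_lit 1) (by decide +kernel) (ClAll.succ ClAll.zero n112)

def n114 : Cl (O (nat_lit 5)) (R (nat_lit 135377))
    (p (nat_lit 0x9888807871a) (nat_lit 0) (p (nat_lit 0x8000000000800090787088a) (nat_lit 0) (p (nat_lit 0x8000000000800088706860a) (nat_lit 0) (p (nat_lit 0x10706860782) (nat_lit 0) (p (nat_lit 0x686058702) (nat_lit 0) (p (nat_lit 0x10605850482) (nat_lit 0) (p (nat_lit 0x585048402) (nat_lit 0) (p (nat_lit 0x16000c) (nat_lit 0) (p (nat_lit 0x60592) (nat_lit 0) (p (nat_lit 0x48512) (nat_lit 0) (p (nat_lit 0x50392) (nat_lit 0) (p (nat_lit 0x38312) (nat_lit 0) (p (nat_lit 0x40212) (nat_lit 0) (p (nat_lit 0x28192) (nat_lit 0) (p (nat_lit 0x30092) (nat_lit 0) (p (nat_lit 0x18012) (nat_lit 0) pn)))))))))))))))) :=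
  Cl.node (nat_lit 0x10a090888079a) (nat_lit 1) (by decide +kernel) (ClAll.succ ClAll.zero n113)

def n115 : Cl (O (nat_lit 5)) (R (nat_lit 135377))
    (p (nat_lit 0x8000000000800090787088a) (nat_lit 0) (p (nat_lit 0x8000000000800088706860a) (nat_lit 0) (p (nat_lit 0x10706860782) (nat_lit 0) (p (nat_lit 0x686058702) (nat_lit 0) (p (nat_lit 0x10605850482) (nat_lit 0) (p (nat_lit 0x585048402) (nat_lit 0) (p (nat_lit 0x16000c) (nat_lit 0) (p (nat_lit 0x60592) (nat_lit 0) (p (nat_lit 0x48512) (nat_lit 0) (p (nat_lit 0x50392) (nat_lit 0) (p (nat_lit 0x38312) (nat_lit 0) (p (nat_lit 0x40212) (nat_lit 0) (p (nat_lit 0x28192) (nat_lit 0) (p (nat_lit 0x30092) (nat_lit 0) (p (nat_lit 0x18012) (nat_lit 0) pn))))))))))))))) :=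
  Cl.node (nat_lit 0x9888807871a) (nat_lit 1) (by decide +kernel) (ClAll.succ ClAll.zero n114)

def n116 : Cl (O (nat_lit 5)) (R (nat_lit 135377))
    (p (nat_lit 0x8000000000800088706860a) (nat_lit 0) (p (nat_lit 0x10706860782) (nat_lit 0) (p (nat_lit 0x686058702) (nat_lit 0) (p (nat_lit 0x10605850482) (nat_lit 0) (p (nat_lit 0x585048402) (nat_lit 0) (p (nat_lit 0x16000c) (nat_lit 0) (p (nat_lit 0x60592) (nat_lit 0) (p (nat_lit 0x48512) (nat_lit 0) (p (nat_lit 0x50392) (nat_lit 0) (p (nat_lit 0x38312) (nat_lit 0) (p (nat_lit 0x40212) (nat_lit 0) (p (nat_lit 0x28192) (nat_lit 0) (p (nat_lit 0x30092) (nat_lit 0) (p (nat_lit 0x18012) (nat_lit 0) pn)))))))))))))) :=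
  Cl.node (nat_lit 0x8000000000800090787088a) (nat_lit 1) (by decide +kernel) (ClAll.succ ClAll.zero n115)

def n117 : Cl (O (nat_lit 5)) (R (nat_lit 135377))
    (p (nat_lit 0x10706860782) (nat_lit 0) (p (nat_lit 0x686058702) (nat_lit 0) (p (nat_lit 0x10605850482) (nat_lit 0) (p (nat_lit 0x585048402) (nat_lit 0) (p (nat_lit 0x16000c) (nat_lit 0) (p (nat_lit 0x60592) (nat_lit 0) (p (nat_lit 0x48512) (nat_lit 0) (p (nat_lit 0x50392) (nat_lit 0) (p (nat_lit 0x38312) (nat_lit 0) (p (nat_lit 0x40212) (nat_lit 0) (p (nat_lit 0x28192) (nat_lit 0) (p (nat_lit 0x30092) (nat_lit 0) (p (nat_lit 0x18012) (nat_lit 0) pn))))))))))))) :=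
  Cl.node (nat_lit 0x8000000000800088706860a) (nat_lit 1) (by decide +kernel) (ClAll.succ ClAll.zero n116)

def n118 : Cl (O (nat_lit 5)) (R (nat_lit 135377))
    (p (nat_lit 0x686058702) (nat_lit 0) (p (nat_lit 0x10605850482) (nat_lit 0) (p (nat_lit 0x585048402) (nat_lit 0) (p (nat_lit 0x16000c) (nat_lit 0) (p (nat_lit 0x60592) (nat_lit 0) (p (nat_lit 0x48512) (nat_lit 0) (p (nat_lit 0x50392) (nat_lit 0) (p (nat_lit 0x38312) (nat_lit 0) (p (nat_lit 0x40212) (nat_lit 0) (p (nat_lit 0x28192) (nat_lit 0) (p (nat_lit 0x30092) (nat_lit 0) (p (nat_lit 0x18012) (nat_lit 0) pn)))))))))))) :=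
  Cl.node (nat_lit 0x10706860782) (nat_lit 1) (by decide +kernel) (ClAll.succ ClAll.zero n117)

def n119 : Cl (O (nat_lit 5)) (R (nat_lit 135377))
    (p (nat_lit 0x10605850482) (nat_lit 0) (p (nat_lit 0x585048402) (nat_lit 0) (p (nat_lit 0x16000c) (nat_lit 0) (p (nat_lit 0x60592) (nat_lit 0) (p (nat_lit 0x48512) (nat_lit 0) (p (nat_lit 0x50392) (nat_lit 0) (p (nat_lit 0x38312) (nat_lit 0) (p (nat_lit 0x40212) (nat_lit 0) (p (nat_lit 0x28192) (nat_lit 0) (p (nat_lit 0x30092) (nat_lit 0) (p (nat_lit 0x18012) (nat_lit 0) pn))))))))))) :=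
  Cl.node (nat_lit 0x686058702) (nat_lit 1) (by decide +kernel) (ClAll.succ ClAll.zero n118)

def n120 : Cl (O (nat_lit 5)) (R (nat_lit 135377))
    (p (nat_lit 0x585048402) (nat_lit 0) (p (nat_lit 0x16000c) (nat_lit 0) (p (nat_lit 0x60592) (nat_lit 0) (p (nat_lit 0x48512) (nat_lit 0) (p (nat_lit 0x50392) (nat_lit 0) (p (nat_lit 0x38312) (nat_lit 0) (p (nat_lit 0x40212) (nat_lit 0) (p (nat_lit 0x28192) (nat_lit 0) (p (nat_lit 0x30092) (nat_lit 0) (p (nat_lit 0x18012) (nat_lit 0) pn)))))))))) :=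
  Cl.node (nat_lit 0x10605850482) (nat_lit 1) (by decide +kernel) (ClAll.succ ClAll.zero n119)

def n121 : Cl (O (nat_lit 5)) (R (nat_lit 135377))
    (p (nat_lit 0x16000c) (nat_lit 0) (p (nat_lit 0x60592) (nat_lit 0) (p (nat_lit 0x48512) (nat_lit 0) (p (nat_lit 0x50392) (nat_lit 0) (p (nat_lit 0x38312) (nat_lit 0) (p (nat_lit 0x40212) (nat_lit 0) (p (nat_lit 0x28192) (nat_lit 0) (p (nat_lit 0x30092) (nat_lit 0) (p (nat_lit 0x18012) (nat_lit 0) pn))))))))) :=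
  Cl.node (nat_lit 0x585048402) (nat_lit 1) (by decide +kernel) (ClAll.succ ClAll.zero n120)

def n122 : Cl (O (nat_lit 5)) (R (nat_lit 135377))
    (p (nat_lit 0x60592) (nat_lit 0) (p (nat_lit 0x48512) (nat_lit 0) (p (nat_lit 0x50392) (nat_lit 0) (p (nat_lit 0x38312) (nat_lit 0) (p (nat_lit 0x40212) (nat_lit 0) (p (nat_lit 0x28192) (nat_lit 0) (p (nat_lit 0x30092) (nat_lit 0) (p (nat_lit 0x18012) (nat_lit 0) pn)))))))) :=
  Cl.node (nat_lit 0x16000c) (nat_lit 2) (by decide +kernel) (ClAll.succ (ClAll.succ ClAll.zero n121) s113)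

def n123 : Cl (O (nat_lit 5)) (R (nat_lit 135377))
    (p (nat_lit 0x48512) (nat_lit 0) (p (nat_lit 0x50392) (nat_lit 0) (p (nat_lit 0x38312) (nat_lit 0) (p (nat_lit 0x40212) (nat_lit 0) (p (nat_lit 0x28192) (nat_lit 0) (p (nat_lit 0x30092) (nat_lit 0) (p (nat_lit 0x18012) (nat_lit 0) pn))))))) :=
  Cl.node (nat_lit 0x60592) (nat_lit 1) (by decide +kernel) (ClAll.succ ClAll.zero n122)

def n124 : Cl (O (nat_lit 5)) (R (nat_lit 135377))
    (p (nat_lit 0x50392) (nat_lit 0) (p (nat_lit 0x38312) (nat_lit 0) (p (nat_lit 0x40212) (nat_lit 0) (p (nat_lit 0x28192) (nat_lit 0) (p (nat_lit 0x30092) (nat_lit 0) (p (nat_lit 0x18012) (nat_lit 0) pn)))))) :=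
  Cl.node (nat_lit 0x48512) (nat_lit 1) (by decide +kernel) (ClAll.succ ClAll.zero n123)

def n125 : Cl (O (nat_lit 5)) (R (nat_lit 135377))
    (p (nat_lit 0x38312) (nat_lit 0) (p (nat_lit 0x40212) (nat_lit 0) (p (nat_lit 0x28192) (nat_lit 0) (p (nat_lit 0x30092) (nat_lit 0) (p (nat_lit 0x18012) (nat_lit 0) pn))))) :=
  Cl.node (nat_lit 0x50392) (nat_lit 1) (by decide +kernel) (ClAll.succ ClAll.zero n124)

def n126 : Cl (O (nat_lit 5)) (R (nat_lit 135377))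
    (p (nat_lit 0x40212) (nat_lit 0) (p (nat_lit 0x28192) (nat_lit 0) (p (nat_lit 0x30092) (nat_lit 0) (p (nat_lit 0x18012) (nat_lit 0) pn)))) :=
  Cl.node (nat_lit 0x38312) (nat_lit 1) (by decide +kernel) (ClAll.succ ClAll.zero n125)

def n127 : Cl (O (nat_lit 5)) (R (nat_lit 135377))
    (p (nat_lit 0x28192) (nat_lit 0) (p (nat_lit 0x30092) (nat_lit 0) (p (nat_lit 0x18012) (nat_lit 0) pn))) :=
  Cl.node (nat_lit 0x40212) (nat_lit 1) (by decide +kernel) (ClAll.succ ClAll.zero n126)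

def n128 : Cl (O (nat_lit 5)) (R (nat_lit 135377))
    (p (nat_lit 0x30092) (nat_lit 0) (p (nat_lit 0x18012) (nat_lit 0) pn)) :=
  Cl.node (nat_lit 0x28192) (nat_lit 1) (by decide +kernel) (ClAll.succ ClAll.zero n127)

def n129 : Cl (O (nat_lit 5)) (R (nat_lit 135377))
    (p (nat_lit 0x18012) (nat_lit 0) pn) :=
  Cl.node (nat_lit 0x30092) (nat_lit 1) (by decide +kernel) (ClAll.succ ClAll.zero n128)

def n130 : Cl (O (nat_lit 5)) (R (nat_lit 135377))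
    pn :=
  Cl.node (nat_lit 0x18012) (nat_lit 1) (by decide +kernel) (ClAll.succ ClAll.zero n129)

theorem top : Cl (O (nat_lit 5)) (R (nat_lit 135377)) pn := n130

end Pool.Agent.Gen.F5.X123C1Dm5
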